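import Pool.Agent.K9h12.GP.Mer

/-!
The pointwise bounds for the auxiliary form.
-/

set_option autoImplicit false

open Filter Metric Set Topology Polynomial Pool.Agent.W602.NC Pool.Agent.TH152.HY
  Pool.Agent.K9h12.AX

namespace Pool.Agent.K9h12.GP

open Pool.Agent.K9h12.SH Pool.Agent.K9h12.SG

theorem hb_le (C D : ℕ) (G : MvPolynomial (Fin 2) ℂ) {C1 : ℝ} (hC1 : 0 ≤ C1) : ∃ K : ℝ, 1 ≤ K ∧
    ∀ u v : Fin 2 → ℂ, (∀ j, ‖u j‖ ≤ C1) → (∀ j, ‖v j‖ ≤ C1) → ‖hb C D G u v‖ ≤ K := by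
  refine ⟨1 + ∑ m ∈ G.support, ‖G.coeff m‖ * ((C1 ^ m 0 * C1 ^ (C - m 0)) *
    (C1 ^ m 1 * C1 ^ (D - m 1))),
    le_add_of_nonneg_right (Finset.sum_nonneg fun i _ => by positivity), fun u v hu hv => ?_⟩
  unfold hb
  refine le_trans (norm_sum_le _ _) (le_trans (Finset.sum_le_sum fun m _ => ?_)
    (le_add_of_nonneg_left zero_le_one))
  rw [norm_mul, norm_mul, norm_mul, norm_mul, norm_pow, norm_pow, norm_pow, norm_pow,
    Algebra.algebraMap_self, RingHom.id_apply]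
  have h1 := pow_le_pow_left₀ (norm_nonneg _) (hu 1) (m 0)
  have h2 := pow_le_pow_left₀ (norm_nonneg _) (hu 0) (C - m 0)
  have h3 := pow_le_pow_left₀ (norm_nonneg _) (hv 1) (m 1)
  have h4 := pow_le_pow_left₀ (norm_nonneg _) (hv 0) (D - m 1)
  exact mul_le_mul_of_nonneg_left (mul_le_mul (mul_le_mul h1 h2 (by positivity) (by positivity))
    (mul_le_mul h3 h4 (by positivity) (by positivity)) (by positivity) (by positivity))
    (norm_nonneg _)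

/-- the conditions on normalised vectors -/
structure Nb (A : Dat) (C1 K : ℝ) (u : Fin 2 → ℂ) (u' w w' : ℂ) (δ : ℝ) : Prop where
  δ0 : 0 ≤ δ
  hu : ∀ j, ‖u j‖ ≤ C1
  hu' : ‖u'‖ ≤ C1 * K
  hw : ‖w‖ ≤ C1 * K * δ
  hw' : ‖w'‖ ≤ C1 * K ^ 2 * δ
  hF : δ ≤ C1 * ‖A.F u‖

theorem Jet_bound (A B : Dat) {C1 : ℝ} (hC1 : 1 ≤ C1) : ∃ a : ℝ, 1 ≤ a ∧
    ∀ (u v : Fin 2 → ℂ) (u' v' w x w' x' : ℂ) (K δ δ' : ℝ), 1 ≤ K →
      Nb A C1 K u u' w w' δ → Nb B C1 K v v' x x' δ' →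
      ‖Jet A B u v u' v' w x w' x'‖ ≤ a * K ^ 3 * ((‖A.F u‖ * δ) * (‖B.F v‖ * δ')) ∧
      ‖A.F u‖ ≤ a ∧ ‖B.F v‖ ≤ a := by
  obtain ⟨a1, h1, H1⟩ := coord_bound A hC1
  obtain ⟨a2, h2, H2⟩ := coord_bound B hC1
  refine ⟨2 * a1 * a2, by nlinarith, ?_⟩
  intro u v u' v' w x w' x' K δ δ' hK hA hB
  obtain ⟨k1, k2, k3⟩ := H1 u u' w w' K δ hK hA.δ0 hA.hu hA.hu' hA.hw hA.hw' hA.hF
  obtain ⟨l1, l2, l3⟩ := H2 v v' x x' K δ' hK hB.δ0 hB.hu hB.hu' hB.hw hB.hw' hB.hF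
  have hK0 : 0 ≤ K := by linarith
  have hδ := hA.δ0
  have hδ' := hB.δ0
  set E := ‖A.F u‖ with hE
  set G := ‖B.F v‖ with hGd
  have hE0 : 0 ≤ E := norm_nonneg _
  have hG0 : 0 ≤ G := norm_nonneg _
  refine ⟨?_, by nlinarith, by nlinarith⟩
  unfold Jet
  refine (norm_sub_le _ _).trans ?_
  rw [norm_mul, norm_mul]
  calc ‖B.chi v x‖ * ‖A.phi u u' w w'‖ + ‖A.chi u w‖ * ‖B.phi v v' x x'‖
      ≤ (a2 * K * (G * δ')) * (a1 * K ^ 2 * (E * δ)) +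
        (a1 * K * (E * δ)) * (a2 * K ^ 2 * (G * δ')) :=
        add_le_add (mul_le_mul l1 k2 (norm_nonneg _) (by positivity))
          (mul_le_mul k1 l2 (norm_nonneg _) (by positivity))
    _ = _ := by ring

/-- the bound of the form -/
theorem Ft_bound (A B : Dat) (C D M : ℕ) (f : ℕ × ℕ → MvPolynomial (Fin 2) ℂ) {C1 : ℝ}
    (hC1 : 1 ≤ C1) : ∃ a : ℝ, 1 ≤ a ∧
    ∀ (u v : Fin 2 → ℂ) (u' v' w x w' x' : ℂ) (K δ δ' : ℝ), 1 ≤ K →
      Nb A C1 K u u' w w' δ → Nb B C1 K v v' x x' δ' →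
      ‖Ft A B C D M f u v u' v' w x w' x'‖ ≤
        a * K ^ (3 * M) * ((‖A.F u‖ * δ) * (‖B.F v‖ * δ')) ^ M := by
  obtain ⟨a, ha, Ha⟩ := Jet_bound A B hC1
  choose c hc1 hc using fun k => hb_le C D (f k) (C1 := C1) (by linarith)
  have hC0 : 0 ≤ C1 := by linarith
  have ha0 : 0 ≤ a := by linarith
  have hcn : ∀ k, 0 ≤ c k := fun k => zero_le_one.trans (hc1 k)
  let q : ℕ × ℕ → ℝ := fun k => c k * ((C1 ^ 4 * a) ^ (M - k.1 - k.2) * (C1 ^ 4 * a) ^ k.1 *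
    (a ^ k.2 * (C1 ^ 2) ^ (M - k.2)))
  have hq0 : ∀ k, 0 ≤ q k := fun k => by
    have := hcn k
    positivity
  refine ⟨1 + ∑ k ∈ trn M, q k, le_add_of_nonneg_right (Finset.sum_nonneg fun k _ => hq0 k), ?_⟩
  intro u v u' v' w x w' x' K δ δ' hK hA hB
  obtain ⟨j1, j2, j3⟩ := Ha u v u' v' w x w' x' K δ δ' hK hA hB
  have hK0 : 0 ≤ K := by linarith
  have hδ := hA.δ0
  have hδ' := hB.δ0
  have hFE := hA.hF
  have hFG := hB.hF
  have hu0 := hA.hu 0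
  have hv0 := hB.hu 0
  have hw := hA.hw
  have hx := hB.hw
  set E := ‖A.F u‖ with hE
  set G := ‖B.F v‖ with hGd
  have hE0 : 0 ≤ E := norm_nonneg _
  have hG0 : 0 ≤ G := norm_nonneg _
  set S := (E * δ) * (G * δ') with hS
  have hS0 : 0 ≤ S := by positivity
  have t1 : ‖w * v 0 ^ 2‖ ≤ C1 ^ 4 * a * K := by
    rw [norm_mul, norm_pow]
    have e1 : δ ≤ C1 * a := hFE.trans (mul_le_mul_of_nonneg_left j2 hC0)
    calc ‖w‖ * ‖v 0‖ ^ 2 ≤ (C1 * K * δ) * C1 ^ 2 :=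
          mul_le_mul hw (pow_le_pow_left₀ (norm_nonneg _) hv0 2) (by positivity) (by positivity)
      _ ≤ (C1 * K * (C1 * a)) * C1 ^ 2 := by gcongr
      _ = _ := by ring
  have t2 : ‖x * u 0 ^ 2‖ ≤ C1 ^ 4 * a * K := by
    rw [norm_mul, norm_pow]
    have e1 : δ' ≤ C1 * a := hFG.trans (mul_le_mul_of_nonneg_left j3 hC0)
    calc ‖x‖ * ‖u 0‖ ^ 2 ≤ (C1 * K * δ') * C1 ^ 2 :=
          mul_le_mul hx (pow_le_pow_left₀ (norm_nonneg _) hu0 2) (by positivity) (by positivity)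
      _ ≤ (C1 * K * (C1 * a)) * C1 ^ 2 := by gcongr
      _ = _ := by ring
  have t3 : ‖A.F u * B.F v * (w * x)‖ ≤ C1 ^ 2 * K ^ 2 * S := by
    rw [norm_mul, norm_mul, norm_mul]
    calc E * G * (‖w‖ * ‖x‖) ≤ E * G * ((C1 * K * δ) * (C1 * K * δ')) := by gcongr
      _ = _ := by rw [hS]; ring
  unfold Ft
  refine (norm_sum_le _ _).trans ?_
  have hterm : ∀ k ∈ trn M, ‖hb C D (f k) u v * ((w * v 0 ^ 2) ^ (M - k.1 - k.2) *
      (x * u 0 ^ 2) ^ k.1 * (Jet A B u v u' v' w x w' x' ^ k.2 *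
      (A.F u * B.F v * (w * x)) ^ (M - k.2)))‖ ≤ q k * (K ^ (3 * M) * S ^ M) := by
    intro k hk
    have hkM := mem_trn.1 hk
    rw [norm_mul, norm_mul, norm_mul, norm_mul, norm_pow, norm_pow, norm_pow, norm_pow]
    have b0 := hc k u v hA.hu hB.hu
    have b1 := pow_le_pow_left₀ (norm_nonneg _) t1 (M - k.1 - k.2)
    have b2 := pow_le_pow_left₀ (norm_nonneg _) t2 k.1
    have b3 := pow_le_pow_left₀ (norm_nonneg _) j1 k.2
    have b4 := pow_le_pow_left₀ (norm_nonneg _) t3 (M - k.2)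
    have hck := hcn k
    calc _ ≤ c k * ((C1 ^ 4 * a * K) ^ (M - k.1 - k.2) * (C1 ^ 4 * a * K) ^ k.1 *
          ((a * K ^ 3 * S) ^ k.2 * (C1 ^ 2 * K ^ 2 * S) ^ (M - k.2))) := by
          refine mul_le_mul b0 (mul_le_mul (mul_le_mul b1 b2 (by positivity) (by positivity))
            (mul_le_mul b3 b4 (by positivity) (by positivity)) (by positivity) (by positivity))
            (by positivity) hck
      _ = _ := by
          obtain ⟨j, hj⟩ : ∃ j, M = k.1 + k.2 + j := ⟨M - (k.1 + k.2), by omega⟩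
          simp only [q]
          rw [show M - k.1 - k.2 = j by omega, show M - k.2 = k.1 + j by omega,
            show 3 * M = j + k.1 + 3 * k.2 + 2 * (k.1 + j) by omega,
            show S ^ M = S ^ (k.2 + (k.1 + j)) by congr 1; omega]
          simp only [mul_pow, pow_add K, pow_mul K, pow_add S]
          ring
  have hX0 : 0 ≤ K ^ (3 * M) * S ^ M := by positivity
  calc _ ≤ ∑ k ∈ trn M, q k * (K ^ (3 * M) * S ^ M) := Finset.sum_le_sum hterm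
    _ = (∑ k ∈ trn M, q k) * (K ^ (3 * M) * S ^ M) := by rw [Finset.sum_mul]
    _ ≤ (1 + ∑ k ∈ trn M, q k) * (K ^ (3 * M) * S ^ M) :=
        mul_le_mul_of_nonneg_right (by linarith) hX0
    _ = _ := by ring

/-- the bound for normalised vectors -/
theorem Ax_bound (A B : Dat) (C D M n : ℕ) (f : ℕ × ℕ → MvPolynomial (Fin 2) ℂ) {c c' : ℕ}
    (hc : c ≤ (2 * M + 2) * n) (hc' : c' ≤ (2 * M + 2) * n) {C1 : ℝ}
    (hC1 : 1 ≤ C1) : ∃ a : ℝ, 1 ≤ a ∧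
    ∀ (u v : Fin 2 → ℂ) (u' v' w x w' x' : ℂ) (K δ δ' : ℝ), 1 ≤ K →
      Nb A C1 K u u' w w' δ → Nb B C1 K v v' x x' δ' →
      ‖Ax A B C D M n f u v u' v' w x w' x'‖ ≤
        a * K ^ ((3 * M + 4) * n) * (‖A.F u‖ ^ c * ‖B.F v‖ ^ c') := by
  obtain ⟨a, ha, Ha⟩ := Jet_bound A B hC1
  obtain ⟨b, hb, Hb⟩ := Ft_bound A B C D M f hC1
  have hC0 : 0 ≤ C1 := by linarith
  refine ⟨b ^ n * (C1 * C1) ^ (2 * n) * (C1 * C1) ^ n *
    (C1 ^ ((M + 2) * n) * a ^ ((2 * M + 2) * n - c)) *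
    (C1 ^ ((M + 2) * n) * a ^ ((2 * M + 2) * n - c')), ?_, ?_⟩
  · have q1 : 1 ≤ b ^ n := one_le_pow₀ hb
    have q2 : 1 ≤ (C1 * C1) ^ (2 * n) := one_le_pow₀ (by nlinarith)
    have q3 : 1 ≤ (C1 * C1) ^ n := one_le_pow₀ (by nlinarith)
    have q4 : 1 ≤ C1 ^ ((M + 2) * n) * a ^ ((2 * M + 2) * n - c) :=
      one_le_mul_of_one_le_of_one_le (one_le_pow₀ hC1) (one_le_pow₀ ha)
    have q5 : 1 ≤ C1 ^ ((M + 2) * n) * a ^ ((2 * M + 2) * n - c') :=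
      one_le_mul_of_one_le_of_one_le (one_le_pow₀ hC1) (one_le_pow₀ ha)
    exact one_le_mul_of_one_le_of_one_le (one_le_mul_of_one_le_of_one_le
      (one_le_mul_of_one_le_of_one_le (one_le_mul_of_one_le_of_one_le q1 q2) q3) q4) q5
  · intro u v u' v' w x w' x' K δ δ' hK hA hB
    obtain ⟨-, k3, l3⟩ := Ha u v u' v' w x w' x' K δ δ' hK hA hB
    have j1 := Hb u v u' v' w x w' x' K δ δ' hK hA hB
    have hK0 : 0 ≤ K := by linarith
    have hδ := hA.δ0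
    have hδ' := hB.δ0
    have hF := hA.hF
    have hG := hB.hF
    have hw := hA.hw
    have hx := hB.hw
    have hu0 := hA.hu 0
    have hv0 := hB.hu 0
    set E := ‖A.F u‖ with hE
    set G := ‖B.F v‖ with hGd
    have hE0 : 0 ≤ E := norm_nonneg _
    have hG0 : 0 ≤ G := norm_nonneg _
    have j2 : ‖w * x‖ ≤ (C1 * C1) * K ^ 2 * (δ * δ') := by
      rw [norm_mul]
      calc ‖w‖ * ‖x‖ ≤ (C1 * K * δ) * (C1 * K * δ') :=
            mul_le_mul hw hx (norm_nonneg _) (by positivity)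
        _ = _ := by ring
    have j3 : ‖u 0 * v 0‖ ≤ C1 * C1 := by
      rw [norm_mul]
      exact mul_le_mul hu0 hv0 (norm_nonneg _) hC0
    have dd : ∀ (E δ : ℝ) (c : ℕ), 0 ≤ E → 0 ≤ δ → E ≤ a → δ ≤ C1 * E → c ≤ (2 * M + 2) * n →
        E ^ (M * n) * δ ^ ((M + 2) * n) ≤
          C1 ^ ((M + 2) * n) * a ^ ((2 * M + 2) * n - c) * E ^ c := by
      intro E δ c hE0 hδ hEa hδE hc
      calc E ^ (M * n) * δ ^ ((M + 2) * n) ≤ E ^ (M * n) * (C1 * E) ^ ((M + 2) * n) :=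
            mul_le_mul_of_nonneg_left (pow_le_pow_left₀ hδ hδE _) (by positivity)
        _ = C1 ^ ((M + 2) * n) * (E ^ ((2 * M + 2) * n - c) * E ^ c) := by
            rw [mul_pow, ← pow_add E ((2 * M + 2) * n - c) c, Nat.sub_add_cancel hc,
              show (2 * M + 2) * n = M * n + (M + 2) * n by ring, pow_add E]
            ring
        _ ≤ C1 ^ ((M + 2) * n) * (a ^ ((2 * M + 2) * n - c) * E ^ c) := by
            have := pow_le_pow_left₀ hE0 hEa ((2 * M + 2) * n - c)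
            gcongr
        _ = _ := by ring
    have d1 := dd E δ c hE0 hδ k3 hF hc
    have d2 := dd G δ' c' hG0 hδ' l3 hG hc'
    unfold Ax
    rw [norm_mul, norm_mul, norm_pow, norm_pow, norm_pow]
    calc ‖Ft A B C D M f u v u' v' w x w' x'‖ ^ n * ‖w * x‖ ^ (2 * n) * ‖u 0 * v 0‖ ^ n
        ≤ (b * K ^ (3 * M) * ((E * δ) * (G * δ')) ^ M) ^ n *
          ((C1 * C1) * K ^ 2 * (δ * δ')) ^ (2 * n) * (C1 * C1) ^ n := by
          refine mul_le_mul (mul_le_mul (pow_le_pow_left₀ (norm_nonneg _) j1 _)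
            (pow_le_pow_left₀ (norm_nonneg _) j2 _) (by positivity) (by positivity))
            (pow_le_pow_left₀ (norm_nonneg _) j3 _) (by positivity) (by positivity)
      _ = b ^ n * (C1 * C1) ^ (2 * n) * (C1 * C1) ^ n * K ^ ((3 * M + 4) * n) *
          ((E ^ (M * n) * δ ^ ((M + 2) * n)) * (G ^ (M * n) * δ' ^ ((M + 2) * n))) := by
          rw [show (3 * M + 4) * n = 3 * M * n + 2 * (2 * n) by ring,
            show (M + 2) * n = M * n + 2 * n by ring]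
          simp only [mul_pow, pow_add, pow_mul]
          ring
      _ ≤ b ^ n * (C1 * C1) ^ (2 * n) * (C1 * C1) ^ n * K ^ ((3 * M + 4) * n) *
          ((C1 ^ ((M + 2) * n) * a ^ ((2 * M + 2) * n - c) * E ^ c) *
            (C1 ^ ((M + 2) * n) * a ^ ((2 * M + 2) * n - c') * G ^ c')) := by
          refine mul_le_mul_of_nonneg_left (mul_le_mul d1 d2 (by positivity) (by positivity))
            (by positivity)
      _ = _ := by ring

/-- **The pointwise bound.** -/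
theorem Axf_bound {A B : Dat} (hA : A.P.natDegree = A.p + 1) (hB : B.P.natDegree = B.p + 1)
    (hAd : A.d = 0) (hBd : B.d = 0) {a : Fin (A.p + 1) → ℂ}
    (ha : Function.Injective a) (hPa : A.P = Polynomial.C A.P.leadingCoeff * ∏ i, (X - C (a i)))
    {b : Fin (B.p + 1) → ℂ} (hb : Function.Injective b)
    (hPb : B.P = Polynomial.C B.P.leadingCoeff * ∏ i, (X - C (b i))) {C D M n c c' κ κ' : ℕ}
    {f : ℕ × ℕ → MvPolynomial (Fin 2) ℂ} (hf : Fm C D M f)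
    (hc : c ≤ (2 * M + 2) * n) (hc' : c' ≤ (2 * M + 2) * n)
    (hκ : c * (A.p + 1) = n * (C + (A.p + 5) * M + 5) + κ)
    (hκ' : c' * (B.p + 1) = n * (D + (B.p + 5) * M + 5) + κ') :
    ∃ C0 : ℝ, 1 ≤ C0 ∧ ∀ (u v : ℂ → Fin 2 → ℂ) (z : ℂ) (ε K : ℝ), 0 < ε → ε ≤ 1 → 1 ≤ K →
      (∀ w ∈ closedBall z ε, ∀ j, AnalyticAt ℂ (fun w => u w j) w) →
      (∀ w ∈ closedBall z ε, ∀ j, AnalyticAt ℂ (fun w => v w j) w) →
      Calm (UU a u) z ε K → Calm (UU b v) z ε K →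
      ‖Axf A B C D M n f u v z‖ * sup (UU a u) z ^ κ * sup (UU b v) z ^ κ' ≤
        C0 * (K / ε) ^ ((3 * M + 4) * n) *
          ((∏ i, ‖UU a u i z‖ ^ SG.cw c i) * ∏ i, ‖UU b v i z‖ ^ SG.cw c' i) := by
  have hA0 : A.P ≠ 0 := by
    intro h0
    rw [h0] at hA
    simp at hA
  have hB0 : B.P ≠ 0 := by
    intro h0
    rw [h0] at hB
    simp at hB
  obtain ⟨C1, h1, H1⟩ := SG.block (Nat.succ_pos A.p) ha
  obtain ⟨C2, h2, H2⟩ := SG.block (Nat.succ_pos B.p) hb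
  have la := (prod_cw hPa hA hA0 1 0).2
  have lb := (prod_cw hPb hB hB0 1 0).2
  -- a common constant
  set C3 : ℝ := max C1 C2 + (C1 * ‖A.P.leadingCoeff‖⁻¹ + C2 * ‖B.P.leadingCoeff‖⁻¹) with hC3
  have q1 : 0 ≤ C1 * ‖A.P.leadingCoeff‖⁻¹ := by positivity
  have q2 : 0 ≤ C2 * ‖B.P.leadingCoeff‖⁻¹ := by positivity
  have q3 : C1 ≤ C3 := by linarith [le_max_left C1 C2]
  have q4 : C2 ≤ C3 := by linarith [le_max_right C1 C2]
  have q5 : C1 * ‖A.P.leadingCoeff‖⁻¹ ≤ C3 := by linarith [le_max_left C1 C2]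
  have q6 : C2 * ‖B.P.leadingCoeff‖⁻¹ ≤ C3 := by linarith [le_max_left C1 C2]
  have q7 : 1 ≤ C3 := h1.trans q3
  obtain ⟨C4, h4, H4⟩ := Ax_bound A B C D M n f hc hc' q7
  refine ⟨C4 * ((1 + ‖A.P.leadingCoeff‖) ^ c * (1 + ‖B.P.leadingCoeff‖) ^ c'), ?_, ?_⟩
  · exact one_le_mul_of_one_le_of_one_le h4 (one_le_mul_of_one_le_of_one_le
      (one_le_pow₀ (by linarith)) (one_le_pow₀ (by linarith)))
  intro u v z ε K hε hε1 hK hu hv hcu hcv
  obtain ⟨lam, δ, hn⟩ := H1 u z ε K hε hε1 hK hu hcu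
  obtain ⟨mu, δ', hn'⟩ := H2 v z ε K hε hε1 hK hv hcv
  have hKε : 1 ≤ K / ε := by rw [le_div_iff₀ hε]; linarith
  have hK0 : 0 ≤ K / ε := by linarith
  obtain ⟨s1, s2, s3, s4⟩ := scale_at hn.lam_an hn.lam_ne hn.ut_an
  obtain ⟨t1, t2, t3, t4⟩ := scale_at hn'.lam_an hn'.lam_ne hn'.ut_an
  have hδ : δ ≤ C3 * ‖A.F (ut u lam z)‖ := by
    have h5 : ‖A.F (ut u lam z)‖ = ‖A.P.leadingCoeff‖ *
        ‖∏ i : Fin (A.p + 1), ell a i.succ (ut u lam z)‖ := by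
      unfold Dat.F
      rw [hm_prod hPa hA, norm_mul, Algebra.algebraMap_self, RingHom.id_apply]
    calc δ ≤ C1 * ‖∏ i : Fin (A.p + 1), ell a i.succ (ut u lam z)‖ := hn.δ_le
      _ = C1 * ‖A.P.leadingCoeff‖⁻¹ * ‖A.F (ut u lam z)‖ := by
        rw [h5]
        field_simp
      _ ≤ _ := mul_le_mul_of_nonneg_right q5 (norm_nonneg _)
  have hδ' : δ' ≤ C3 * ‖B.F (ut v mu z)‖ := by
    have h5 : ‖B.F (ut v mu z)‖ = ‖B.P.leadingCoeff‖ *
        ‖∏ i : Fin (B.p + 1), ell b i.succ (ut v mu z)‖ := by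
      unfold Dat.F
      rw [hm_prod hPb hB, norm_mul, Algebra.algebraMap_self, RingHom.id_apply]
    calc δ' ≤ C2 * ‖∏ i : Fin (B.p + 1), ell b i.succ (ut v mu z)‖ := hn'.δ_le
      _ = C2 * ‖B.P.leadingCoeff‖⁻¹ * ‖B.F (ut v mu z)‖ := by
        rw [h5]
        field_simp
      _ ≤ _ := mul_le_mul_of_nonneg_right q6 (norm_nonneg _)
  have nA : Nb A C3 (K / ε) (ut u lam z) (deriv (fun w => ut u lam w 0) z) (wr (ut u lam) z)
      (deriv (wr (ut u lam)) z) δ :=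
    ⟨hn.δ0, fun j => (hn.ut_le j).trans q3,
      hn.ut_der.trans (mul_le_mul_of_nonneg_right q3 hK0),
      hn.wr_le.trans (mul_le_mul_of_nonneg_right (mul_le_mul_of_nonneg_right q3 hK0) hn.δ0),
      hn.wr_der.trans (mul_le_mul_of_nonneg_right (mul_le_mul_of_nonneg_right q3 (by positivity))
        hn.δ0), hδ⟩
  have nB : Nb B C3 (K / ε) (ut v mu z) (deriv (fun w => ut v mu w 0) z) (wr (ut v mu) z)
      (deriv (wr (ut v mu)) z) δ' :=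
    ⟨hn'.δ0, fun j => (hn'.ut_le j).trans q4,
      hn'.ut_der.trans (mul_le_mul_of_nonneg_right q4 hK0),
      hn'.wr_le.trans (mul_le_mul_of_nonneg_right (mul_le_mul_of_nonneg_right q4 hK0) hn'.δ0),
      hn'.wr_der.trans (mul_le_mul_of_nonneg_right (mul_le_mul_of_nonneg_right q4 (by positivity))
        hn'.δ0), hδ'⟩
  have e2 := H4 (ut u lam z) (ut v mu z) (deriv (fun w => ut u lam w 0) z)
    (deriv (fun w => ut v mu w 0) z) (wr (ut u lam) z) (wr (ut v mu) z)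
    (deriv (wr (ut u lam)) z) (deriv (wr (ut v mu)) z) (K / ε) δ δ' hKε nA nB
  set N1 := n * (C + (A.p + 5) * M + 5) with hN1
  set N2 := n * (D + (B.p + 5) * M + 5) with hN2
  have e3 : Axf A B C D M n f u v z = lam z ^ N1 * mu z ^ N2 *
      Ax A B C D M n f (ut u lam z) (ut v mu z) (deriv (fun w => ut u lam w 0) z)
      (deriv (fun w => ut v mu w 0) z) (wr (ut u lam) z) (wr (ut v mu) z)
      (deriv (wr (ut u lam)) z) (deriv (wr (ut v mu)) z) :=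
    Ax_scale hAd hBd n hf s1 t1 s2 t2 s3 s4 t3 t4
  rw [e3, norm_mul, norm_mul, norm_pow, norm_pow, ← hn.lam_sup, ← hn'.lam_sup]
  have f1 : ‖A.F (u z)‖ ^ c = ‖lam z‖ ^ (c * (A.p + 1)) * ‖A.F (ut u lam z)‖ ^ c := by
    unfold Dat.F
    rw [hm_smul _ _ s1, norm_mul, mul_pow, norm_pow, ← pow_mul, mul_comm c]
  have f2 : ‖B.F (v z)‖ ^ c' = ‖mu z‖ ^ (c' * (B.p + 1)) * ‖B.F (ut v mu z)‖ ^ c' := by
    unfold Dat.F
    rw [hm_smul _ _ t1, norm_mul, mul_pow, norm_pow, ← pow_mul, mul_comm c']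
  have g1 : ‖A.F (u z)‖ ^ c ≤ (1 + ‖A.P.leadingCoeff‖) ^ c * ∏ i, ‖UU a u i z‖ ^ SG.cw c i := by
    have := (prod_cw hPa hA hA0 c (u z)).1
    unfold Dat.F
    rw [this]
    exact mul_le_mul_of_nonneg_right (pow_le_pow_left₀ (norm_nonneg _) (by linarith) _)
      (Finset.prod_nonneg fun i _ => by positivity)
  have g2 : ‖B.F (v z)‖ ^ c' ≤ (1 + ‖B.P.leadingCoeff‖) ^ c' * ∏ i, ‖UU b v i z‖ ^ SG.cw c' i := by
    have := (prod_cw hPb hB hB0 c' (v z)).1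
    unfold Dat.F
    rw [this]
    exact mul_le_mul_of_nonneg_right (pow_le_pow_left₀ (norm_nonneg _) (by linarith) _)
      (Finset.prod_nonneg fun i _ => by positivity)
  set T := ‖Ax A B C D M n f (ut u lam z) (ut v mu z) (deriv (fun w => ut u lam w 0) z)
      (deriv (fun w => ut v mu w 0) z) (wr (ut u lam) z) (wr (ut v mu) z)
      (deriv (wr (ut u lam)) z) (deriv (wr (ut v mu)) z)‖ with hT
  calc ‖lam z‖ ^ N1 * ‖mu z‖ ^ N2 * T * ‖lam z‖ ^ κ * ‖mu z‖ ^ κ'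
      = (‖lam z‖ ^ (c * (A.p + 1)) * ‖mu z‖ ^ (c' * (B.p + 1))) * T := by
        rw [hκ, hκ', pow_add, pow_add]
        ring
    _ ≤ (‖lam z‖ ^ (c * (A.p + 1)) * ‖mu z‖ ^ (c' * (B.p + 1))) *
        (C4 * (K / ε) ^ ((3 * M + 4) * n) * (‖A.F (ut u lam z)‖ ^ c * ‖B.F (ut v mu z)‖ ^ c')) :=
        mul_le_mul_of_nonneg_left e2 (by positivity)
    _ = C4 * (K / ε) ^ ((3 * M + 4) * n) * (‖A.F (u z)‖ ^ c * ‖B.F (v z)‖ ^ c') := by
        rw [f1, f2]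
        ring
    _ ≤ C4 * (K / ε) ^ ((3 * M + 4) * n) *
        (((1 + ‖A.P.leadingCoeff‖) ^ c * ∏ i, ‖UU a u i z‖ ^ SG.cw c i) *
        ((1 + ‖B.P.leadingCoeff‖) ^ c' * ∏ i, ‖UU b v i z‖ ^ SG.cw c' i)) :=
        mul_le_mul_of_nonneg_left (mul_le_mul g1 g2 (by positivity) (mul_nonneg (by positivity)
          (Finset.prod_nonneg fun i _ => by positivity))) (by positivity)
    _ = _ := by ring

end Pool.Agent.K9h12.GP
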