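import Pool.Agent.K9h12.GP.Loc
import Pool.Agent.K9h12.GP.Bd
import Pool.Agent.K9h12.SG.An

/-!
Meromorphic functions near infinity without simple contacts: the main case.
-/

set_option autoImplicit false

open FF Polynomial Filter Metric Set Topology

namespace Pool.Agent.K9h12.GP

open Pool.Agent.W603.LV Pool.Agent.W602.GT Pool.Agent.W603.BP Pool.Agent.W601.PH
  Pool.Agent.W602.NC Pool.Agent.TH152.HY Pool.Agent.Y190.AN Pool.Agent.K9h12.AX
  Pool.Agent.K9h12.SH Pool.Agent.K9h12.SG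

/-- **The main case.** -/
theorem an_main {p q : ℕ} {A B : ℂ[X]} {α : Fin p → ℂ} {β : Fin q → ℂ} (hAs : A.Separable)
    (hBs : B.Separable) (hA : Rts A α) (hB : Rts B β) (hp : 1 ≤ A.natDegree)
    (hq : 1 ≤ B.natDegree) {C E M : ℕ} {f : ℕ × ℕ → MvPolynomial (Fin 2) ℂ}
    (hf : FmL C E M α β (fv β) f) {n c c' κ κ' : ℕ} (hW : Wg (dat A) (dat B) C E M n c c' κ κ')
    {x y : MK (exD 1 one_pos)} (hx : MDer (exD 1 one_pos) x ≠ 0) (hy : MDer (exD 1 one_pos) y ≠ 0)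
    (hJ : Ft1 (dat A) (dat B) C E M f (MDer (exD 1 one_pos)) x y ≠ 0)
    (hst : ∀ (z : ℂ) (hz : z ∈ (exD 1 one_pos).U), Ge (PL hz) 0 x → Ge (PL hz) 0 y →
      (PL hz).ord (aeval x A) + (PL hz).ord (aeval y B) ≠ 1) :
    x ∈ Minf 1 one_pos ∧ y ∈ Minf 1 one_pos := by
  have hAd := dat_p hp
  have hBd := dat_p hq
  have hA0 : A ≠ 0 := by
    rintro rfl
    simp at hp
  have hB0 : B ≠ 0 := by
    rintro rfl
    simp at hq
  obtain ⟨a, ha, hPa⟩ : ∃ a : Fin ((dat A).p + 1) → ℂ, Function.Injective a ∧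
      (dat A).P = Polynomial.C (dat A).P.leadingCoeff * ∏ i, (X - Polynomial.C (a i)) := by
    rw [← hAd]; exact exists_roots hAs
  obtain ⟨b, hb, hPb⟩ : ∃ b : Fin ((dat B).p + 1) → ℂ, Function.Injective b ∧
      (dat B).P = Polynomial.C (dat B).P.leadingCoeff * ∏ i, (X - Polynomial.C (b i)) := by
    rw [← hBd]; exact exists_roots hBs
  obtain ⟨r1, hr1, u, hu, hu1, hu2, hu0, hux⟩ := prim_vec x
  obtain ⟨r2, hr2, v, hv, hv1, hv2, hv0, hvy⟩ := prim_vec y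
  set r : ℝ := max r1 r2 with hr
  have hr0 : 1 < r := lt_of_lt_of_le hr1 (le_max_left _ _)
  have hE1 : Ext r ⊆ Ext r1 := Ext_mono (le_max_left _ _)
  have hE2 : Ext r ⊆ Ext r2 := Ext_mono (le_max_right _ _)
  have hE0 : Ext r ⊆ (exD 1 one_pos).U := Ext_mono hr0.le
  have hloc : ∀ z (hz : z ∈ Ext r), ∃ e e' : ℤ, (dat A).F (clv hu) ≠ 0 ∧ (dat B).F (clv hv) ≠ 0 ∧
      (PL (hE0 hz)).ord ((dat A).F (clv hu)) = e ∧ (PL (hE0 hz)).ord ((dat B).F (clv hv)) = e' ∧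
      AxA (dat A) (dat B) C E M n f (MDer (exD 1 one_pos)) (clv hu) (clv hv) ≠ 0 ∧
      (n * M + c : ℕ) * e + (n * M + c' : ℕ) * e' ≤
        (PL (hE0 hz)).ord (AxA (dat A) (dat B) C E M n f (MDer (exD 1 one_pos)) (clv hu)
          (clv hv)) := by
    intro z hz
    have pu := prim_at (hu := hu) hr1 hu1 hu2 (hE1 hz) (hE0 hz)
    have pv := prim_at (hu := hv) hr2 hv1 hv2 (hE2 hz) (hE0 hz)
    obtain ⟨e, ρ, s, h1⟩ := GP.loc_coord (A := dat A) (nice_PL (hE0 hz)) hAs hAd hu0 hux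
      pu.1 pu.2.1 pu.2.2 hx
    obtain ⟨e', ρ', s', h2⟩ := GP.loc_coord (A := dat B) (nice_PL (hE0 hz)) hBs hBd hv0 hvy
      pv.1 pv.2.1 pv.2.2 hy
    have gu : ∀ j, Ge (PL (hE0 hz)) 0 (clv hu j) := fun j => by
      fin_cases j
      · exact pu.1
      · exact pu.2.1
    have gv : ∀ j, Ge (PL (hE0 hz)) 0 (clv hv j) := fun j => by
      fin_cases j
      · exact pv.1
      · exact pv.2.1
    obtain ⟨n1, -, n3⟩ := loc_ax (nice_PL (hE0 hz)) hA hB hp hq hf hu0 hv0 hux hvy hx hy gu gv hJ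
      h1 h2 hW.sum
    exact ⟨e, e', h1.Fne, h2.Fne, h1.oF, h2.oF, n1, n3 (hst z (hE0 hz))⟩
  obtain ⟨z1, hz1⟩ := Ext_nonempty r
  obtain ⟨-, -, hF0, hG0, -, -, hAux0, -⟩ := hloc z1 hz1
  have hcn : n * M + c ≤ (2 * M + 2) * n := by
    have := hW.sum
    nlinarith [Nat.zero_le (M * n)]
  have hcn' : n * M + c' ≤ (2 * M + 2) * n := by
    have := hW.sum
    nlinarith [Nat.zero_le (M * n)]
  obtain ⟨C0, hC1, hC⟩ := Axf_bound hAd hBd rfl rfl ha hPa hb hPb hf.fam hcn hcn' hW.hκ hW.hκ'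
  obtain ⟨hPm, hPc⟩ := Axf_cl (dat A) (dat B) C E M n f hu hv
  have hpos : 0 < r := by linarith
  have hUn : ∀ i, ell a i (clv hu) ≠ 0 := by
    intro i
    refine Fin.cases hu0 (fun k => ?_) i
    exact (SG.ord_cw (PL (hE0 hz1)) hPa hAd hA0 c hF0).1 k
  have hVn : ∀ i, ell b i (clv hv) ≠ 0 := by
    intro i
    refine Fin.cases hv0 (fun k => ?_) i
    exact (SG.ord_cw (PL (hE0 hz1)) hPb hBd hB0 c' hG0).1 k
  have hUc : ∀ i, cl _ (UU_mero hu a i) ≠ 0 := fun i => by rw [cl_UU hu]; exact hUn i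
  have hVc : ∀ i, cl _ (UU_mero hv b i) ≠ 0 := fun i => by rw [cl_UU hv]; exact hVn i
  have hsum : ∀ (M k : ℕ), ∑ i : Fin (M + 1 + 1), SG.cw k i = (M + 1) * k := by
    intro M k
    rw [Fin.sum_univ_succ, SG.cw_zero, zero_add]
    simp
  have hn0 := hW.n0
  have hc1 : 1 ≤ ∑ i : Fin ((dat A).p + 1 + 1), SG.cw (n * M + c) i := by
    rw [hsum, mul_comm, hW.hκ]
    have := hW.κ0
    omega
  have hc1' : 1 ≤ ∑ i : Fin ((dat B).p + 1 + 1), SG.cw (n * M + c') i := by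
    rw [hsum, mul_comm, hW.hκ']
    have := hW.κ0'
    omega
  have hmain := two_ext (r0 := r) hpos (SG.cw (n * M + c)) (SG.cw (n * M + c')) hc1 hc1'
    (κ := κ) (κ' := κ') (Nn := (3 * M + 4) * n) hW.κ0 hW.κ0' hC1
    (U := UU a u) (V := UU b v) (fun i z hz => UU_an (hu1 z (hE1 hz)) i)
    (fun i z hz => UU_an (hv1 z (hE2 hz)) i)
    (fun i => exists_ne (hUc i) (Ext_open r) hE0 ⟨z1, hz1⟩)
    (fun i => exists_ne (hVc i) (Ext_open r) hE0 ⟨z1, hz1⟩)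
    (P := Axf (dat A) (dat B) C E M n f u v)
    (fun z hz => Axf_an (dat A) (dat B) C E M n f (hu1 z (hE1 hz)) (hv1 z (hE2 hz)))
    (exists_ne (hf := hPm) (by rw [hPc]; exact hAux0) (Ext_open r) hE0 ⟨z1, hz1⟩) ?_ ?_
  · constructor
    · obtain ⟨R, hR, R0, hR0⟩ := hmain (0 : Fin ((dat A).p + 1)).succ 0
      exact minf_of_rel hu0 hux (a := a) 0 (UU_mero hv b 0) (hVc 0) hR hR0
    · obtain ⟨R, hR, R0, hR0⟩ := hmain 0 (0 : Fin ((dat B).p + 1)).succ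
      refine minf_of_rel hv0 hvy (a := b) 0 (UU_mero hu a 0) (hUc 0) hR
        (R0 := R0) fun z hz => ?_
      have := hR0 z hz
      linear_combination this
  · intro z hz m k hm1 hk
    obtain ⟨e, e', f1, f2, f3, f4, f5, f6⟩ := hloc z hz
    apply le_order (hf := hPm) (hE0 hz)
      (Axf_an (dat A) (dat B) C E M n f (hu1 z (hE1 hz)) (hv1 z (hE2 hz)))
    rw [hPc]
    refine le_trans (le_of_eq ?_) f6
    have e1 : ∀ i, (PL (hE0 hz)).ord (ell a i (clv hu)) = m i := fun i => by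
      rw [← cl_UU hu a i (UU_mero hu a i)]
      exact ord_cl (hE0 hz) (UU_an (hu1 z (hE1 hz)) i) (hm1 i)
    have e2 : ∀ i, (PL (hE0 hz)).ord (ell b i (clv hv)) = k i := fun i => by
      rw [← cl_UU hv b i (UU_mero hv b i)]
      exact ord_cl (hE0 hz) (UU_an (hv1 z (hE2 hz)) i) (hk i)
    have g1 := (SG.ord_cw (PL (hE0 hz)) hPa hAd hA0 (n * M + c) f1).2
    have g2 := (SG.ord_cw (PL (hE0 hz)) hPb hBd hB0 (n * M + c') f2).2
    have f3' : (PL (hE0 hz)).ord (hm ((dat A).p + 1) (dat A).P (clv hu)) = e := f3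
    have f4' : (PL (hE0 hz)).ord (hm ((dat B).p + 1) (dat B).P (clv hv)) = e' := f4
    rw [f3'] at g1
    rw [f4'] at g2
    simp only [e1] at g1
    simp only [e2] at g2
    rw [← g1, ← g2]
    push_cast
    rfl
  · intro z ε β' hε hε1 hβ hball hcu hcv
    exact hC u v z ε β' hε hε1 hβ (fun w hw => hu1 w (hE1 (hball hw)))
      (fun w hw => hv1 w (hE2 (hball hw))) hcu hcv

end Pool.Agent.K9h12.GP
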