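import Pool.Agent.K9h12.GP.Line

/-!
The spaces spanned by the families of forms vanishing on the grid stabilise.
-/

set_option autoImplicit false

open MvPolynomial

namespace Pool.Agent.K9h12.GP

variable {p q : ℕ}

/-- the monomials of bounded degree -/
def trn (M : ℕ) : Finset (ℕ × ℕ) :=
  (Finset.range (M + 1) ×ˢ Finset.range (M + 1)).filter fun k => k.1 + k.2 ≤ M

theorem mem_trn {M : ℕ} {k : ℕ × ℕ} : k ∈ trn M ↔ k.1 + k.2 ≤ M := by
  unfold trn
  rw [Finset.mem_filter, Finset.mem_product, Finset.mem_range, Finset.mem_range]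
  constructor
  · exact fun h => h.2
  · intro h
    exact ⟨⟨by omega, by omega⟩, h⟩

/-- families vanishing on the lines of the grid -/
structure FamL (C D M : ℕ) (β γ : Fin q → ℂ) (f : ℕ × ℕ → TT p) : Prop where
  fam : FamT C D M f
  line : ∀ i j, LineC M i (β j) (γ j) f

/-- the span of the families -/
noncomputable def EE (p : ℕ) (C D M : ℕ) (β γ : Fin q → ℂ) :
    Submodule (QQ p) (ℕ × ℕ → QQ p) :=
  Submodule.span (QQ p) {g | ∃ f : ℕ × ℕ → TT p, FamL C D M β γ f ∧ g = fun k => io (f k)}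

theorem FamL.mono {C C' D M : ℕ} {β γ : Fin q → ℂ} {f : ℕ × ℕ → TT p} (h : FamL C D M β γ f)
    (hC : C ≤ C') : FamL C' D M β γ f :=
  ⟨⟨fun k => (h.fam.dg k).mono hC le_rfl, h.fam.tri⟩, h.line⟩

theorem EE_mono {C C' D M : ℕ} (β γ : Fin q → ℂ) (hC : C ≤ C') :
    EE p C D M β γ ≤ EE p C' D M β γ := by
  refine Submodule.span_mono ?_
  rintro g ⟨f, hf, rfl⟩
  exact ⟨f, hf.mono hC, rfl⟩

theorem EE_tri {C D M : ℕ} {β γ : Fin q → ℂ} {g : ℕ × ℕ → QQ p} (hg : g ∈ EE p C D M β γ)
    (k : ℕ × ℕ) (hk : M < k.1 + k.2) : g k = 0 := by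
  unfold EE at hg
  induction hg using Submodule.span_induction with
  | mem g hg =>
    obtain ⟨f, hf, rfl⟩ := hg
    change io (f k) = 0
    rw [hf.fam.tri k hk, map_zero]
  | zero => rfl
  | add a b _ _ ha hb => rw [Pi.add_apply, ha, hb, add_zero]
  | smul c a _ ha => rw [Pi.smul_apply, ha, smul_zero]

theorem Op_fun_add (Θ : Polynomial (QQ p)) (g h : ℕ × ℕ → QQ p) :
    Op Θ (g + h) = Op Θ g + Op Θ h := by
  funext k
  simp only [Op, Pi.add_apply, map_add]
  ring

theorem Op_fun_smul (Θ : Polynomial (QQ p)) (c : QQ p) (g : ℕ × ℕ → QQ p) :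
    Op Θ (c • g) = c • Op Θ g + Dl Θ c • g := by
  funext k
  simp only [Op, Pi.add_apply, Pi.smul_apply, smul_eq_mul, Derivation.leibniz]
  ring

theorem Op_EE {C D M : ℕ} {β γ : Fin q → ℂ} {e : ℕ} (he : e ≤ 3) {g : ℕ × ℕ → QQ p}
    (hg : g ∈ EE p C D M β γ) : Op (cc (Polynomial.X ^ e)) g ∈ EE p (C + 2) D M β γ := by
  have hle : EE p C D M β γ ≤ EE p (C + 2) D M β γ := EE_mono β γ (by omega)
  have hg' := hg
  unfold EE at hg
  induction hg using Submodule.span_induction with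
  | mem g hg =>
    obtain ⟨f, hf, rfl⟩ := hg
    rw [← oo_io he f]
    exact Submodule.subset_span ⟨oo e f, ⟨hf.fam.oo he, fun i j => (hf.line i j).oo he hf.fam⟩, rfl⟩
  | zero =>
    have h1 : Op (cc (Polynomial.X ^ e)) (0 : ℕ × ℕ → QQ p) = 0 := by
      funext k
      simp [Op]
    rw [h1]
    exact Submodule.zero_mem _
  | add a b ha hb iha ihb =>
    rw [Op_fun_add]
    exact Submodule.add_mem _ (iha ha) (ihb hb)
  | smul c a ha iha =>
    rw [Op_fun_smul]
    exact Submodule.add_mem _ (Submodule.smul_mem _ _ (iha ha))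
      (Submodule.smul_mem _ _ (hle ha))

/-- the dimension -/
theorem fin_E {K : Type} [Field K] {M : ℕ} (E : Submodule K (ℕ × ℕ → K))
    (hE : ∀ g ∈ E, ∀ k : ℕ × ℕ, M < k.1 + k.2 → g k = 0) :
    Module.Finite K E ∧ Module.finrank K E ≤ (trn M).card := by
  let φ : E →ₗ[K] (↥(trn M) → K) :=
    { toFun := fun g k => (g : ℕ × ℕ → K) k
      map_add' := fun _ _ => rfl
      map_smul' := fun _ _ => rfl }
  have hφ : Function.Injective φ := by
    intro g h hgh
    ext k
    by_cases hk : M < k.1 + k.2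
    · rw [hE g g.2 k hk, hE h h.2 k hk]
    · exact congrFun hgh ⟨k, mem_trn.2 (by omega)⟩
  have hfin : Module.Finite K E := Module.Finite.of_injective φ hφ
  refine ⟨hfin, ?_⟩
  have h1 := LinearMap.finrank_le_finrank_of_injective hφ
  rwa [Module.finrank_fintype_fun_eq_card, Fintype.card_coe] at h1

theorem exists_stable {C D M : ℕ} {β γ : Fin q → ℂ} (h0 : EE p C D M β γ ≠ ⊥) :
    ∃ n < (trn M).card, EE p (C + 2 * n) D M β γ = EE p (C + 2 * (n + 1)) D M β γ := by
  by_contra hcon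
  push Not at hcon
  have hfin : ∀ n, Module.Finite (QQ p) (EE p (C + 2 * n) D M β γ) := fun n =>
    (fin_E _ fun g hg k hk => EE_tri hg k hk).1
  have hrk : ∀ n ≤ (trn M).card, n + 1 ≤ Module.finrank (QQ p) (EE p (C + 2 * n) D M β γ) := by
    intro n
    induction n with
    | zero =>
      intro _
      have := hfin 0
      rw [zero_add, Nat.one_le_iff_ne_zero]
      intro h1
      have h2 : Module.finrank (QQ p) (EE p (C + 2 * 0) D M β γ) = 0 := h1
      rw [Submodule.finrank_eq_zero] at h2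
      exact h0 h2
    | succ n ih =>
      intro hn
      have h1 := ih (by omega)
      have := hfin n
      have := hfin (n + 1)
      have hlt : EE p (C + 2 * n) D M β γ < EE p (C + 2 * (n + 1)) D M β γ :=
        lt_of_le_of_ne (EE_mono β γ (by omega)) (hcon n (by omega))
      have h2 := Submodule.finrank_lt_finrank_of_lt hlt
      omega
  have h1 := hrk _ le_rfl
  have h2 := (fin_E (EE p (C + 2 * (trn M).card) D M β γ) fun g hg k hk => EE_tri hg k hk).2
  omega

/-- **A monomial in the span.** -/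
theorem exists_mono_EE {C D M : ℕ} {β γ : Fin q → ℂ} (h0 : EE p C D M β γ ≠ ⊥) :
    ∃ a ≤ M, (Pi.single (a, 0) 1 : ℕ × ℕ → QQ p) ∈ EE p (C + 2 * (trn M).card) D M β γ := by
  obtain ⟨n, hn, hE⟩ := exists_stable h0
  have hst : ∀ e ≤ 3, Stab (EE p (C + 2 * n) D M β γ) (cc (Polynomial.X ^ e)) := by
    intro e he g hg
    have h1 := Op_EE he hg
    rw [hE]
    exact h1
  have hne : EE p (C + 2 * n) D M β γ ≠ ⊥ := fun h => h0 (by
    rw [eq_bot_iff, ← h]
    exact EE_mono β γ (by omega))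
  obtain ⟨a, ha, h2⟩ := exists_mono hst (fun g hg k hk => EE_tri hg k hk) hne
  exact ⟨a, ha, EE_mono β γ (by omega) h2⟩

/-- **A monomial as a combination with polynomial coefficients.** -/
theorem exists_comb {C D M : ℕ} {β γ : Fin q → ℂ} (h0 : EE p C D M β γ ≠ ⊥) :
    ∃ (a : ℕ) (n : ℕ) (F : Fin n → ℕ × ℕ → TT p) (φ : Fin n → TT p) (b : TT p), a ≤ M ∧ b ≠ 0 ∧
      (∀ s, FamL (C + 2 * (trn M).card) D M β γ (F s)) ∧
      ∀ k, ∑ s, φ s * F s k = if k = (a, 0) then b else 0 := by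
  classical
  obtain ⟨a, ha, h1⟩ := exists_mono_EE h0
  unfold EE at h1
  rw [Submodule.mem_span_set'] at h1
  obtain ⟨n, c, g, hcg⟩ := h1
  choose F hF hFg using fun s => (g s).2
  obtain ⟨b, hb⟩ := IsLocalization.exist_integer_multiples (nonZeroDivisors (TT p))
    (Finset.univ : Finset (Fin n)) c
  choose φ hφ using fun s => hb s (Finset.mem_univ s)
  refine ⟨a, n, F, φ, b, ha, nonZeroDivisors.ne_zero b.2, hF, fun k => ?_⟩
  apply io_inj
  have h2 := congrFun hcg k
  rw [Finset.sum_apply] at h2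
  rw [map_sum]
  have h3 : ∀ s, io (φ s * F s k) = io (b : TT p) * (c s • (g s : ℕ × ℕ → QQ p)) k := by
    intro s
    have h4 : io (φ s) = io (b : TT p) * c s := by
      have h5 := hφ s
      rw [Algebra.smul_def] at h5
      exact h5
    rw [map_mul, h4, Pi.smul_apply, hFg s, smul_eq_mul]
    ring
  rw [Finset.sum_congr rfl fun s _ => h3 s, ← Finset.mul_sum, h2]
  by_cases hk : k = (a, 0)
  · rw [hk, Pi.single_eq_same, if_pos rfl, mul_one]
  · rw [Pi.single_eq_of_ne hk, if_neg hk, mul_zero, map_zero]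

end Pool.Agent.K9h12.GP
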