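import Pool.Agent.K9h12.GP.Frm

/-!
Common simple zeros: the value of the form is divisible by the local parameter.
-/

set_option autoImplicit false

open FF Polynomial

namespace Pool.Agent.K9h12.GP

open Pool.Agent.W603.LV Pool.Agent.W602.GT Pool.Agent.K9h12.SH Pool.Agent.K9h12.SG

variable {L : Type} [Field L] [Algebra ℂ L] {P : Place ℂ L} {D : Derivation ℂ L L}

/-- congruence of regular functions at a place -/
structure Cg (P : Place ℂ L) (a b : L) : Prop where
  l : Ge P 0 a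
  r : Ge P 0 b
  s : Ge P 1 (a - b)

theorem Cg.refl {a : L} (h : Ge P 0 a) : Cg P a a := ⟨h, h, by rw [sub_self]; exact Ge.zero⟩

theorem Cg.const (c : ℂ) : Cg P (algebraMap ℂ L c) (algebraMap ℂ L c) := Cg.refl (Ge.const c)

theorem Cg.zero : Cg P (0 : L) 0 := Cg.refl Ge.zero

theorem Cg.add {a b a' b' : L} (h : Cg P a b) (h' : Cg P a' b') : Cg P (a + a') (b + b') :=
  ⟨h.l.add h'.l, h.r.add h'.r, by
    rw [show a + a' - (b + b') = (a - b) + (a' - b') by ring]
    exact h.s.add h'.s⟩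

theorem Cg.sub {a b a' b' : L} (h : Cg P a b) (h' : Cg P a' b') : Cg P (a - a') (b - b') :=
  ⟨h.l.sub h'.l, h.r.sub h'.r, by
    rw [show a - a' - (b - b') = (a - b) - (a' - b') by ring]
    exact h.s.sub h'.s⟩

theorem Cg.mul {a b a' b' : L} (h : Cg P a b) (h' : Cg P a' b') : Cg P (a * a') (b * b') :=
  ⟨by simpa using h.l.mul h'.l, by simpa using h.r.mul h'.r, by
    rw [show a * a' - b * b' = (a - b) * a' + b * (a' - b') by ring]
    exact ((h.s.mul h'.l).mono (by omega)).add ((h.r.mul h'.s).mono (by omega))⟩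

theorem Cg.pow {a b : L} (h : Cg P a b) (n : ℕ) : Cg P (a ^ n) (b ^ n) := by
  induction n with
  | zero => simpa using Cg.refl (Ge.one (P := P))
  | succ n ih => rw [pow_succ, pow_succ]; exact ih.mul h

theorem Cg.sum {ι : Type} (s : Finset ι) {F G : ι → L} (h : ∀ i ∈ s, Cg P (F i) (G i)) :
    Cg P (∑ i ∈ s, F i) (∑ i ∈ s, G i) := by
  classical
  induction s using Finset.induction_on with
  | empty => simpa using Cg.zero
  | insert a s ha ih =>
    rw [Finset.sum_insert ha, Finset.sum_insert ha]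
    exact (h a (Finset.mem_insert_self a s)).add (ih fun i hi => h i (Finset.mem_insert_of_mem hi))

theorem Cg.inv {a : L} {c : ℂ} (hc : c ≠ 0) (h : Cg P a (algebraMap ℂ L c)) :
    Cg P a⁻¹ (algebraMap ℂ L c)⁻¹ := by
  have hc' : algebraMap ℂ L c ≠ 0 := (_root_.map_ne_zero _).2 hc
  have hoc : P.ord (algebraMap ℂ L c) = 0 := P.ord_const hc
  have ha : a ≠ 0 ∧ P.ord a = 0 := by
    have h1 : a = algebraMap ℂ L c + (a - algebraMap ℂ L c) := by ring
    rcases h.s with h2 | h2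
    · rw [sub_eq_zero.1 h2]
      exact ⟨hc', hoc⟩
    · by_cases h3 : a - algebraMap ℂ L c = 0
      · rw [sub_eq_zero.1 h3]
        exact ⟨hc', hoc⟩
      · have h4 := P.ord_add_eq hc' h3 (by rw [hoc]; omega)
        rw [← h1, hoc] at h4
        exact h4
  refine ⟨Or.inr (by rw [P.ord_inv, ha.2, neg_zero]), Or.inr (by rw [P.ord_inv, hoc, neg_zero]), ?_⟩
  have h1 : a⁻¹ - (algebraMap ℂ L c)⁻¹ = -((a - algebraMap ℂ L c) / (a * algebraMap ℂ L c)) := by
    have := ha.1
    field_simp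
    ring
  rw [h1]
  have h2 := ge_div (P := P) (mul_ne_zero ha.1 hc') h.s
  rw [P.ord_mul ha.1 hc', ha.2, hoc] at h2
  exact (h2.mono (by omega)).neg

theorem Cg.aeval2 {x y a b : L} (hx : Cg P x a) (hy : Cg P y b) (G : MvPolynomial (Fin 2) ℂ) :
    Cg P (MvPolynomial.aeval ![x, y] G) (MvPolynomial.aeval ![a, b] G) := by
  induction G using MvPolynomial.induction_on with
  | C c => rw [MvPolynomial.aeval_C, MvPolynomial.aeval_C]; exact Cg.const c
  | add p q hp hq => rw [map_add, map_add]; exact hp.add hq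
  | mul_X p i hp =>
    rw [map_mul, map_mul, MvPolynomial.aeval_X, MvPolynomial.aeval_X]
    refine hp.mul ?_
    fin_cases i
    · exact hx
    · exact hy

theorem Cg.Ev {x y ζ b a c ζ' b' : L} (hx : Cg P x a) (hy : Cg P y c) (hζ : Cg P ζ ζ')
    (hb : Cg P b b') (M : ℕ) (f : ℕ × ℕ → MvPolynomial (Fin 2) ℂ) :
    Cg P (Ev M f x y ζ b) (Ev M f a c ζ' b') := by
  unfold GP.Ev
  exact Cg.sum _ fun k _ => Cg.sum _ fun l _ => (hx.aeval2 hy _).mul ((hζ.pow k).mul (hb.pow l))

/-- the polynomial with given roots -/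
def Rts {p : ℕ} (A : ℂ[X]) (α : Fin p → ℂ) : Prop :=
  Function.Injective α ∧ ∃ c : ℂ, c ≠ 0 ∧ A = C c * ∏ i, (X - C (α i))

theorem Rts.val {p : ℕ} {A : ℂ[X]} {α : Fin p → ℂ} (h : Rts A α) : ∃ c : ℂ, c ≠ 0 ∧ ∀ x : L,
    aeval x A = algebraMap ℂ L c * ∏ i, (x - algebraMap ℂ L (α i)) ∧
    aeval x (derivative A) = algebraMap ℂ L c * ∑ i, ∏ l ∈ Finset.univ.erase i,
      (x - algebraMap ℂ L (α l)) := by
  classical
  obtain ⟨-, c, hc, hA⟩ := h
  refine ⟨c, hc, fun x => ⟨?_, ?_⟩⟩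
  · rw [hA]
    simp only [map_mul, map_prod, map_sub, aeval_X, aeval_C]
  · rw [hA, derivative_C_mul, derivative_prod_finset]
    simp only [map_mul, map_sum, map_prod, map_sub, aeval_X, aeval_C, derivative_sub,
      derivative_X, derivative_C, sub_zero, mul_one, map_one]

/-- the logarithmic derivative -/
theorem Rts.log {p : ℕ} {A : ℂ[X]} {α : Fin p → ℂ} (h : Rts A α) {x : L}
    (hx : aeval x A ≠ 0) : aeval x (derivative A) / aeval x A =
      ∑ i, 1 / (x - algebraMap ℂ L (α i)) := by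
  classical
  obtain ⟨c, hc, hv⟩ := h.val (L := L)
  obtain ⟨h1, h2⟩ := hv x
  rw [h1] at hx
  have hc' : algebraMap ℂ L c ≠ 0 := (_root_.map_ne_zero _).2 hc
  have hp := right_ne_zero_of_mul hx
  rw [h1, h2, mul_div_mul_left _ _ hc', Finset.sum_div]
  refine Finset.sum_congr rfl fun i _ => ?_
  rw [← Finset.mul_prod_erase _ _ (Finset.mem_univ i)] at hp ⊢
  have := left_ne_zero_of_mul hp
  have := right_ne_zero_of_mul hp
  field_simp

/-- a simple zero -/
theorem Rts.simple {p : ℕ} {A : ℂ[X]} {α : Fin p → ℂ} (h : Rts A α) {x : L} (hx : Ge P 0 x)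
    (h0 : aeval x A ≠ 0) (h1 : P.ord (aeval x A) = 1) :
    ∃ i, x - algebraMap ℂ L (α i) ≠ 0 ∧ P.ord (x - algebraMap ℂ L (α i)) = 1 := by
  classical
  obtain ⟨c, hc, hv⟩ := h.val (L := L)
  obtain ⟨e1, -⟩ := hv x
  rw [e1] at h0 h1
  have hc' : algebraMap ℂ L c ≠ 0 := (_root_.map_ne_zero _).2 hc
  have hp := right_ne_zero_of_mul h0
  have hne : ∀ i, x - algebraMap ℂ L (α i) ≠ 0 := fun i => Finset.prod_ne_zero_iff.1 hp i
    (Finset.mem_univ i)
  have hord : ∀ s : Finset (Fin p), P.ord (∏ i ∈ s, (x - algebraMap ℂ L (α i))) =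
      ∑ i ∈ s, P.ord (x - algebraMap ℂ L (α i)) := by
    intro s
    induction s using Finset.induction_on with
    | empty => simp [P.ord_one]
    | insert a s ha ih =>
      rw [Finset.prod_insert ha, Finset.sum_insert ha, P.ord_mul (hne a)
        (Finset.prod_ne_zero_iff.2 fun i _ => hne i), ih]
  rw [P.ord_mul hc' hp, P.ord_const hc, zero_add, hord] at h1
  have hnn : ∀ i, 0 ≤ P.ord (x - algebraMap ℂ L (α i)) := fun i =>
    (hx.sub (Ge.const _)).resolve_left (hne i)
  obtain ⟨i, -, hi⟩ : ∃ i ∈ Finset.univ, P.ord (x - algebraMap ℂ L (α i)) ≠ 0 := by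
    by_contra hcon
    push Not at hcon
    rw [Finset.sum_eq_zero hcon] at h1
    exact zero_ne_one h1
  have h2 : P.ord (x - algebraMap ℂ L (α i)) ≤ 1 := by
    rw [← h1]
    exact Finset.single_le_sum (fun i _ => hnn i) (Finset.mem_univ i)
  have h3 := hnn i
  exact ⟨i, hne i, by omega⟩

/-- the regular part of the logarithmic derivative -/
theorem Rts.reg {p : ℕ} {A : ℂ[X]} {α : Fin p → ℂ} (h : Rts A α) {x : L} {i : Fin p}
    (hx : Cg P x (algebraMap ℂ L (α i))) :
    Cg P (∑ l ∈ Finset.univ.erase i, 2 / (x - algebraMap ℂ L (α l)))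
      (algebraMap ℂ L (fv α i)) := by
  have h1 : algebraMap ℂ L (fv α i) = ∑ l ∈ Finset.univ.erase i,
      2 / (algebraMap ℂ L (α i) - algebraMap ℂ L (α l)) := by
    rw [← fv_map]
    rfl
  rw [h1]
  refine Cg.sum _ fun l hl => ?_
  have h2 : α i - α l ≠ 0 := sub_ne_zero.2 fun h3 =>
    (Finset.ne_of_mem_erase hl) (h.1 h3).symm
  have h3 : Cg P (x - algebraMap ℂ L (α l)) (algebraMap ℂ L (α i - α l)) := by
    rw [map_sub]
    exact hx.sub (Cg.const _)
  have h4 := (Cg.const (P := P) (2 : ℂ)).mul (h3.inv h2)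
  rw [map_ofNat, map_sub] at h4
  simpa only [div_eq_mul_inv] using h4

/-- the difference of the second order parts -/
theorem two_one (h : Nice P D) {a c : L} (ha : a ≠ 0) (hc : c ≠ 0) (h1 : P.ord a = 1)
    (h2 : P.ord c = 1) : D a ≠ 0 ∧ D c ≠ 0 ∧ P.ord (D a) = 0 ∧ P.ord (D c) = 0 ∧
      Ge P 1 (D (D a) / D a - 2 * D a / a - (D (D c) / D c - 2 * D c / c)) := by
  have hX := h.ord_der ha (by omega)
  have hY := h.ord_der hc (by omega)
  rw [h1] at hX
  rw [h2] at hY
  refine ⟨hX.1, hY.1, by omega, by omega, ?_⟩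
  have hW := h.W_one (inv_ne_zero ha) (by rw [P.ord_inv, h1]) (g := c⁻¹)
    (Or.inr (by rw [P.ord_inv, h2]))
  have hV := Va_W D ha hc
  unfold Va at hV
  have hX1 := hX.1
  have hY1 := hY.1
  have e1 : D (D a) / D a - 2 * D a / a - (D (D c) / D c - 2 * D c / c) =
      -((a * c) ^ 2 * W D a⁻¹ c⁻¹ / (D a * D c)) := by
    have hac : a * c * (D a * D c) ≠ 0 := mul_ne_zero (mul_ne_zero ha hc) (mul_ne_zero hX1 hY1)
    apply mul_left_cancel₀ hac
    have e2 : a * c * (D a * D c) * -((a * c) ^ 2 * W D a⁻¹ c⁻¹ / (D a * D c)) =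
        -((a * c) ^ 3 * W D a⁻¹ c⁻¹) := by
      field_simp
    rw [e2, ← hV]
    field_simp
    ring
  rw [e1]
  have h3 : Ge P 1 a := Or.inr h1.ge
  have h4 : Ge P 1 c := Or.inr h2.ge
  have h5 := ge_div (P := P) (mul_ne_zero hX1 hY1) (((h3.mul h4).pow 2).mul hW)
  rw [P.ord_mul hX1 hY1] at h5
  exact (h5.mono (by push_cast; omega)).neg

/-- the second order part -/
noncomputable def B0 (A B : ℂ[X]) (D : Derivation ℂ L L) (x y : L) : L :=
  D (D x) / D x - 2 * (aeval x (derivative A) * D x) / aeval x A -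
    (D (D y) / D y - 2 * (aeval y (derivative B) * D y) / aeval y B)

/-- **The form at a common simple zero.** -/
theorem ev_one (h : Nice P D) {p q : ℕ} {A B : ℂ[X]} {α : Fin p → ℂ} {β : Fin q → ℂ}
    (hA : Rts A α) (hB : Rts B β) {C E M : ℕ} {f : ℕ × ℕ → MvPolynomial (Fin 2) ℂ}
    (hf : FmL C E M α β (fv β) f) {x y : L} (hx : Ge P 0 x) (hy : Ge P 0 y)
    (hx0 : aeval x A ≠ 0) (hy0 : aeval y B ≠ 0)
    (h1 : P.ord (aeval x A) = 1) (h2 : P.ord (aeval y B) = 1) :
    Ge P 1 (Ev M f x y (D y / D x) (B0 A B D x y / D x)) := by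
  classical
  obtain ⟨i, hi0, hi⟩ := hA.simple hx hx0 h1
  obtain ⟨j, hj0, hj⟩ := hB.simple hy hy0 h2
  have t1 := two_one h hi0 hj0 hi hj
  have dx : D (x - algebraMap ℂ L (α i)) = D x := by rw [map_sub, D.map_algebraMap, sub_zero]
  have dy : D (y - algebraMap ℂ L (β j)) = D y := by rw [map_sub, D.map_algebraMap, sub_zero]
  rw [dx, dy] at t1
  obtain ⟨X0, Y0, oX, oY, hW⟩ := t1
  have cx : Cg P x (algebraMap ℂ L (α i)) := ⟨hx, Ge.const _, Or.inr hi.ge⟩
  have cy : Cg P y (algebraMap ℂ L (β j)) := ⟨hy, Ge.const _, Or.inr hj.ge⟩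
  have rX := hA.reg cx
  have rY := hB.reg cy
  -- the second order part
  have hsum : ∀ {n : ℕ} {F : ℂ[X]} {γ : Fin n → ℂ} (_ : Rts F γ) (k : Fin n) {t : L},
      aeval t F ≠ 0 → 2 * (aeval t (derivative F) * D t) / aeval t F =
        2 * D t / (t - algebraMap ℂ L (γ k)) +
          (∑ l ∈ Finset.univ.erase k, 2 / (t - algebraMap ℂ L (γ l))) * D t := by
    intro n F γ hF k t ht
    have e1 : 2 * (aeval t (derivative F) * D t) / aeval t F =
        2 * D t * (aeval t (derivative F) / aeval t F) := by ring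
    rw [e1, hF.log ht, ← Finset.add_sum_erase _ _ (Finset.mem_univ k), mul_add, Finset.mul_sum,
      Finset.sum_mul]
    congr 1
    · ring
    · refine Finset.sum_congr rfl fun l _ => ?_
      ring
  have hb : Cg P (B0 A B D x y / D x) (algebraMap ℂ L (fv β j) * (D y / D x) -
      algebraMap ℂ L (fv α i)) := by
    have gX : Ge P 0 (D x) := h.reg x hx
    have gY : Ge P 0 (D y) := h.reg y hy
    have gζ : Ge P 0 (D y / D x) := by
      have := ge_div (P := P) X0 gY
      rw [oX] at this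
      simpa using this
    have hdiff : Ge P 1 (B0 A B D x y / D x - (algebraMap ℂ L (fv β j) * (D y / D x) -
        algebraMap ℂ L (fv α i))) := by
      have e1 : B0 A B D x y / D x - (algebraMap ℂ L (fv β j) * (D y / D x) -
          algebraMap ℂ L (fv α i)) = (D (D x) / D x - 2 * D x / (x - algebraMap ℂ L (α i)) -
          (D (D y) / D y - 2 * D y / (y - algebraMap ℂ L (β j)))) / D x +
          (∑ l ∈ Finset.univ.erase j, 2 / (y - algebraMap ℂ L (β l)) -
            algebraMap ℂ L (fv β j)) * (D y / D x) -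
          (∑ l ∈ Finset.univ.erase i, 2 / (x - algebraMap ℂ L (α l)) -
            algebraMap ℂ L (fv α i)) := by
        unfold B0
        rw [hsum hA i hx0, hsum hB j hy0]
        field_simp
        ring
      rw [e1]
      have g1 := ge_div (P := P) X0 hW
      rw [oX] at g1
      exact ((g1.mono (by omega)).add ((rY.s.mul gζ).mono (by omega))).sub rX.s
    have hr : Ge P 0 (algebraMap ℂ L (fv β j) * (D y / D x) - algebraMap ℂ L (fv α i)) :=
      (((Ge.const _).mul gζ).mono (by omega)).sub (Ge.const _)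
    refine ⟨?_, hr, hdiff⟩
    have := (hdiff.mono (by omega : (0 : ℤ) ≤ 1)).add hr
    rwa [sub_add_cancel] at this
  have gζ : Ge P 0 (D y / D x) := by
    have := ge_div (P := P) X0 (h.reg y hy)
    rw [oX] at this
    simpa using this
  have h3 := (Cg.Ev cx cy (Cg.refl gζ) hb M f).s
  rwa [hf.line i j, sub_zero] at h3

end Pool.Agent.K9h12.GP
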