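import Pool.Agent.K9h12.GP.Stab

/-!
Degrees of the coefficients and the vector fields on polynomials.
-/

set_option autoImplicit false

open MvPolynomial

namespace Pool.Agent.K9h12.GP

variable {p : ℕ}

/-- the degrees in the two coordinates -/
def DegLe (C D : ℕ) (f : TT p) : Prop := ∀ m ∈ f.support, m (Sum.inr 0) ≤ C ∧ m (Sum.inr 1) ≤ D

theorem DegLe.zero (C D : ℕ) : DegLe C D (0 : TT p) := fun m hm => by simp at hm

theorem DegLe.mono {C D C' D' : ℕ} {f : TT p} (h : DegLe C D f) (h1 : C ≤ C') (h2 : D ≤ D') :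
    DegLe C' D' f := fun m hm => ⟨(h m hm).1.trans h1, (h m hm).2.trans h2⟩

theorem DegLe.add {C D : ℕ} {f g : TT p} (hf : DegLe C D f) (hg : DegLe C D g) :
    DegLe C D (f + g) := fun m hm => by
  classical
  rcases Finset.mem_union.1 (MvPolynomial.support_add hm) with h | h
  · exact hf m h
  · exact hg m h

theorem DegLe.neg {C D : ℕ} {f : TT p} (hf : DegLe C D f) : DegLe C D (-f) := fun m hm => by
  rw [MvPolynomial.support_neg] at hm
  exact hf m hm

theorem DegLe.sub {C D : ℕ} {f g : TT p} (hf : DegLe C D f) (hg : DegLe C D g) :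
    DegLe C D (f - g) := by
  rw [sub_eq_add_neg]
  exact hf.add hg.neg

theorem DegLe.sum {ι : Type} {C D : ℕ} (s : Finset ι) {f : ι → TT p}
    (hf : ∀ i ∈ s, DegLe C D (f i)) : DegLe C D (∑ i ∈ s, f i) := by
  classical
  induction s using Finset.induction_on with
  | empty => simpa using DegLe.zero C D
  | insert a s ha ih =>
    rw [Finset.sum_insert ha]
    exact (hf a (Finset.mem_insert_self a s)).add
      (ih fun i hi => hf i (Finset.mem_insert_of_mem hi))

theorem DegLe.mul {C D C' D' : ℕ} {f g : TT p} (hf : DegLe C D f) (hg : DegLe C' D' g) :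
    DegLe (C + C') (D + D') (f * g) := fun m hm => by
  classical
  obtain ⟨a, ha, b, hb, rfl⟩ := Finset.mem_add.1 (MvPolynomial.support_mul f g hm)
  have h1 := hf a ha
  have h2 := hg b hb
  simp only [Finsupp.add_apply]
  omega

theorem DegLe.monomial {C D : ℕ} {m : VV p →₀ ℕ} (r : ℂ) (h1 : m (Sum.inr 0) ≤ C)
    (h2 : m (Sum.inr 1) ≤ D) : DegLe C D (monomial m r) := fun m' hm' => by
  classical
  have h3 := MvPolynomial.support_monomial_subset hm'
  rw [Finset.mem_singleton] at h3
  rw [h3]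
  exact ⟨h1, h2⟩

theorem DegLe.const (r : ℂ) : DegLe 0 0 (MvPolynomial.C r : TT p) :=
  DegLe.monomial r (by simp) (by simp)

theorem DegLe.natCast (n : ℕ) : DegLe 0 0 ((n : TT p)) := by
  have := DegLe.const (p := p) (n : ℂ)
  rwa [map_natCast] at this

theorem DegLe.t (i : Fin p) : DegLe 0 0 (X (Sum.inl i) : TT p) :=
  DegLe.monomial 1 (by simp) (by simp)

theorem DegLe.x : DegLe 1 0 (X (Sum.inr 0) : TT p) :=
  DegLe.monomial 1 (by simp) (by simp)

theorem DegLe.pow {C D : ℕ} {f : TT p} (hf : DegLe C D f) (n : ℕ) :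
    DegLe (n * C) (n * D) (f ^ n) := by
  induction n with
  | zero =>
    have := DegLe.const (p := p) 1
    simpa using this
  | succ n ih =>
    rw [pow_succ]
    exact (ih.mul hf).mono (by ring_nf; rfl) (by ring_nf; rfl)

/-- the vector field on polynomials -/
noncomputable def dd (e : ℕ) : Derivation ℂ (TT p) (TT p) :=
  mkDerivation ℂ (Sum.elim (fun i => X (Sum.inl i) ^ e)
    fun j => if j = 0 then X (Sum.inr 0) ^ e else 0)

theorem dd_t (e : ℕ) (i : Fin p) : dd e (X (Sum.inl i) : TT p) = X (Sum.inl i) ^ e := by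
  unfold dd
  rw [mkDerivation_X]
  rfl

theorem dd_x (e : ℕ) : dd e (X (Sum.inr 0) : TT p) = X (Sum.inr 0) ^ e := by
  unfold dd
  rw [mkDerivation_X]
  rfl

theorem dd_y (e : ℕ) : dd e (X (Sum.inr 1) : TT p) = 0 := by
  unfold dd
  rw [mkDerivation_X]
  rfl

theorem DegLe.dd {C D e : ℕ} (he : e ≤ 3) {f : TT p} (hf : DegLe C D f) :
    DegLe (C + 2) D (dd e f) := by
  classical
  rw [f.as_sum, map_sum]
  refine DegLe.sum _ fun m hm => ?_
  obtain ⟨h1, h2⟩ := hf m hm
  unfold GP.dd
  rw [mkDerivation_monomial, MvPolynomial.smul_eq_C_mul]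
  refine ((DegLe.const _).mul (?_ : DegLe (C + 2) D _)).mono (by omega) (by omega)
  rw [Finsupp.sum]
  refine DegLe.sum _ fun v hv => ?_
  rw [Finsupp.mem_support_iff] at hv
  rw [smul_eq_mul]
  rcases v with i | j
  · refine ((DegLe.monomial (C := C) (D := D) _ ?_ ?_).mul ((DegLe.t i).pow e)).mono
      (by omega) (by omega)
    · rw [Finsupp.tsub_apply, Finsupp.single_eq_of_ne (by simp)]
      omega
    · rw [Finsupp.tsub_apply, Finsupp.single_eq_of_ne (by simp)]
      omega
  · fin_cases j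
    · change DegLe (C + 2) D (_ * X (Sum.inr 0) ^ e)
      change m (Sum.inr 0) ≠ 0 at hv
      refine ((DegLe.monomial (C := C - 1) (D := D) _ ?_ ?_).mul (DegLe.x.pow e)).mono
        (by omega) (by omega)
      · change (m - Finsupp.single (Sum.inr 0) 1 : VV p →₀ ℕ) (Sum.inr 0) ≤ C - 1
        rw [Finsupp.tsub_apply, Finsupp.single_eq_same]
        omega
      · change (m - Finsupp.single (Sum.inr 0) 1 : VV p →₀ ℕ) (Sum.inr 1) ≤ D
        rw [Finsupp.tsub_apply]
        omega
    · change DegLe (C + 2) D (_ * (0 : TT p))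
      rw [mul_zero]
      exact DegLe.zero _ _

/-- two derivations along a homomorphism -/
theorem der_hom {V : Type} {K : Type} [Field K] [Algebra ℂ K] (σ : MvPolynomial V ℂ →ₐ[ℂ] K)
    (D : Derivation ℂ (MvPolynomial V ℂ) (MvPolynomial V ℂ)) (δ : Derivation ℂ K K)
    (h : ∀ v, σ (D (X v)) = δ (σ (X v))) (f : MvPolynomial V ℂ) : σ (D f) = δ (σ f) := by
  induction f using MvPolynomial.induction_on with
  | C a =>
    have h1 : D (MvPolynomial.C a) = 0 := D.map_algebraMap a
    have h2 : σ (MvPolynomial.C a) = algebraMap ℂ K a := σ.commutes a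
    rw [h1, h2, map_zero, δ.map_algebraMap]
  | add p q hp hq => rw [map_add, map_add, map_add, map_add, hp, hq]
  | mul_X p v hp =>
    rw [D.leibniz, map_mul, δ.leibniz, ← hp, ← h v, map_add, smul_eq_mul, smul_eq_mul, smul_eq_mul,
      smul_eq_mul, map_mul, map_mul]

/-- the inclusion of the polynomials -/
noncomputable abbrev io : TT p →ₐ[ℂ] QQ p := Algebra.algHom ℂ (TT p) (QQ p)

theorem io_inj : Function.Injective (io : TT p →ₐ[ℂ] QQ p) := kk_inj

theorem dd_io (e : ℕ) (f : TT p) : io (dd e f) = Dl (cc (Polynomial.X ^ e)) (io f) := by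
  refine der_hom io (dd e) _ (fun v => ?_) f
  rcases v with i | j
  · rw [dd_t, map_pow]
    have h := Dl_t (cc (Polynomial.X ^ e)) i
    rw [ev_cc, map_pow, Polynomial.aeval_X] at h
    exact h.symm
  · fin_cases j
    · change io (dd e (X (Sum.inr 0))) = Dl (cc (Polynomial.X ^ e)) (io (X (Sum.inr 0)))
      rw [dd_x, map_pow]
      have h := Dl_x (p := p) (cc (Polynomial.X ^ e))
      rw [ev_cc, map_pow, Polynomial.aeval_X] at h
      exact h.symm
    · change io (dd e (X (Sum.inr 1))) = Dl (cc (Polynomial.X ^ e)) (io (X (Sum.inr 1)))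
      rw [dd_y, map_zero]
      exact (Dl_y (p := p) (cc (Polynomial.X ^ e))).symm

end Pool.Agent.K9h12.GP
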