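import Pool.Agent.K9h12.GP.Spec

/-!
Existence of forms vanishing on the lines of the grid.
-/

set_option autoImplicit false

open MvPolynomial

namespace Pool.Agent.K9h12.GP

variable {p q : ℕ}

/-- the unknown coefficients -/
abbrev Ix (C D M : ℕ) : Type := (Fin (C + 1) × Fin (D + 1)) × ↥(trn M)

/-- the inclusion of the polynomials in the roots -/
noncomputable def ren : MvPolynomial (Fin p) ℂ →ₐ[ℂ] TT p := rename Sum.inl

theorem ren_X (i : Fin p) : ren (X i) = X (Sum.inl i) := by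
  unfold ren
  rw [rename_X]

/-- the denominator of the slope, as a polynomial in the roots -/
noncomputable def dn (i : Fin p) : MvPolynomial (Fin p) ℂ :=
  ∏ l ∈ Finset.univ.erase i, (X i - X l)

/-- the numerator of the slope, as a polynomial in the roots -/
noncomputable def nn (i : Fin p) : MvPolynomial (Fin p) ℂ :=
  ∑ l ∈ Finset.univ.erase i, 2 * ∏ m ∈ (Finset.univ.erase i).erase l, (X i - X m)

theorem ren_dn (i : Fin p) : ren (dn i) = Dn i := by
  unfold dn Dn
  rw [map_prod]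
  simp only [map_sub, ren_X]

theorem ren_nn (i : Fin p) : ren (nn i) = Nn i := by
  unfold nn Nn
  rw [map_sum]
  simp only [map_mul, map_ofNat, map_prod, map_sub, ren_X]

/-- the polynomial attached to a monomial on a line -/
noncomputable def Wp (M : ℕ) (i : Fin p) (g : ℂ) (k : ℕ × ℕ) :
    Polynomial (MvPolynomial (Fin p) ℂ) :=
  Polynomial.X ^ k.1 * ((Polynomial.C (C g * dn i) * Polynomial.X - Polynomial.C (nn i)) ^ k.2 *
    Polynomial.C (dn i ^ (M - k.2)))

theorem Wp_deg (M : ℕ) (i : Fin p) (g : ℂ) {k : ℕ × ℕ} (hk : k.1 + k.2 ≤ M) :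
    (Wp M i g k).natDegree ≤ M := by
  unfold Wp
  refine Polynomial.natDegree_mul_le.trans ?_
  have h1 : (Polynomial.X ^ k.1 : Polynomial (MvPolynomial (Fin p) ℂ)).natDegree ≤ k.1 :=
    Polynomial.natDegree_X_pow_le _
  have h2 : ((Polynomial.C (C g * dn i) * Polynomial.X - Polynomial.C (nn i)) ^ k.2 *
    Polynomial.C (dn i ^ (M - k.2))).natDegree ≤ k.2 := by
    refine (Polynomial.natDegree_mul_C_le _ _).trans ?_
    refine Polynomial.natDegree_pow_le.trans ?_
    have h3 : (Polynomial.C (C g * dn i) * Polynomial.X - Polynomial.C (nn i)).natDegree ≤ 1 := by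
      refine (Polynomial.natDegree_sub_le _ _).trans (max_le ?_ ?_)
      · refine (Polynomial.natDegree_C_mul_le _ _).trans ?_
        exact Polynomial.natDegree_X_le
      · rw [Polynomial.natDegree_C]
        omega
    calc k.2 * _ ≤ k.2 * 1 := Nat.mul_le_mul_left _ h3
      _ = k.2 := mul_one _
  omega

/-- the polynomial attached to a system of coefficients on a line -/
noncomputable def Gp (C D M : ℕ) (i : Fin p) (b g : ℂ) :
    (Ix C D M → MvPolynomial (Fin p) ℂ) →ₗ[MvPolynomial (Fin p) ℂ]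
      Polynomial (MvPolynomial (Fin p) ℂ) where
  toFun c := ∑ k : Ix C D M, (c k * (X i ^ (k.1.1 : ℕ) * MvPolynomial.C b ^ (k.1.2 : ℕ))) •
    Wp M i g k.2
  map_add' c c' := by
    simp only [Pi.add_apply, add_mul, add_smul, Finset.sum_add_distrib]
  map_smul' r c := by
    simp only [Pi.smul_apply, smul_eq_mul, mul_assoc, mul_smul, Finset.smul_sum, RingHom.id_apply]

theorem Gp_deg (C D M : ℕ) (i : Fin p) (b g : ℂ) (c : Ix C D M → MvPolynomial (Fin p) ℂ) :
    (Gp C D M i b g c).natDegree ≤ M := by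
  refine Polynomial.natDegree_sum_le_of_forall_le _ _ fun k _ => ?_
  exact (Polynomial.natDegree_smul_le _ _).trans (Wp_deg M i g (mem_trn.1 k.2.2))

/-- the linear system -/
noncomputable def Sys (C D M : ℕ) (β γ : Fin q → ℂ) :
    (Ix C D M → MvPolynomial (Fin p) ℂ) →ₗ[MvPolynomial (Fin p) ℂ]
      ((Fin p × Fin q) × Fin (M + 1) → MvPolynomial (Fin p) ℂ) :=
  LinearMap.pi fun r => (Polynomial.lcoeff _ (r.2 : ℕ)).comp
    (Gp C D M r.1.1 (β r.1.2) (γ r.1.2))

theorem exists_sol {C D M : ℕ} (β γ : Fin q → ℂ)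
    (h : p * q * (M + 1) < (C + 1) * (D + 1) * (trn M).card) :
    ∃ c : Ix C D M → MvPolynomial (Fin p) ℂ, c ≠ 0 ∧ ∀ i j, Gp C D M i (β j) (γ j) c = 0 := by
  have h1 : ¬ Function.Injective (Sys (p := p) C D M β γ) := by
    intro hinj
    have h2 := card_le_of_injective _ (Sys (p := p) C D M β γ) hinj
    simp only [Fintype.card_prod, Fintype.card_fin, Fintype.card_coe] at h2
    omega
  rw [← LinearMap.ker_eq_bot, Submodule.eq_bot_iff] at h1
  push Not at h1
  obtain ⟨c, hc, hc0⟩ := h1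
  refine ⟨c, hc0, fun i j => ?_⟩
  ext1 r
  rw [Polynomial.coeff_zero]
  by_cases hr : r ≤ M
  · exact congrFun (LinearMap.mem_ker.1 hc) ((i, j), ⟨r, by omega⟩)
  · exact Polynomial.coeff_eq_zero_of_natDegree_lt (lt_of_le_of_lt (Gp_deg _ _ _ _ _ _ _) (by omega))

/-- the family of a system of coefficients -/
noncomputable def fc {C D M : ℕ} (c : Ix C D M → MvPolynomial (Fin p) ℂ) (k : ℕ × ℕ) : TT p :=
  if h : k ∈ trn M then ∑ m : Fin (C + 1) × Fin (D + 1), ren (c (m, ⟨k, h⟩)) *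
    (X (Sum.inr 0) ^ (m.1 : ℕ) * X (Sum.inr 1) ^ (m.2 : ℕ)) else 0

theorem DegLe.ren (C D : ℕ) (c : MvPolynomial (Fin p) ℂ) : DegLe C D (ren c) := by
  classical
  intro m hm
  unfold GP.ren at hm
  have h1 := MvPolynomial.support_rename_of_injective (p := c)
    (Sum.inl_injective (α := Fin p) (β := Fin 2))
  rw [h1] at hm
  obtain ⟨w, -, rfl⟩ := Finset.mem_image.1 hm
  constructor
  · rw [Finsupp.mapDomain_of_notMem_range _ _ (by simp)]
    exact Nat.zero_le _
  · rw [Finsupp.mapDomain_of_notMem_range _ _ (by simp)]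
    exact Nat.zero_le _

theorem DegLe.y : DegLe 0 1 (X (Sum.inr 1) : TT p) :=
  DegLe.monomial 1 (by simp) (by simp)

theorem fc_fam {C D M : ℕ} (c : Ix C D M → MvPolynomial (Fin p) ℂ) : FamT C D M (fc c) := by
  refine ⟨fun k => ?_, fun k hk => ?_⟩
  · unfold fc
    split_ifs with h
    · refine DegLe.sum _ fun m _ => ?_
      have h1 := m.1.2
      have h2 := m.2.2
      exact ((DegLe.ren 0 0 _).mul ((DegLe.x.pow _).mul (DegLe.y.pow _))).mono
        (by omega) (by omega)
    · exact DegLe.zero _ _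
  · unfold fc
    rw [dif_neg]
    rw [mem_trn]
    omega

theorem fc_line {C D M : ℕ} {c : Ix C D M → MvPolynomial (Fin p) ℂ} {i : Fin p} {b g : ℂ}
    (h : Gp C D M i b g c = 0) : LineC M i b g (fc c) := by
  classical
  rw [Gt_zero]
  let ev : Polynomial (MvPolynomial (Fin p) ℂ) →+* TT p :=
    Polynomial.eval₂RingHom (ren : MvPolynomial (Fin p) ℂ →ₐ[ℂ] TT p).toRingHom (X (Sum.inr 0))
  have evC : ∀ a, ev (Polynomial.C a) = ren a := fun a => by simp [ev]
  have evX : ev Polynomial.X = X (Sum.inr 0) := by simp [ev]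
  have evW : ∀ k : ℕ × ℕ, ev (Wp M i g k) = X (Sum.inr 0) ^ k.1 *
      ((algebraMap ℂ (TT p) g * X (Sum.inr 0) * Dn i - Nn i) ^ k.2 * Dn i ^ (M - k.2)) := by
    intro k
    unfold Wp
    simp only [map_mul, map_pow, map_sub, evC, evX, ren_dn, ren_nn]
    have h1 : ren (MvPolynomial.C g : MvPolynomial (Fin p) ℂ) = algebraMap ℂ (TT p) g :=
      (ren : MvPolynomial (Fin p) ℂ →ₐ[ℂ] TT p).commutes g
    rw [h1]
    ring
  have h1 := congrArg ev h
  rw [map_zero] at h1
  rw [← h1]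
  unfold Gp
  simp only [LinearMap.coe_mk, AddHom.coe_mk, map_sum]
  rw [Fintype.sum_prod_type_right]
  have h2 : Gt M i b g (fc c) = ∑ k ∈ trn M, sp' i b (fc c k) * (X (Sum.inr 0) ^ k.1 *
      ((algebraMap ℂ (TT p) g * X (Sum.inr 0) * Dn i - Nn i) ^ k.2 * Dn i ^ (M - k.2))) := by
    unfold Gt
    rw [← Finset.sum_product', trn, Finset.sum_filter]
    refine Finset.sum_congr rfl fun k _ => ?_
    split_ifs with hk
    · rfl
    · rw [(fc_fam c).tri k (by omega), map_zero, zero_mul]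
  rw [h2, ← Finset.sum_coe_sort]
  refine Finset.sum_congr rfl fun k _ => ?_
  have h3 : fc c (k : ℕ × ℕ) = ∑ m : Fin (C + 1) × Fin (D + 1), ren (c (m, k)) *
    (X (Sum.inr 0) ^ (m.1 : ℕ) * X (Sum.inr 1) ^ (m.2 : ℕ)) := by
    unfold fc
    rw [dif_pos k.2]
  rw [h3, map_sum, Finset.sum_mul]
  refine Finset.sum_congr rfl fun m _ => ?_
  have h4 : sp' i b (ren (c (m, k))) = ren (c (m, k)) := by
    unfold sp' ren
    rw [← AlgHom.comp_apply]
    congr 1
    ext l
    simp
  have h5 : sp' i b (X (Sum.inr 0)) = X (Sum.inl i) := by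
    unfold sp'
    rw [aeval_X]
    rfl
  have h6 : sp' i b (X (Sum.inr 1)) = algebraMap ℂ (TT p) b := by
    unfold sp'
    rw [aeval_X]
    rfl
  rw [map_mul, map_mul, map_pow, map_pow, h4, h5, h6, Polynomial.smul_eq_C_mul, map_mul, evC, evW,
    map_mul, map_mul, map_pow, map_pow, ren_X]
  have h7 : ren (MvPolynomial.C b : MvPolynomial (Fin p) ℂ) = algebraMap ℂ (TT p) b :=
    (ren : MvPolynomial (Fin p) ℂ →ₐ[ℂ] TT p).commutes b
  rw [h7]

theorem fc_ne {C D M : ℕ} {c : Ix C D M → MvPolynomial (Fin p) ℂ} (hc : c ≠ 0) :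
    ∃ k, fc c k ≠ 0 := by
  classical
  obtain ⟨⟨m0, k0⟩, h0⟩ := Function.ne_iff.1 hc
  rw [Pi.zero_apply] at h0
  refine ⟨k0, fun h => h0 ?_⟩
  refine MvPolynomial.funext fun τ => ?_
  let σ : TT p →ₐ[ℂ] Polynomial (Polynomial ℂ) :=
    aeval (Sum.elim (fun l => Polynomial.C (Polynomial.C (τ l)))
      fun j => if j = 0 then Polynomial.C Polynomial.X else Polynomial.X)
  have h1 := congrArg σ h
  unfold fc at h1
  rw [dif_pos k0.2, map_zero, map_sum] at h1
  have hσ : ∀ a : MvPolynomial (Fin p) ℂ, σ (ren a) =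
      Polynomial.C (Polynomial.C (MvPolynomial.eval τ a)) := by
    intro a
    have h2 : (σ.comp ren : MvPolynomial (Fin p) ℂ →ₐ[ℂ] Polynomial (Polynomial ℂ)) =
        (Algebra.algHom ℂ ℂ (Polynomial (Polynomial ℂ))).comp (aeval τ) := by
      ext l : 1
      simp only [AlgHom.comp_apply, ren_X, aeval_X, σ]
      rfl
    have h3 := congrArg (fun f : MvPolynomial (Fin p) ℂ →ₐ[ℂ] Polynomial (Polynomial ℂ) => f a) h2
    simp only [AlgHom.comp_apply] at h3
    rw [h3, MvPolynomial.aeval_eq_eval]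
    rfl
  have hx : σ (X (Sum.inr 0)) = Polynomial.C Polynomial.X := by
    simp [σ]
  have hy : σ (X (Sum.inr 1)) = Polynomial.X := by
    simp [σ]
  simp only [map_mul, map_pow, hσ, hx, hy] at h1
  have h2 := congrArg (fun P : Polynomial (Polynomial ℂ) => (P.coeff (m0.2 : ℕ)).coeff (m0.1 : ℕ)) h1
  simp only [Polynomial.finsetSum_coeff, Polynomial.coeff_zero] at h2
  rw [map_zero, ← h2, Finset.sum_eq_single m0]
  · rw [← Polynomial.C_pow, ← mul_assoc, ← Polynomial.C_mul, Polynomial.coeff_C_mul_X_pow,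
      if_pos rfl, Polynomial.coeff_C_mul_X_pow, if_pos rfl]
  · intro m _ hm
    rw [← Polynomial.C_pow, ← mul_assoc, ← Polynomial.C_mul, Polynomial.coeff_C_mul_X_pow]
    split_ifs with h3
    · rw [Polynomial.coeff_C_mul_X_pow, if_neg]
      intro h4
      exact hm (Prod.ext (Fin.ext h4.symm) (Fin.ext h3.symm))
    · rw [Polynomial.coeff_zero]
  · intro h3
    exact absurd (Finset.mem_univ m0) h3

/-- **The space of forms is not zero.** -/
theorem EE_ne {C D M : ℕ} (β γ : Fin q → ℂ)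
    (h : p * q * (M + 1) < (C + 1) * (D + 1) * (trn M).card) : EE p C D M β γ ≠ ⊥ := by
  obtain ⟨c, hc, hG⟩ := exists_sol β γ h
  obtain ⟨k, hk⟩ := fc_ne hc
  rw [Submodule.ne_bot_iff]
  refine ⟨fun k => io (fc c k), Submodule.subset_span ⟨fc c, ⟨fc_fam c,
    fun i j => fc_line (hG i j)⟩, rfl⟩, fun h0 => hk ?_⟩
  apply io_inj
  rw [map_zero]
  exact congrFun h0 k

end Pool.Agent.K9h12.GP
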