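import Pool.Agent.K9h12.GP.An
import Pool.Agent.K9h12.GP.Sieg
import Pool.Agent.K9h12.SG.Fin
import Pool.Agent.K9h12.NV.High

/-!
Good pairs: a general polynomial and an arbitrary polynomial of large degree.
-/

set_option autoImplicit false

open FF Polynomial

namespace Pool.Agent.K9h12.GP

open Pool.Agent.W603.LV Pool.Agent.W602.GT Pool.Agent.K9h12.SH Pool.Agent.K9h12.SG
  Pool.Agent.W603.BP Pool.Agent.W601.PH Pool.Agent.Y190.AN Pool.Agent.K9h12.NV

variable {L : Type} [Field L] [Algebra ℂ L]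

theorem Jet_smul (A B : Dat) (x y X Y X' Y' c c' : L) :
    Jet A B ![1, x] ![1, y] 0 0 (c * X) (c * Y) (c * (c * X' + X * c')) (c * (c * Y' + Y * c')) =
      c ^ 3 * Jet A B ![1, x] ![1, y] 0 0 X Y X' Y' := by
  unfold Jet Dat.chi Dat.phi Chi Phi
  ring

theorem Ft1_smul (A B : Dat) (C E M : ℕ) (f : ℕ × ℕ → MvPolynomial (Fin 2) ℂ) (c : L)
    (D : Derivation ℂ L L) (x y : L) :
    Ft1 A B C E M f (c • D) x y = c ^ (3 * M) * Ft1 A B C E M f D x y := by
  have hd : ∀ z : L, (c • D) ((c • D) z) = c * (c * D (D z) + D z * D c) := by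
    intro z
    simp only [Derivation.smul_apply, smul_eq_mul, D.leibniz]
  unfold Ft1 Ft
  rw [hd, hd, Finset.mul_sum]
  refine Finset.sum_congr rfl fun k hk => ?_
  simp only [Derivation.smul_apply, smul_eq_mul]
  rw [Jet_smul]
  obtain ⟨j, hj⟩ : ∃ j, M = k.1 + k.2 + j := ⟨M - (k.1 + k.2), by have := mem_trn.1 hk; omega⟩
  rw [show M - k.1 - k.2 = j by omega, show M - k.2 = k.1 + j by omega,
    show 3 * M = j + k.1 + 3 * k.2 + 2 * (k.1 + j) by omega]
  simp only [mul_pow, pow_add, pow_mul c]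
  ring

/-- the order of the forms on curves -/
theorem ord_form {P : Place ℂ L} {D : Derivation ℂ L L} (h : Nice P D) {p q : ℕ} {A B : ℂ[X]}
    {α : Fin p → ℂ} {β : Fin q → ℂ} (hAs : A.Separable) (hBs : B.Separable) (hA : Rts A α)
    (hB : Rts B β) (hp : 1 ≤ A.natDegree) (hq : 1 ≤ B.natDegree) {C E M : ℕ}
    {f : ℕ × ℕ → MvPolynomial (Fin 2) ℂ} (hf : FmL C E M α β (fv β) f) {n c c' κ κ' : ℕ}
    (hW : Wg (dat A) (dat B) C E M n c c' κ κ') {x y : L} (hD : D x ≠ 0)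
    (hD' : D y ≠ 0) (hJ : Ft1 (dat A) (dat B) C E M f D x y ≠ 0) {j : ℕ} (hj : j ≤ 1) :
    Ge P (-(n * (M + 1))) (Ft1 (dat A) (dat B) C E M f D x y ^ n * (D x * D y) ^ (2 * n) /
      (aeval x A ^ (n * M + c) * aeval y B ^ (n * M + c')) * x ^ j) ∧
    ((Ge P 0 x → Ge P 0 y → P.ord (aeval x A) + P.ord (aeval y B) ≠ 1) →
      Ge P 0 (Ft1 (dat A) (dat B) C E M f D x y ^ n * (D x * D y) ^ (2 * n) /
      (aeval x A ^ (n * M + c) * aeval y B ^ (n * M + c')) * x ^ j)) := by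
  have hAd := dat_p hp
  have hBd := dat_p hq
  have hA0 : A ≠ 0 := by
    rintro rfl
    simp at hp
  have hB0 : B ≠ 0 := by
    rintro rfl
    simp at hq
  have hcx := const_of_eq hD
  have hcy := const_of_eq hD'
  have hx0 : x ≠ 0 := fun h0 => hcx 0 (by rw [h0, map_zero])
  have hy0 : y ≠ 0 := fun h0 => hcy 0 (by rw [h0, map_zero])
  have hPx := (ord_poly P hcx hA0).1
  have hQy := (ord_poly P hcy hB0).1
  obtain ⟨u, hu0, hux, hu1, hu2, hu3⟩ := exists_prim P hx0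
  obtain ⟨v, hv0, hvy, hv1, hv2, hv3⟩ := exists_prim P hy0
  have gu : ∀ j, Ge P 0 (u j) := fun j => by
    fin_cases j
    · exact hu1
    · exact hu2
  have gv : ∀ j, Ge P 0 (v j) := fun j => by
    fin_cases j
    · exact hv1
    · exact hv2
  obtain ⟨e, ρ, s, h1⟩ := GP.loc_coord (A := dat A) h hAs hAd hu0 hux hu1 hu2 hu3 hD
  obtain ⟨e', ρ', s', h2⟩ := GP.loc_coord (A := dat B) h hBs hBd hv0 hvy hv1 hv2 hv3 hD'
  obtain ⟨n1, n2, n3⟩ := loc_ax h hA hB hp hq hf hu0 hv0 hux hvy hD hD' gu gv hJ h1 h2 hW.sum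
  set T := Ft1 (dat A) (dat B) C E M f D x y with hT
  set N1 := n * (C + ((dat A).p + 5) * M + 5) with hN1
  set N2 := n * (E + ((dat B).p + 5) * M + 5) with hN2
  set w := n * M + c with hw
  set w' := n * M + c' with hw'
  have a1 : T ^ n ≠ 0 := pow_ne_zero _ hJ
  have a2 : (D x * D y) ^ (2 * n) ≠ 0 := pow_ne_zero _ (mul_ne_zero hD hD')
  have a3 : aeval x A ^ w * aeval y B ^ w' ≠ 0 :=
    mul_ne_zero (pow_ne_zero _ hPx) (pow_ne_zero _ hQy)
  have a4 : u 0 ^ N1 ≠ 0 := pow_ne_zero _ hu0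
  have a5 : v 0 ^ N2 ≠ 0 := pow_ne_zero _ hv0
  have o1 : P.ord (AxA (dat A) (dat B) C E M n f D u v) = (N1 : ℤ) * s +
      (N2 : ℤ) * s' + P.ord (T ^ n * (D x * D y) ^ (2 * n)) := by
    rw [AxA_eq rfl rfl n hf.fam D hux hvy, P.ord_mul (mul_ne_zero a4 a5) (mul_ne_zero a1 a2),
      P.ord_mul a4 a5, P.ord_pow, P.ord_pow, h1.os, h2.os]
  have o2 : e = ((dat A).p + 1 : ℕ) * s + P.ord (aeval x A) := by
    have h3 := h1.oF
    have h4 : (dat A).F u = u 0 ^ ((dat A).p + 1) * aeval x A := hm_eq hAd.le hux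
    rw [h4, P.ord_mul (pow_ne_zero _ hu0) hPx, P.ord_pow, h1.os] at h3
    exact h3.symm
  have o3 : e' = ((dat B).p + 1 : ℕ) * s' + P.ord (aeval y B) := by
    have h3 := h2.oF
    have h4 : (dat B).F v = v 0 ^ ((dat B).p + 1) * aeval y B := hm_eq hBd.le hvy
    rw [h4, P.ord_mul (pow_ne_zero _ hv0) hQy, P.ord_pow, h2.os] at h3
    exact h3.symm
  have hx1 : -s ≤ P.ord x := by
    have h3 : P.ord (u 1) = P.ord (u 0) + P.ord x := by rw [hux, P.ord_mul hu0 hx0]
    have h4 := hu2.resolve_left (by rw [hux]; exact mul_ne_zero hu0 hx0)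
    rw [h1.os] at h3
    omega
  have o4 : P.ord (T ^ n * (D x * D y) ^ (2 * n) / (aeval x A ^ w * aeval y B ^ w') * x ^ j) =
      P.ord (T ^ n * (D x * D y) ^ (2 * n)) - w * P.ord (aeval x A) -
        w' * P.ord (aeval y B) + j * P.ord x := by
    rw [P.ord_mul (div_ne_zero (mul_ne_zero a1 a2) a3) (pow_ne_zero _ hx0),
      P.ord_div (mul_ne_zero a1 a2) a3, P.ord_mul (pow_ne_zero _ hPx) (pow_ne_zero _ hQy),
      P.ord_pow, P.ord_pow, P.ord_pow]
    ring
  have k1 : (w : ℤ) * (((dat A).p + 1 : ℕ) : ℤ) = N1 + κ := by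
    exact_mod_cast hW.hκ
  have k2 : (w' : ℤ) * (((dat B).p + 1 : ℕ) : ℤ) = N2 + κ' := by
    exact_mod_cast hW.hκ'
  have o5 : P.ord (T ^ n * (D x * D y) ^ (2 * n) / (aeval x A ^ w * aeval y B ^ w') * x ^ j) =
      (P.ord (AxA (dat A) (dat B) C E M n f D u v) - (w * e + w' * e')) +
        (κ * s + κ' * s' + j * P.ord x) := by
    rw [o4, o1]
    have q1 : (w : ℤ) * e = ((N1 : ℤ) + κ) * s + w * P.ord (aeval x A) := by
      rw [← k1, o2]; ring
    have q2 : (w' : ℤ) * e' = ((N2 : ℤ) + κ') * s' + w' * P.ord (aeval y B) := by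
      rw [← k2, o3]; ring
    rw [q1, q2]
    ring
  have hs := h1.s0
  have hs' := h2.s0
  have hpos : 0 ≤ κ * s + κ' * s' + j * P.ord x := by
    have r1 : 0 ≤ (κ' : ℤ) * s' := mul_nonneg (Int.natCast_nonneg _) hs'
    have r2 : (j : ℤ) ≤ κ := by
      have := hW.κ0
      exact_mod_cast (by omega : j ≤ κ)
    have r3 : 0 ≤ ((κ : ℤ) - j) * s := mul_nonneg (by linarith) hs
    have r4 : 0 ≤ (j : ℤ) * (P.ord x + s) := mul_nonneg (Int.natCast_nonneg _) (by linarith)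
    nlinarith
  refine ⟨Or.inr ?_, fun hst => Or.inr ?_⟩
  · rw [o5]
    linarith
  · rw [o5]
    have := n3 hst
    linarith

/-- curves, the main case -/
theorem cur_main [IsFF ℂ L] {p q : ℕ} {A B : ℂ[X]}
    {α : Fin p → ℂ} {β : Fin q → ℂ} (hAs : A.Separable) (hBs : B.Separable) (hA : Rts A α)
    (hB : Rts B β) (hp : 1 ≤ A.natDegree) (hq : 1 ≤ B.natDegree) {C E M : ℕ}
    {f : ℕ × ℕ → MvPolynomial (Fin 2) ℂ} (hf : FmL C E M α β (fv β) f) {n c c' κ κ' : ℕ}
    (hW : Wg (dat A) (dat B) C E M n c c' κ κ') {x y : L} {D0 : Derivation ℂ L L}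
    (hx : D0 x ≠ 0) (hy : D0 y ≠ 0) (hJ : Ft1 (dat A) (dat B) C E M f D0 x y ≠ 0)
    {Bd : Place ℂ L → Prop} (hst : ∀ P, ¬ Bd P → Shr A B P x y) : LogGeneralType ℂ L 1 Bd := by
  have tx := trans_of_der hx
  have ty := trans_of_der hy
  have hcx := const_of_eq hx
  have hA0 : A ≠ 0 := by
    rintro rfl
    simp at hp
  have hB0 : B ≠ 0 := by
    rintro rfl
    simp at hq
  have hx0 : x ≠ 0 := fun h0 => hcx 0 (by rw [h0, map_zero])
  have hPx : aeval x A ≠ 0 := fun h0 => tx ⟨_, hA0, h0⟩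
  have hQy : aeval y B ≠ 0 := fun h0 => ty ⟨_, hB0, h0⟩
  have hJne : ∀ {P : Place ℂ L} {D : Derivation ℂ L L}, Nice P D →
      Ft1 (dat A) (dat B) C E M f D x y ≠ 0 := by
    intro P D hD
    have hDne := hD.ne_zero
    -- derivations of a function field of one variable are proportional
    obtain ⟨g, hg⟩ : ∃ g : L, D0 = g • D := by
      refine ⟨D0 x / D x, ?_⟩
      have hDx : D x ≠ 0 := der_ne_zero hDne tx
      have h1 : D0 - (D0 x / D x) • D = 0 := by
        by_contra hne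
        refine der_ne_zero hne tx ?_
        simp only [Derivation.sub_apply, Derivation.smul_apply, smul_eq_mul]
        field_simp
        ring
      exact sub_eq_zero.1 h1
    intro h0
    apply hJ
    rw [hg, Ft1_smul, h0, mul_zero]
  have hn0 := hW.n0
  refine curve_lgt Bd (N := (3 * M + 4) * n) (Nat.mul_pos (by omega) hn0)
    (fun j D => Ft1 (dat A) (dat B) C E M f D x y ^ n * (D x * D y) ^ (2 * n) /
      (aeval x A ^ (n * M + c) * aeval y B ^ (n * M + c')) * x ^ (j : ℕ))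
      (fun j a D => ?_) D0 ?_ tx ?_ ?_ ?_
  · rw [Ft1_smul, Derivation.smul_apply, Derivation.smul_apply, smul_eq_mul, smul_eq_mul,
      show a * D x * (a * D y) = a ^ 2 * (D x * D y) by ring, mul_pow, mul_pow, ← pow_mul,
      ← pow_mul, show (3 * M + 4) * n = 3 * M * n + 2 * (2 * n) by ring, pow_add]
    ring
  · exact mul_ne_zero (div_ne_zero (mul_ne_zero (pow_ne_zero _ hJ)
      (pow_ne_zero _ (mul_ne_zero hx hy))) (mul_ne_zero (pow_ne_zero _ hPx)
      (pow_ne_zero _ hQy))) (pow_ne_zero _ hx0)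
  · have h1 : Ft1 (dat A) (dat B) C E M f D0 x y ^ n * (D0 x * D0 y) ^ (2 * n) /
      (aeval x A ^ (n * M + c) * aeval y B ^ (n * M + c')) ≠ 0 :=
      div_ne_zero (mul_ne_zero (pow_ne_zero _ hJ)
      (pow_ne_zero _ (mul_ne_zero hx hy))) (mul_ne_zero (pow_ne_zero _ hPx) (pow_ne_zero _ hQy))
    rw [show ((1 : Fin 2) : ℕ) = 1 from rfl, show ((0 : Fin 2) : ℕ) = 0 from rfl, pow_one,
      pow_zero, mul_one, mul_div_cancel_left₀ _ h1]
  · intro P D hD j
    refine (ord_form hD hAs hBs hA hB hp hq hf hW (der_ne_zero hD.ne_zero tx)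
      (der_ne_zero hD.ne_zero ty) (hJne hD) (j := j) (by have := j.2; omega)).1.mono ?_
    push_cast
    have : (0 : ℤ) ≤ n * (2 * M + 3) := by positivity
    linarith
  · intro P hP D hD j
    exact (ord_form hD hAs hBs hA hB hp hq hf hW (der_ne_zero hD.ne_zero tx)
      (der_ne_zero hD.ne_zero ty) (hJne hD) (j := j) (by have := j.2; omega)).2
      fun h1 h2 => hst P hP h1 h2 hPx hQy

/-- the data of a good pair -/
structure Pk {p q : ℕ} (A B : ℂ[X]) (α : Fin p → ℂ) (β : Fin q → ℂ) (C E M : ℕ)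
    (H : MvPolynomial (Fin 2) ℂ) (N : ℕ) (F : Fin N → ℕ × ℕ → MvPolynomial (Fin 2) ℂ) :
    Prop where
  As : A.Separable
  Bs : B.Separable
  rA : Rts A α
  rB : Rts B β
  p6 : 6 ≤ A.natDegree
  q6 : 6 ≤ B.natDegree
  fam : ∀ s, FmL C E M α β (fv β) (F s)
  wg : ∃ n c c' κ κ' : ℕ, Wg (dat A) (dat B) C E M n c c' κ κ'
  elim : ∀ (K : Type) [Field K] [Algebra ℂ K] (x y ζ b : K), MvPolynomial.aeval ![x, y] H ≠ 0 →
    ζ ≠ 0 → ∃ s, Ev M (F s) x y ζ b ≠ 0

theorem Pk.jet {p q : ℕ} {A B : ℂ[X]} {α : Fin p → ℂ} {β : Fin q → ℂ} {C E M : ℕ}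
    {H : MvPolynomial (Fin 2) ℂ} {N : ℕ} {F : Fin N → ℕ × ℕ → MvPolynomial (Fin 2) ℂ}
    (h : Pk A B α β C E M H N F) {x y : L} {D : Derivation ℂ L L} (hx : D x ≠ 0) (hy : D y ≠ 0)
    (hA : aeval x A ≠ 0) (hB : aeval y B ≠ 0) (hH : MvPolynomial.aeval ![x, y] H ≠ 0) :
    ∃ s, Ft1 (dat A) (dat B) C E M (F s) D x y ≠ 0 := by
  obtain ⟨s, hs⟩ := h.elim L x y (D y / D x) (B0 A B D x y / D x) hH (div_ne_zero hy hx)
  have hp := h.p6
  have hq := h.q6
  refine ⟨s, ?_⟩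
  rw [Ft1_eq (by omega) (by omega) (h.fam s).fam D hx hy hA hB]
  exact mul_ne_zero (pow_ne_zero _ (mul_ne_zero (mul_ne_zero hA hB) (mul_ne_zero hx hy)))
    (mul_ne_zero (pow_ne_zero _ hx) hs)

/-- **The pair is good.** -/
theorem Pk.good {p q : ℕ} {A B : ℂ[X]} {α : Fin p → ℂ} {β : Fin q → ℂ} {C E M : ℕ}
    {H : MvPolynomial (Fin 2) ℂ} {N : ℕ} {F : Fin N → ℕ × ℕ → MvPolynomial (Fin 2) ℂ}
    (hk : Pk A B α β C E M H N F) :
    Good A B (H * (aeval (MvPolynomial.X 0) A * aeval (MvPolynomial.X 1) B)) := by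
  have hP := hk.As
  have hQ := hk.Bs
  have hp := hk.p6
  have hq := hk.q6
  obtain ⟨n, w, w', κ, κ', hW⟩ := hk.wg
  have hval : ∀ {L : Type} [Field L] [Algebra ℂ L] (z : Fin 2 → L),
      MvPolynomial.aeval z (H * (aeval (MvPolynomial.X 0) A * aeval (MvPolynomial.X 1) B) :
        MvPolynomial (Fin 2) ℂ) = MvPolynomial.aeval ![z 0, z 1] H *
        (aeval (z 0) A * aeval (z 1) B) := by
    intro L _ _ z
    have hz : z = ![z 0, z 1] := by
      funext i
      fin_cases i <;> rfl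
    rw [map_mul, map_mul, ← Polynomial.aeval_algHom_apply, ← Polynomial.aeval_algHom_apply,
      MvPolynomial.aeval_X, MvPolynomial.aeval_X, ← hz]
  constructor
  · intro x hx hst
    rw [hval] at hx
    have hH := left_ne_zero_of_mul hx
    have v1 := left_ne_zero_of_mul (right_ne_zero_of_mul hx)
    have v2 := right_ne_zero_of_mul (right_ne_zero_of_mul hx)
    suffices h : x 0 ∈ Minf 1 one_pos ∧ x 1 ∈ Minf 1 one_pos by
      intro i
      fin_cases i
      · exact h.1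
      · exact h.2
    by_cases hx0 : MDer (exD 1 one_pos) (x 0) = 0
    · obtain ⟨c, hc⟩ := MDer_eq_zero hx0
      have h0 : x 0 ∈ Minf 1 one_pos := by rw [hc]; exact algebraMap_mem _ _
      refine ⟨h0, ?_⟩
      by_cases hx1 : MDer (exD 1 one_pos) (x 1) = 0
      · obtain ⟨d, hd⟩ := MDer_eq_zero hx1
        rw [hd]
        exact algebraMap_mem _ _
      · refine SH.an_const hQ (by omega) hx1 fun z hz hreg h1 => ?_
        have h2 : (PL hz).ord (aeval (x 0) A) = 0 := by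
          rw [hc, aeval_algebraMap_apply] at v1 ⊢
          refine FF.Place.ord_const _ fun h3 => v1 ?_
          rw [h3, map_zero]
        exact hst z hz (by rw [hc]; exact Ge.const c) hreg v1 v2 (by rw [h2, h1, zero_add])
    · by_cases hx1 : MDer (exD 1 one_pos) (x 1) = 0
      · obtain ⟨c, hc⟩ := MDer_eq_zero hx1
        have h0 : x 1 ∈ Minf 1 one_pos := by rw [hc]; exact algebraMap_mem _ _
        refine ⟨?_, h0⟩
        refine SH.an_const hP (by omega) hx0 fun z hz hreg h1 => ?_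
        have h2 : (PL hz).ord (aeval (x 1) B) = 0 := by
          rw [hc, aeval_algebraMap_apply] at v2 ⊢
          refine FF.Place.ord_const _ fun h3 => v2 ?_
          rw [h3, map_zero]
        exact hst z hz hreg (by rw [hc]; exact Ge.const c) v1 v2 (by rw [h2, h1, add_zero])
      · obtain ⟨s, hs⟩ := hk.jet hx0 hx1 v1 v2 hH
        exact an_main hP hQ hk.rA hk.rB (by omega) (by omega) (hk.fam s) hW hx0 hx1 hs
          fun z hz h1 h2 => hst z hz h1 h2 v1 v2
  · intro L _ _ x Bd hess htr halg' hx hst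
    rw [hval] at hx
    have hH := left_ne_zero_of_mul hx
    have v1 := left_ne_zero_of_mul (right_ne_zero_of_mul hx)
    have v2 := right_ne_zero_of_mul (right_ne_zero_of_mul hx)
    have : IsFF ℂ L := ⟨hess, htr⟩
    obtain ⟨s, hs⟩ := exists_isTranscendenceBasis ℂ L
    obtain ⟨D0, hD0⟩ := exists_der (fun i : s => (i : L)) hs fun _ => (1 : L)
    have hD : D0 ≠ 0 := by
      rintro rfl
      have hne : s.Nonempty := by
        rw [Set.nonempty_iff_ne_empty]
        rintro rfl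
        have h1 := hs.cardinalMk_eq_trdeg
        rw [htr] at h1
        simp at h1
      obtain ⟨t, ht⟩ := hne
      exact zero_ne_one (hD0 ⟨t, ht⟩)
    have hconst : ∀ f, D0 f = 0 → ∃ c : ℂ, f = algebraMap ℂ L c := by
      intro f hf
      by_contra hcon
      have ht : Transcendental ℂ f := fun h => hcon (const_of_algebraic h)
      exact der_ne_zero hD ht hf
    by_cases hx0 : D0 (x 0) = 0
    · obtain ⟨c, hc⟩ := hconst _ hx0
      by_cases hx1 : D0 (x 1) = 0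
      · exfalso
        refine hD (der_eq_zero D0 (Set.range x) halg' ?_)
        rintro _ ⟨j, rfl⟩
        fin_cases j
        · exact hx0
        · exact hx1
      · refine cur_const hQ (by omega) hx1 fun R hR hreg h1 => ?_
        have h2 : R.ord (aeval (x 0) A) = 0 := by
          rw [hc, aeval_algebraMap_apply] at v1 ⊢
          refine R.ord_const fun h3 => v1 ?_
          rw [h3, map_zero]
        exact hst R hR (by rw [hc]; exact Ge.const c) hreg v1 v2 (by rw [h2, h1, zero_add])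
    · by_cases hx1 : D0 (x 1) = 0
      · obtain ⟨c, hc⟩ := hconst _ hx1
        refine cur_const hP (by omega) hx0 fun R hR hreg h1 => ?_
        have h2 : R.ord (aeval (x 1) B) = 0 := by
          rw [hc, aeval_algebraMap_apply] at v2 ⊢
          refine R.ord_const fun h3 => v2 ?_
          rw [h3, map_zero]
        exact hst R hR hreg (by rw [hc]; exact Ge.const c) v1 v2 (by rw [h2, h1, add_zero])
      · obtain ⟨s', hs'⟩ := hk.jet hx0 hx1 v1 v2 hH
        exact cur_main hP hQ hk.rA hk.rB (by omega) (by omega) (hk.fam s') hW hx0 hx1 hs' hst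

/-- the weights -/
theorem exists_wg {A B : ℂ[X]} (hp : 1 ≤ A.natDegree) (hq : 1 ≤ B.natDegree) {C E M : ℕ}
    (h : B.natDegree * (C + 4 * M + 5) + A.natDegree * (E + 4 * M + 5) <
      A.natDegree * B.natDegree) : ∃ n c c' κ κ' : ℕ, Wg (dat A) (dat B) C E M n c c' κ κ' := by
  have e1 : (dat A).p + 1 = A.natDegree := (dat_p hp).symm
  have e2 : (dat B).p + 1 = B.natDegree := (dat_p hq).symm
  obtain ⟨a, ha⟩ : ∃ a, (dat A).p = a := ⟨_, rfl⟩
  obtain ⟨b, hb⟩ : ∃ b, (dat B).p = b := ⟨_, rfl⟩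
  rw [ha] at e1
  rw [hb] at e2
  rw [← e1, ← e2] at h
  refine ⟨2 * ((a + 1) * (b + 1)), 2 * (b + 1) * (C + 4 * M + 5) + 1,
    2 * (a + 1) * (E + 4 * M + 5) + 1, a + 1, b + 1, ⟨?_, ?_, ?_, Nat.succ_pos _, Nat.succ_pos _,
      by positivity⟩⟩
  · nlinarith
  · rw [ha]
    ring
  · rw [hb]
    ring

theorem trn_card : (trn 11).card = 78 := by decide

theorem Rts.sep {p : ℕ} {A : ℂ[X]} {α : Fin p → ℂ} (h : Rts A α) : A.Separable := by
  obtain ⟨hi, c, hc, rfl⟩ := h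
  refine (separable_prod_X_sub_C_iff.2 hi).of_dvd ⟨C c⁻¹, ?_⟩
  rw [mul_right_comm, ← C_mul, mul_inv_cancel₀ hc, C_1, one_mul]

theorem Rts.deg {p : ℕ} {A : ℂ[X]} {α : Fin p → ℂ} (h : Rts A α) : A.natDegree = p := by
  obtain ⟨hi, c, hc, rfl⟩ := h
  rw [natDegree_C_mul hc, natDegree_prod_of_monic _ _ fun i _ => monic_X_sub_C _]
  simp

/-- **A general polynomial and an arbitrary polynomial form a good pair.** -/
theorem good_gen {p q : ℕ} {B : ℂ[X]} {β : Fin q → ℂ} (hB : Rts B β)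
    (hpq : 1025 * q + 245 * p < p * q) :
    ∃ Ψ : MvPolynomial (Fin p) ℂ, Ψ ≠ 0 ∧ ∀ α : Fin p → ℂ, MvPolynomial.eval α Ψ ≠ 0 →
      Function.Injective α ∧ ∀ A : ℂ[X], Rts A α →
      ∃ H : MvPolynomial (Fin 2) ℂ, H ≠ 0 ∧ Good A B H := by
  have hp0 : 1025 < p := by
    by_contra hcon
    have : p * q ≤ 1025 * q := Nat.mul_le_mul_right _ (by omega)
    omega
  have hq0 : 245 < q := by
    by_contra hcon
    have : p * q ≤ p * 245 := Nat.mul_le_mul_left _ (by omega)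
    omega
  set C := 2 * p / 5 with hC
  set E := 2 * q / 5 with hE
  have c1 : 2 * p < 5 * (C + 1) := by omega
  have c2 : 5 * C ≤ 2 * p := by omega
  have c3 : 2 * q < 5 * (E + 1) := by omega
  have c4 : 5 * E ≤ 2 * q := by omega
  have hS : p * q * (11 + 1) < (C + 1) * (E + 1) * (trn 11).card := by
    rw [trn_card]
    have h1 : (2 * p) * (2 * q) < (5 * (C + 1)) * (5 * (E + 1)) :=
      Nat.mul_lt_mul'' c1 c3
    nlinarith
  obtain ⟨Ψ, hΨ, hΨ'⟩ := exists_forms (EE_ne (p := p) β (fv β) hS)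
  refine ⟨Ψ, hΨ, fun α hα => ?_⟩
  obtain ⟨hinj, H, hH, N, F, hF, hel⟩ := hΨ' α hα
  refine ⟨hinj, fun A hA => ?_⟩
  have dA := hA.deg
  have dB := hB.deg
  have hk : Pk A B α β (C + 2 * (trn 11).card) E 11 H N F := by
    refine ⟨hA.sep, hB.sep, hA, hB, by omega, by omega, hF, ?_, hel⟩
    refine exists_wg (by omega) (by omega) ?_
    rw [dA, dB, trn_card]
    have h1 : q * (5 * C) ≤ q * (2 * p) := Nat.mul_le_mul_left _ c2
    have h2 : p * (5 * E) ≤ p * (2 * q) := Nat.mul_le_mul_left _ c4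
    nlinarith
  refine ⟨_, ?_, hk.good⟩
  have t1 : (aeval (MvPolynomial.X 0) A : MvPolynomial (Fin 2) ℂ) ≠ 0 := by
    intro h0
    have := MvPolynomial.algebraicIndependent_X (Fin 2) ℂ
    exact (this.transcendental 0) ⟨A, hA.sep.ne_zero, h0⟩
  have t2 : (aeval (MvPolynomial.X 1) B : MvPolynomial (Fin 2) ℂ) ≠ 0 := by
    intro h0
    have := MvPolynomial.algebraicIndependent_X (Fin 2) ℂ
    exact (this.transcendental 1) ⟨B, hB.sep.ne_zero, h0⟩
  exact mul_ne_zero hH (mul_ne_zero t1 t2)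

end Pool.Agent.K9h12.GP
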