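import Pool.Agent.W602.GT.Der

/-!
The field of rational functions and its derivations.
-/

set_option autoImplicit false

open MvPolynomial

namespace Pool.Agent.K9h12.GP

open Pool.Agent.W602.GT

variable {V : Type}

/-- the field of rational functions -/
abbrev KK (V : Type) : Type := FractionRing (MvPolynomial V ℂ)

/-- the variables in the field of rational functions -/
noncomputable def vr (v : V) : KK V := algebraMap (MvPolynomial V ℂ) (KK V) (X v)

theorem kk_inj : Function.Injective (algebraMap (MvPolynomial V ℂ) (KK V)) :=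
  IsFractionRing.injective _ _

theorem aeval_vr (f : MvPolynomial V ℂ) :
    aeval (vr : V → KK V) f = algebraMap (MvPolynomial V ℂ) (KK V) f := by
  have h : (aeval (vr : V → KK V)) = Algebra.algHom ℂ (MvPolynomial V ℂ) (KK V) := by
    ext v
    rw [MvPolynomial.aeval_X]
    rfl
  rw [h]
  rfl

theorem kk_basis : IsTranscendenceBasis ℂ (vr : V → KK V) := by
  have hind : AlgebraicIndependent ℂ (vr : V → KK V) := by
    intro f g hfg
    rw [aeval_vr, aeval_vr] at hfg
    exact kk_inj hfg
  rw [hind.isTranscendenceBasis_iff_isAlgebraic]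
  have h1 : ∀ f : MvPolynomial V ℂ, algebraMap (MvPolynomial V ℂ) (KK V) f ∈
      Algebra.adjoin ℂ (Set.range (vr : V → KK V)) := by
    intro f
    rw [← aeval_vr, ← MvPolynomial.aeval_range]
    exact ⟨f, rfl⟩
  constructor
  intro a
  obtain ⟨f, g, hg, rfl⟩ := IsFractionRing.div_surjective (A := MvPolynomial V ℂ) a
  have hg0 : algebraMap (MvPolynomial V ℂ) (KK V) g ≠ 0 := by
    rw [Ne, map_eq_zero_iff _ kk_inj]
    exact nonZeroDivisors.ne_zero hg
  let G : Algebra.adjoin ℂ (Set.range (vr : V → KK V)) := ⟨_, h1 g⟩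
  let F : Algebra.adjoin ℂ (Set.range (vr : V → KK V)) := ⟨_, h1 f⟩
  have hG : G ≠ 0 := fun h => hg0 (congrArg Subtype.val h)
  refine ⟨Polynomial.C G * Polynomial.X - Polynomial.C F, ?_, ?_⟩
  · intro h0
    have h2 := congrArg (fun P => Polynomial.coeff P 1) h0
    simp only [Polynomial.coeff_sub, Polynomial.coeff_C_mul, Polynomial.coeff_X_one, mul_one,
      Polynomial.coeff_C_succ, sub_zero, Polynomial.coeff_zero] at h2
    exact hG h2
  · simp only [map_sub, map_mul, Polynomial.aeval_C, Polynomial.aeval_X]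
    have e1 : algebraMap (Algebra.adjoin ℂ (Set.range (vr : V → KK V))) (KK V) G =
      algebraMap (MvPolynomial V ℂ) (KK V) g := rfl
    have e2 : algebraMap (Algebra.adjoin ℂ (Set.range (vr : V → KK V))) (KK V) F =
      algebraMap (MvPolynomial V ℂ) (KK V) f := rfl
    rw [e1, e2]
    field_simp
    ring

/-- existence of derivations -/
theorem kk_der (c : V → KK V) : ∃ D : Derivation ℂ (KK V) (KK V), ∀ v, D (vr v) = c v :=
  exists_der _ kk_basis c

/-- uniqueness of derivations -/
theorem kk_ext {D D' : Derivation ℂ (KK V) (KK V)} (h : ∀ v, D (vr v) = D' (vr v)) : D = D' := by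
  have hp : ∀ f : MvPolynomial V ℂ, D (algebraMap _ (KK V) f) = D' (algebraMap _ (KK V) f) := by
    intro f
    rw [← aeval_vr]
    induction f using MvPolynomial.induction_on with
    | C a => rw [MvPolynomial.aeval_C, D.map_algebraMap, D'.map_algebraMap]
    | add p q hp hq => rw [map_add, map_add, map_add, hp, hq]
    | mul_X p v hp => rw [map_mul, MvPolynomial.aeval_X, D.leibniz, D'.leibniz, hp, h v]
  ext a
  obtain ⟨f, g, hg, rfl⟩ := IsFractionRing.div_surjective (A := MvPolynomial V ℂ) a
  have hg0 : algebraMap (MvPolynomial V ℂ) (KK V) g ≠ 0 := by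
    rw [Ne, map_eq_zero_iff _ kk_inj]
    exact nonZeroDivisors.ne_zero hg
  set F := algebraMap (MvPolynomial V ℂ) (KK V) f with hF
  set G := algebraMap (MvPolynomial V ℂ) (KK V) g with hG
  have h1 : F = F / G * G := by field_simp
  have h2 := hp f
  rw [← hF] at h2
  rw [h1, D.leibniz, D'.leibniz, hp g, smul_eq_mul, smul_eq_mul, smul_eq_mul] at h2
  exact mul_left_cancel₀ hg0 (add_left_cancel h2)

end Pool.Agent.K9h12.GP
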