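import Pool.Agent.K9h12.GP.Spec
import Pool.Agent.K9h12.SG.Loc

/-!
The jet differentials of second order attached to a family of coefficients.
-/

set_option autoImplicit false

open Polynomial

namespace Pool.Agent.K9h12.GP

open Pool.Agent.K9h12.SH Pool.Agent.K9h12.SG

/-- the data of a polynomial -/
noncomputable def dat (P : ℂ[X]) : Dat := ⟨P.natDegree - 1, 0, P, 1, 0⟩

section

variable {R : Type} [CommRing R] [Algebra ℂ R]

/-- a polynomial in two variables as a bihomogeneous form -/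
noncomputable def hb (C D : ℕ) (G : MvPolynomial (Fin 2) ℂ) (u v : Fin 2 → R) : R :=
  ∑ m ∈ G.support, algebraMap ℂ R (G.coeff m) *
    ((u 1 ^ m 0 * u 0 ^ (C - m 0)) * (v 1 ^ m 1 * v 0 ^ (D - m 1)))

theorem hb_scale {C D : ℕ} {G : MvPolynomial (Fin 2) ℂ}
    (hG : ∀ m ∈ G.support, m 0 ≤ C ∧ m 1 ≤ D) {u v u1 v1 : Fin 2 → R} {s t : R}
    (hu : ∀ j, u j = s * u1 j) (hv : ∀ j, v j = t * v1 j) :
    hb C D G u v = s ^ C * t ^ D * hb C D G u1 v1 := by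
  unfold hb
  rw [Finset.mul_sum]
  refine Finset.sum_congr rfl fun m hm => ?_
  obtain ⟨h1, h2⟩ := hG m hm
  have e1 : s ^ C = s ^ m 0 * s ^ (C - m 0) := by rw [← pow_add, Nat.add_sub_cancel' h1]
  have e2 : t ^ D = t ^ m 1 * t ^ (D - m 1) := by rw [← pow_add, Nat.add_sub_cancel' h2]
  rw [hu 0, hu 1, hv 0, hv 1, e1, e2, mul_pow, mul_pow, mul_pow, mul_pow]
  ring

theorem hb_one {C D : ℕ} (G : MvPolynomial (Fin 2) ℂ) (x y : R) :
    hb C D G ![1, x] ![1, y] = MvPolynomial.aeval ![x, y] G := by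
  unfold hb
  rw [MvPolynomial.aeval_def, MvPolynomial.eval₂_eq']
  refine Finset.sum_congr rfl fun m _ => ?_
  rw [Fin.prod_univ_two]
  simp

theorem hb_map {S : Type} [CommRing S] [Algebra ℂ S] (φ : R →ₐ[ℂ] S) (C D : ℕ)
    (G : MvPolynomial (Fin 2) ℂ) (u v : Fin 2 → R) :
    φ (hb C D G u v) = hb C D G (fun j => φ (u j)) fun j => φ (v j) := by
  unfold hb
  rw [map_sum]
  refine Finset.sum_congr rfl fun m _ => ?_
  rw [map_mul, map_mul, map_mul, map_mul, map_pow, map_pow, map_pow, map_pow, φ.commutes]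

theorem hm_map {S : Type} [CommRing S] [Algebra ℂ S] (φ : R →ₐ[ℂ] S) (d : ℕ) (K : ℂ[X])
    (u : Fin 2 → R) : φ (hm d K u) = hm d K fun j => φ (u j) := by
  unfold hm
  rw [map_sum]
  refine Finset.sum_congr rfl fun m _ => ?_
  rw [map_mul, map_mul, map_pow, map_pow, φ.commutes]

theorem Jet_map {S : Type} [CommRing S] [Algebra ℂ S] (φ : R →ₐ[ℂ] S) (A B : Dat)
    (u v : Fin 2 → R) (u' v' w x w' x' : R) : φ (Jet A B u v u' v' w x w' x') =
      Jet A B (fun j => φ (u j)) (fun j => φ (v j)) (φ u') (φ v') (φ w) (φ x) (φ w') (φ x') := by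
  unfold Jet Dat.chi Dat.phi Chi Phi
  simp only [map_sub, map_add, map_mul, map_pow, hm_map, map_ofNat]

/-- the form of a family of coefficients -/
noncomputable def Ft (A B : Dat) (C D M : ℕ) (f : ℕ × ℕ → MvPolynomial (Fin 2) ℂ)
    (u v : Fin 2 → R) (u' v' w x w' x' : R) : R :=
  ∑ k ∈ trn M, hb C D (f k) u v * ((w * v 0 ^ 2) ^ (M - k.1 - k.2) * (x * u 0 ^ 2) ^ k.1 *
    (Jet A B u v u' v' w x w' x' ^ k.2 * (A.F u * B.F v * (w * x)) ^ (M - k.2)))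

/-- the auxiliary form -/
noncomputable def Ax (A B : Dat) (C D M n : ℕ) (f : ℕ × ℕ → MvPolynomial (Fin 2) ℂ)
    (u v : Fin 2 → R) (u' v' w x w' x' : R) : R :=
  Ft A B C D M f u v u' v' w x w' x' ^ n * (w * x) ^ (2 * n) * (u 0 * v 0) ^ n

theorem Ft_map {S : Type} [CommRing S] [Algebra ℂ S] (φ : R →ₐ[ℂ] S) (A B : Dat) (C D M : ℕ)
    (f : ℕ × ℕ → MvPolynomial (Fin 2) ℂ) (u v : Fin 2 → R) (u' v' w x w' x' : R) :
    φ (Ft A B C D M f u v u' v' w x w' x') = Ft A B C D M f (fun j => φ (u j))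
      (fun j => φ (v j)) (φ u') (φ v') (φ w) (φ x) (φ w') (φ x') := by
  unfold Ft Dat.F
  simp only [map_sum, map_mul, map_pow, hb_map, hm_map, Jet_map]

theorem Ax_map {S : Type} [CommRing S] [Algebra ℂ S] (φ : R →ₐ[ℂ] S) (A B : Dat) (C D M n : ℕ)
    (f : ℕ × ℕ → MvPolynomial (Fin 2) ℂ) (u v : Fin 2 → R) (u' v' w x w' x' : R) :
    φ (Ax A B C D M n f u v u' v' w x w' x') = Ax A B C D M n f (fun j => φ (u j))
      (fun j => φ (v j)) (φ u') (φ v') (φ w) (φ x) (φ w') (φ x') := by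
  unfold Ax
  rw [map_mul, map_mul, map_pow, map_pow, map_pow, map_mul, map_mul, Ft_map]

theorem Ft_scale {A B : Dat} (hA : A.d = 0) (hB : B.d = 0) {C D M : ℕ}
    {f : ℕ × ℕ → MvPolynomial (Fin 2) ℂ} (hf : Fm C D M f) {u v u1 v1 : Fin 2 → R}
    {s s' t t' u' v' w x w' x' u1' v1' w1 x1 w1' x1' : R} (hu : ∀ j, u j = s * u1 j)
    (hv : ∀ j, v j = t * v1 j) (hu' : u' = s' * u1 0 + s * u1') (hv' : v' = t' * v1 0 + t * v1')
    (hw : w = s ^ 2 * w1) (hw' : w' = 2 * s * s' * w1 + s ^ 2 * w1')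
    (hx : x = t ^ 2 * x1) (hx' : x' = 2 * t * t' * x1 + t ^ 2 * x1') :
    Ft A B C D M f u v u' v' w x w' x' =
      s ^ (C + (A.p + 5) * M) * t ^ (D + (B.p + 5) * M) *
        Ft A B C D M f u1 v1 u1' v1' w1 x1 w1' x1' := by
  unfold Ft
  rw [Finset.mul_sum]
  refine Finset.sum_congr rfl fun k hk => ?_
  rw [Jet_scale A B hu hv hu' hv' hw hw' hx hx', hb_scale (hf.dg k) hu hv, hA, hB, hu 0, hv 0, hw,
    hx]
  unfold Dat.F
  rw [hm_smul _ _ hu, hm_smul _ _ hv]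
  obtain ⟨j, hj⟩ : ∃ j, M = k.1 + k.2 + j := ⟨M - (k.1 + k.2), by have := mem_trn.1 hk; omega⟩
  rw [show M - k.1 - k.2 = j by omega, show M - k.2 = k.1 + j by omega,
    show C + (A.p + 5) * M = C + 2 * (j + k.1) + (A.p + 0 + 5) * k.2 + (A.p + 1 + 2) * (k.1 + j) by
      rw [hj]; ring,
    show D + (B.p + 5) * M = D + 2 * (j + k.1) + (B.p + 0 + 5) * k.2 + (B.p + 1 + 2) * (k.1 + j) by
      rw [hj]; ring]
  simp only [pow_add s, pow_add t, pow_mul s, pow_mul t, mul_pow]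
  ring

theorem Ax_scale {A B : Dat} (hA : A.d = 0) (hB : B.d = 0) {C D M : ℕ} (n : ℕ)
    {f : ℕ × ℕ → MvPolynomial (Fin 2) ℂ} (hf : Fm C D M f) {u v u1 v1 : Fin 2 → R}
    {s s' t t' u' v' w x w' x' u1' v1' w1 x1 w1' x1' : R} (hu : ∀ j, u j = s * u1 j)
    (hv : ∀ j, v j = t * v1 j) (hu' : u' = s' * u1 0 + s * u1') (hv' : v' = t' * v1 0 + t * v1')
    (hw : w = s ^ 2 * w1) (hw' : w' = 2 * s * s' * w1 + s ^ 2 * w1')
    (hx : x = t ^ 2 * x1) (hx' : x' = 2 * t * t' * x1 + t ^ 2 * x1') :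
    Ax A B C D M n f u v u' v' w x w' x' =
      s ^ (n * (C + (A.p + 5) * M + 5)) * t ^ (n * (D + (B.p + 5) * M + 5)) *
        Ax A B C D M n f u1 v1 u1' v1' w1 x1 w1' x1' := by
  unfold Ax
  rw [Ft_scale hA hB hf hu hv hu' hv' hw hw' hx hx', hu 0, hv 0, hw, hx,
    show n * (C + (A.p + 5) * M + 5) = (C + (A.p + 5) * M) * n + 2 * (2 * n) + n by ring,
    show n * (D + (B.p + 5) * M + 5) = (D + (B.p + 5) * M) * n + 2 * (2 * n) + n by ring]
  simp only [pow_add s _ n, pow_add t _ n, pow_add s _ (2 * (2 * n)), pow_add t _ (2 * (2 * n)),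
    pow_mul s, pow_mul t, mul_pow]
  ring

end

theorem Ev_eq {C D M : ℕ} {f : ℕ × ℕ → MvPolynomial (Fin 2) ℂ} (hf : Fm C D M f) {K : Type}
    [Field K] [Algebra ℂ K] (x y ζ b : K) : Ev M f x y ζ b =
      ∑ k ∈ trn M, MvPolynomial.aeval ![x, y] (f k) * (ζ ^ k.1 * b ^ k.2) := by
  unfold Ev
  rw [← Finset.sum_product', trn, Finset.sum_filter]
  refine Finset.sum_congr rfl fun k _ => ?_
  split_ifs with hk
  · rfl
  · rw [hf.tri k (by omega), map_zero, zero_mul]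

end Pool.Agent.K9h12.GP
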