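import Pool.Agent.K9h12.GP.Deg

/-!
Families of coefficients which vanish on the lines, and the vector fields.
-/

set_option autoImplicit false

open MvPolynomial

namespace Pool.Agent.K9h12.GP

variable {p : ℕ}

/-- the restriction to a point of the grid -/
noncomputable def sg (i : Fin p) (b : ℂ) : TT p →ₐ[ℂ] QQ p :=
  aeval (Sum.elim tt fun j => if j = 0 then tt i else algebraMap ℂ (QQ p) b)

theorem sg_t (i : Fin p) (b : ℂ) (l : Fin p) : sg i b (X (Sum.inl l)) = tt l := by
  unfold sg
  rw [aeval_X]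
  rfl

theorem sg_x (i : Fin p) (b : ℂ) : sg i b (X (Sum.inr 0)) = tt i := by
  unfold sg
  rw [aeval_X]
  rfl

theorem sg_y (i : Fin p) (b : ℂ) : sg i b (X (Sum.inr 1)) = algebraMap ℂ (QQ p) b := by
  unfold sg
  rw [aeval_X]
  rfl

/-- the quotient of the second and the first derivative at a root -/
noncomputable def ff (i : Fin p) : QQ p := ∑ l ∈ Finset.univ.erase i, 2 / (tt i - tt l)

/-- the second order part of the vector fields of low degree -/
noncomputable def rho (p : ℕ) (e : ℕ) : TT p :=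
  if e = 2 then 2 - 2 * (p : TT p)
  else if e = 3 then 6 * X (Sum.inr 0) - 2 * ∑ i : Fin p, (2 * X (Sum.inr 0) + X (Sum.inl i))
  else 0

/-- the vector field of low degree on families of polynomials -/
noncomputable def oo (e : ℕ) (f : ℕ × ℕ → TT p) (k : ℕ × ℕ) : TT p :=
  dd e (f k) - ((e : TT p) * X (Sum.inr 0) ^ (e - 1)) * ((k.1 + k.2 : ℕ) : TT p) * f k +
    rho p e * ((k.2 + 1 : ℕ) : TT p) * f (k.1, k.2 + 1)

/-- the families of polynomials -/
structure FamT (C D M : ℕ) (f : ℕ × ℕ → TT p) : Prop where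
  dg : ∀ k, DegLe C D (f k)
  tri : ∀ k : ℕ × ℕ, M < k.1 + k.2 → f k = 0

/-- the vanishing on a line -/
def LineC (M : ℕ) (i : Fin p) (b g : ℂ) (f : ℕ × ℕ → TT p) : Prop :=
  ∑ k ∈ Finset.range (M + 1), ∑ l ∈ Finset.range (M + 1), sg i b (f (k, l)) *
    (xx ^ k * (algebraMap ℂ (QQ p) g * xx - ff i) ^ l) = 0

theorem DegLe.rho (e : ℕ) : DegLe 1 0 (rho p e) := by
  unfold GP.rho
  have h2 : DegLe 0 0 (2 : TT p) := by
    have := DegLe.natCast (p := p) 2
    exact_mod_cast this
  have h6 : DegLe 0 0 (6 : TT p) := by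
    have := DegLe.natCast (p := p) 6
    exact_mod_cast this
  split_ifs
  · exact (h2.sub ((h2.mul (DegLe.natCast p)).mono le_rfl le_rfl)).mono (by omega) (by omega)
  · exact ((h6.mul DegLe.x).mono (by omega) (by omega)).sub ((h2.mul (DegLe.sum _ fun i _ =>
      ((h2.mul DegLe.x).mono (by omega) (by omega) : DegLe 1 0 _).add
        ((DegLe.t i).mono (by omega) (by omega)))).mono (by omega) (by omega))
  · exact DegLe.zero _ _

theorem FamT.oo {C D M e : ℕ} (he : e ≤ 3) {f : ℕ × ℕ → TT p} (hf : FamT C D M f) :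
    FamT (C + 2) D M (oo e f) := by
  refine ⟨fun k => ?_, fun k hk => ?_⟩
  · unfold GP.oo
    have h1 := (hf.dg k).dd he
    have h2 : DegLe (C + 2) D ((e : TT p) * X (Sum.inr 0) ^ (e - 1) *
        ((k.1 + k.2 : ℕ) : TT p) * f k) :=
      ((((DegLe.natCast e).mul (DegLe.x.pow (e - 1))).mul (DegLe.natCast _)).mul
        (hf.dg k)).mono (by omega) (by omega)
    have h3 : DegLe (C + 2) D (GP.rho p e * ((k.2 + 1 : ℕ) : TT p) * f (k.1, k.2 + 1)) :=
      (((DegLe.rho e).mul (DegLe.natCast _)).mul (hf.dg _)).mono (by omega) (by omega)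
    exact (h1.sub h2).add h3
  · unfold GP.oo
    rw [hf.tri k hk, hf.tri (k.1, k.2 + 1) (by simp only; omega)]
    simp

theorem io_X (v : VV p) : io (X v) = vr v := rfl

theorem io_nat (n : ℕ) : io ((n : TT p)) = (n : QQ p) := map_natCast _ n

theorem rho_io {e : ℕ} (he : e ≤ 3) : io (rho p e) = Rf (cc (Polynomial.X ^ e)) := by
  have h : ∀ i : Fin p, (xx : QQ p) - tt i ≠ 0 := xt
  unfold Rf rho
  simp only [der_cc, ev_cc, Polynomial.derivative_X_pow, map_mul, map_pow, Polynomial.aeval_X,
    map_natCast]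
  rcases (by omega : e = 0 ∨ e = 1 ∨ e = 2 ∨ e = 3) with rfl | rfl | rfl | rfl
  · simp
  · simp only [show ¬ (1 = 2) by omega, show ¬ (1 = 3) by omega, if_false, map_zero]
    rw [Finset.sum_eq_zero]
    · simp
    · intro i _
      have := h i
      field_simp
      push_cast
      ring
  · simp only [if_true]
    have hs : ∑ i : Fin p, ((xx ^ 2 - tt i ^ 2) / (xx - tt i) ^ 2 -
        ((2 : ℕ) : QQ p) * xx ^ (2 - 1) / (xx - tt i)) = ∑ i : Fin p, (-1 : QQ p) := by
      refine Finset.sum_congr rfl fun i _ => ?_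
      have := h i
      field_simp
      push_cast
      ring
    rw [hs]
    simp only [map_sub, map_mul, map_ofNat, map_natCast, Finset.sum_const, Finset.card_univ,
      Fintype.card_fin, nsmul_eq_mul]
    have h2 : Polynomial.aeval (xx : QQ p) (Polynomial.derivative (((2 : ℕ) : Polynomial ℂ) *
        Polynomial.X ^ (2 - 1))) = 2 := by
      simp
      exact map_ofNat _ 2
    rw [h2]
    ring
  · simp only [show ¬ (3 = 2) by omega, if_false, if_true]
    have hs : ∑ i : Fin p, ((xx ^ 3 - tt i ^ 3) / (xx - tt i) ^ 2 -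
        ((3 : ℕ) : QQ p) * xx ^ (3 - 1) / (xx - tt i)) = ∑ i : Fin p, -(2 * xx + tt i) := by
      refine Finset.sum_congr rfl fun i _ => ?_
      have := h i
      field_simp
      push_cast
      ring
    rw [hs]
    have h2 : Polynomial.aeval (xx : QQ p) (Polynomial.derivative (((3 : ℕ) : Polynomial ℂ) *
        Polynomial.X ^ (3 - 1))) = 6 * xx := by
      have h3 : Polynomial.aeval (xx : QQ p) (3 : Polynomial ℂ) = 3 := map_ofNat _ 3
      simp [h3]
      ring
    rw [h2, Finset.sum_neg_distrib]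
    simp only [map_sub, map_mul, map_ofNat, map_sum, map_add, io_X]
    change 6 * xx - 2 * ∑ i : Fin p, (2 * xx + tt i) = _
    ring

theorem oo_io {e : ℕ} (he : e ≤ 3) (f : ℕ × ℕ → TT p) :
    (fun k => io (oo e f k)) = Op (cc (Polynomial.X ^ e)) fun k => io (f k) := by
  funext k
  have h1 : Polynomial.eval xx (Polynomial.derivative (cc (Polynomial.X ^ e) : Polynomial (QQ p))) =
      (e : QQ p) * xx ^ (e - 1) := by
    rw [der_cc, ev_cc, Polynomial.derivative_X_pow, map_mul, map_pow, Polynomial.aeval_X]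
    simp
  unfold oo Op
  rw [map_add, map_sub, dd_io, map_mul, map_mul, map_mul, map_mul, map_mul, rho_io he, h1,
    io_nat, io_nat, io_nat, map_pow, io_X]
  rfl

/-- the vector field along a line of the grid -/
noncomputable def dl (e : ℕ) (i : Fin p) : Derivation ℂ (QQ p) (QQ p) :=
  (kk_der (Sum.elim (fun l => tt l ^ e) fun j => if j = 0 then
    -((e : QQ p) * tt i ^ (e - 1)) * xx else 0)).choose

theorem dl_t (e : ℕ) (i l : Fin p) : dl e i (tt l) = tt l ^ e :=
  (kk_der (Sum.elim (fun l => tt l ^ e) fun j => if j = 0 then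
    -((e : QQ p) * tt i ^ (e - 1)) * xx else 0)).choose_spec (Sum.inl l)

theorem dl_x (e : ℕ) (i : Fin p) : dl e i xx = -((e : QQ p) * tt i ^ (e - 1)) * xx :=
  (kk_der (Sum.elim (fun l => tt l ^ e) fun j => if j = 0 then
    -((e : QQ p) * tt i ^ (e - 1)) * xx else 0)).choose_spec (Sum.inr 0)

theorem dl_sg (e : ℕ) (i : Fin p) (b : ℂ) (f : TT p) : sg i b (dd e f) = dl e i (sg i b f) := by
  refine der_hom (sg i b) (dd e) _ (fun v => ?_) f
  rcases v with l | j
  · rw [dd_t, map_pow, sg_t, dl_t]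
  · fin_cases j
    · change sg i b (dd e (X (Sum.inr 0))) = dl e i (sg i b (X (Sum.inr 0)))
      rw [dd_x, map_pow, sg_x, dl_t]
    · change sg i b (dd e (X (Sum.inr 1))) = dl e i (sg i b (X (Sum.inr 1)))
      rw [dd_y, map_zero, sg_y, Derivation.map_algebraMap]

/-- the vector fields and the slopes of the lines -/
theorem dl_ff {e : ℕ} (he : e ≤ 3) (i : Fin p) (b : ℂ) : dl e i (ff i) =
    -sg i b (rho p e) - (e : QQ p) * tt i ^ (e - 1) * ff i := by
  classical
  have hne : ∀ l ∈ Finset.univ.erase i, (tt i - tt l : QQ p) ≠ 0 := fun l hl =>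
    tt_ne (Finset.ne_of_mem_erase hl).symm
  have h1 : dl e i (ff i) = ∑ l ∈ Finset.univ.erase i,
      -(2 * (tt i ^ e - tt l ^ e) / (tt i - tt l) ^ 2) := by
    unfold ff
    rw [map_sum]
    refine Finset.sum_congr rfl fun l hl => ?_
    have h2 : dl e i (2 : QQ p) = 0 := by
      have := (dl e i).map_algebraMap (2 : ℂ)
      rwa [map_ofNat] at this
    rw [der_div _ _ (hne l hl), map_sub, dl_t, dl_t, h2]
    have := hne l hl
    field_simp
    ring
  have h3 : ∀ g : Fin p → QQ p, ∑ l : Fin p, g l = g i + ∑ l ∈ Finset.univ.erase i, g l :=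
    fun g => (Finset.add_sum_erase _ _ (Finset.mem_univ i)).symm
  have h4 : ((Finset.univ.erase i).card : QQ p) = (p : QQ p) - 1 := by
    have h5 := h3 fun _ => 1
    simp only [Finset.sum_const, Finset.card_univ, Fintype.card_fin, nsmul_eq_mul, mul_one] at h5
    rw [h5]
    ring
  rw [h1]
  unfold ff
  rw [Finset.mul_sum]
  rcases (by omega : e = 0 ∨ e = 1 ∨ e = 2 ∨ e = 3) with rfl | rfl | rfl | rfl
  · simp [rho]
  · simp only [rho, show ¬ (1 = 2) by omega, show ¬ (1 = 3) by omega, if_false, map_zero, neg_zero,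
      zero_sub]
    rw [← Finset.sum_neg_distrib]
    refine Finset.sum_congr rfl fun l hl => ?_
    have := hne l hl
    field_simp
    push_cast
    ring
  · have h6 : sg i b (rho p 2) = -∑ l ∈ Finset.univ.erase i, (2 : QQ p) := by
      simp only [rho, if_true, map_sub, map_mul, map_ofNat, map_natCast, Finset.sum_const,
        nsmul_eq_mul, h4]
      ring
    rw [h6, neg_neg, ← Finset.sum_sub_distrib]
    refine Finset.sum_congr rfl fun l hl => ?_
    have := hne l hl
    field_simp
    push_cast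
    ring
  · have h6 : sg i b (rho p 3) = -∑ l ∈ Finset.univ.erase i, (2 * (2 * tt i + tt l) : QQ p) := by
      simp only [rho, show ¬ (3 = 2) by omega, if_false, if_true, map_sub, map_mul, map_ofNat,
        map_sum, map_add, sg_x, sg_t]
      rw [h3 fun l => 2 * tt i + tt l, ← Finset.mul_sum]
      ring
    rw [h6, neg_neg, ← Finset.sum_sub_distrib]
    refine Finset.sum_congr rfl fun l hl => ?_
    have := hne l hl
    field_simp
    push_cast
    ring

theorem pred_pow {K : Type} [Field K] (k : ℕ) (a : K) : (k : K) * a ^ (k - 1) * a = k * a ^ k := by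
  cases k with
  | zero => simp
  | succ k => rw [Nat.add_sub_cancel, pow_succ]; ring

/-- **The vector fields preserve the vanishing on the lines.** -/
theorem LineC.oo {C D M e : ℕ} (he : e ≤ 3) {f : ℕ × ℕ → TT p} (hf : FamT C D M f) {i : Fin p}
    {b g : ℂ} (h : LineC M i b g f) : LineC M i b g (oo e f) := by
  unfold LineC at h ⊢
  set B : QQ p := algebraMap ℂ (QQ p) g * xx - ff i with hB
  set τ : QQ p := (e : QQ p) * tt i ^ (e - 1) with hτ
  have hdB : dl e i B = sg i b (rho p e) - τ * B := by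
    rw [hB, map_sub, dl_ff he i b, Derivation.leibniz, Derivation.map_algebraMap, dl_x,
      smul_eq_mul, smul_zero, add_zero, ← hτ]
    ring
  have hdx : dl e i xx = -τ * xx := by rw [dl_x]
  -- the derivative of a term
  have hterm : ∀ k l : ℕ, dl e i (sg i b (f (k, l)) * (xx ^ k * B ^ l)) =
      (sg i b (dd e (f (k, l))) - τ * ((k + l : ℕ) : QQ p) * sg i b (f (k, l))) *
        (xx ^ k * B ^ l) +
      sg i b (rho p e) * xx ^ k * ((l : QQ p) * sg i b (f (k, l)) * B ^ (l - 1)) := by
    intro k l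
    rw [Derivation.leibniz, Derivation.leibniz, Derivation.leibniz_pow, Derivation.leibniz_pow,
      hdB, hdx, ← dl_sg]
    simp only [smul_eq_mul, nsmul_eq_mul]
    push_cast
    linear_combination (-τ * sg i b (f (k, l)) * B ^ l) * pred_pow k (xx : QQ p) -
      τ * sg i b (f (k, l)) * xx ^ k * pred_pow l B
  have h0 := congrArg (dl e i) h
  rw [map_zero, map_sum] at h0
  simp only [map_sum, hterm] at h0
  rw [← h0]
  refine Finset.sum_congr rfl fun k _ => ?_
  rw [Finset.sum_add_distrib, ← Finset.mul_sum]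
  have hshift : ∑ l ∈ Finset.range (M + 1), ((l : QQ p) * sg i b (f (k, l)) * B ^ (l - 1)) =
      ∑ l ∈ Finset.range (M + 1), ((l + 1 : ℕ) : QQ p) * sg i b (f (k, l + 1)) * B ^ l := by
    rw [Finset.sum_range_succ', Finset.sum_range_succ]
    have h1 : f (k, M + 1) = 0 := hf.tri _ (by simp only; omega)
    rw [h1]
    simp
  rw [hshift, Finset.mul_sum, ← Finset.sum_add_distrib]
  refine Finset.sum_congr rfl fun l _ => ?_
  unfold GP.oo
  simp only [map_add, map_sub, map_mul, map_pow, map_natCast, sg_x]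
  rw [← hτ]
  push_cast
  ring

end Pool.Agent.K9h12.GP
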