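import Pool.Agent.K9h12.GP.Frm
import Pool.Agent.K9h12.SG.Psi2
import Pool.Agent.K9h12.SH.An

/-!
The auxiliary form along a pair of meromorphic functions.
-/

set_option autoImplicit false

open Polynomial Filter Metric Set Topology

namespace Pool.Agent.K9h12.GP

open Pool.Agent.K9h12.SH Pool.Agent.K9h12.SG Pool.Agent.K9h12.AX Pool.Agent.Y190.AN

/-- the auxiliary form along a pair of maps -/
noncomputable def Axf (A B : Dat) (C D M n : ℕ) (f : ℕ × ℕ → MvPolynomial (Fin 2) ℂ)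
    (u v : ℂ → Fin 2 → ℂ) (z : ℂ) : ℂ :=
  Ax A B C D M n f (u z) (v z) (deriv (fun w => u w 0) z) (deriv (fun w => v w 0) z) (wr u z)
    (wr v z) (deriv (wr u) z) (deriv (wr v) z)

/-- the auxiliary form of a pair of vectors -/
noncomputable def AxA {L : Type} [Field L] [Algebra ℂ L] (A B : Dat) (C D M n : ℕ)
    (f : ℕ × ℕ → MvPolynomial (Fin 2) ℂ) (δ : Derivation ℂ L L) (u v : Fin 2 → L) : L :=
  Ax A B C D M n f u v (δ (u 0)) (δ (v 0)) (wrA δ u) (wrA δ v) (δ (wrA δ u)) (δ (wrA δ v))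

/-- the auxiliary form in the ring of functions -/
theorem Axf_pi (A B : Dat) (C D M n : ℕ) (f : ℕ × ℕ → MvPolynomial (Fin 2) ℂ)
    (u v : ℂ → Fin 2 → ℂ) : Axf A B C D M n f u v =
    Ax (R := ℂ → ℂ) A B C D M n f (fun j z => u z j) (fun j z => v z j) (deriv fun w => u w 0)
      (deriv fun w => v w 0) (wr u) (wr v) (deriv (wr u)) (deriv (wr v)) := by
  funext z
  have h := Ax_map (Pi.evalAlgHom ℂ (fun _ : ℂ => ℂ) z) A B C D M n f (fun j z => u z j)
    (fun j z => v z j) (deriv fun w => u w 0) (deriv fun w => v w 0) (wr u) (wr v)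
    (deriv (wr u)) (deriv (wr v))
  exact h.symm

/-- the analytic functions at a point -/
def anS (z : ℂ) : Subalgebra ℂ (ℂ → ℂ) where
  carrier := {f | AnalyticAt ℂ f z}
  mul_mem' ha hb := AnalyticAt.mul ha hb
  add_mem' ha hb := AnalyticAt.add ha hb
  algebraMap_mem' c := (analyticAt_const : AnalyticAt ℂ (fun _ => c) z)

theorem Axf_an (A B : Dat) (C D M n : ℕ) (f : ℕ × ℕ → MvPolynomial (Fin 2) ℂ)
    {u v : ℂ → Fin 2 → ℂ} {z : ℂ} (hu : ∀ j, AnalyticAt ℂ (fun w => u w j) z)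
    (hv : ∀ j, AnalyticAt ℂ (fun w => v w j) z) : AnalyticAt ℂ (Axf A B C D M n f u v) z := by
  rw [Axf_pi]
  let U : Fin 2 → anS z := fun j => ⟨fun w => u w j, hu j⟩
  let V : Fin 2 → anS z := fun j => ⟨fun w => v w j, hv j⟩
  let U' : anS z := ⟨deriv fun w => u w 0, (hu 0).deriv⟩
  let V' : anS z := ⟨deriv fun w => v w 0, (hv 0).deriv⟩
  let W : anS z := ⟨wr u, wr_an hu⟩
  let Y : anS z := ⟨wr v, wr_an hv⟩
  let W' : anS z := ⟨deriv (wr u), (wr_an hu).deriv⟩
  let Y' : anS z := ⟨deriv (wr v), (wr_an hv).deriv⟩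
  have h := Ax_map (anS z).val A B C D M n f U V U' V' W Y W' Y'
  have h1 := (Ax A B C D M n f U V U' V' W Y W' Y').2
  have h2 : ((Ax A B C D M n f U V U' V' W Y W' Y' : anS z) : ℂ → ℂ) =
    Ax (R := ℂ → ℂ) A B C D M n f (fun j z => u z j) (fun j z => v z j) (deriv fun w => u w 0)
      (deriv fun w => v w 0) (wr u) (wr v) (deriv (wr u)) (deriv (wr v)) := h
  rw [← h2]
  exact h1

/-- the meromorphic functions on a domain -/
def merS (D : Dm) : Subalgebra ℂ (ℂ → ℂ) where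
  carrier := {f | MeromorphicOn f D.U}
  mul_mem' ha hb := MeromorphicOn.mul ha hb
  add_mem' ha hb := MeromorphicOn.add ha hb
  algebraMap_mem' c := (MeromorphicOn.const c : MeromorphicOn (fun _ => c) D.U)

/-- the classes of meromorphic functions -/
noncomputable def clH (D : Dm) : merS D →ₐ[ℂ] MK D where
  toFun f := cl (f : ℂ → ℂ) f.2
  map_one' := by
    have := cl_fun_const (D := D) 1 (MeromorphicOn.const _)
    rw [map_one] at this
    exact this
  map_zero' := by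
    have := cl_fun_const (D := D) 0 (MeromorphicOn.const _)
    rw [map_zero] at this
    exact this
  map_mul' f g := cl_fun_mul f.2 g.2 (f * g).2
  map_add' f g := cl_fun_add f.2 g.2 (f + g).2
  commutes' c := cl_fun_const (D := D) c (MeromorphicOn.const _)

theorem Axf_cl (A B : Dat) (C D M n : ℕ) (f : ℕ × ℕ → MvPolynomial (Fin 2) ℂ) {Dd : Dm}
    {u v : ℂ → Fin 2 → ℂ} (hu : ∀ j, MeromorphicOn (fun z => u z j) Dd.U)
    (hv : ∀ j, MeromorphicOn (fun z => v z j) Dd.U) :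
    ∃ h : MeromorphicOn (Axf A B C D M n f u v) Dd.U,
      cl _ h = AxA A B C D M n f (MDer Dd) (clv hu) (clv hv) := by
  rw [Axf_pi]
  let U : Fin 2 → merS Dd := fun j => ⟨fun w => u w j, hu j⟩
  let V : Fin 2 → merS Dd := fun j => ⟨fun w => v w j, hv j⟩
  let U' : merS Dd := ⟨deriv fun w => u w 0, (hu 0).deriv⟩
  let V' : merS Dd := ⟨deriv fun w => v w 0, (hv 0).deriv⟩
  let W : merS Dd := ⟨wr u, wr_mero hu⟩
  let Y : merS Dd := ⟨wr v, wr_mero hv⟩
  let W' : merS Dd := ⟨deriv (wr u), (wr_mero hu).deriv⟩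
  let Y' : merS Dd := ⟨deriv (wr v), (wr_mero hv).deriv⟩
  have h := Ax_map (merS Dd).val A B C D M n f U V U' V' W Y W' Y'
  have h1 := (Ax A B C D M n f U V U' V' W Y W' Y').2
  have h2 : ((Ax A B C D M n f U V U' V' W Y W' Y' : merS Dd) : ℂ → ℂ) =
    Ax (R := ℂ → ℂ) A B C D M n f (fun j z => u z j) (fun j z => v z j) (deriv fun w => u w 0)
      (deriv fun w => v w 0) (wr u) (wr v) (deriv (wr u)) (deriv (wr v)) := h
  have h3 := Ax_map (clH Dd) A B C D M n f U V U' V' W Y W' Y'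
  refine ⟨h2 ▸ h1, ?_⟩
  have h4 : cl _ (h2 ▸ h1 : MeromorphicOn (Ax (R := ℂ → ℂ) A B C D M n f (fun j z => u z j)
      (fun j z => v z j) (deriv fun w => u w 0) (deriv fun w => v w 0) (wr u) (wr v)
      (deriv (wr u)) (deriv (wr v))) Dd.U) = clH Dd (Ax A B C D M n f U V U' V' W Y W' Y') := by
    change _ = cl _ _
    congr 1
    exact h2.symm
  rw [h4, h3]
  have e1 : clH Dd W = wrA (MDer Dd) (clv hu) := cl_wr hu (wr_mero hu)
  have e2 : clH Dd Y = wrA (MDer Dd) (clv hv) := cl_wr hv (wr_mero hv)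
  have e3 : clH Dd U' = MDer Dd (clv hu 0) := cl_deriv (hu 0) _
  have e4 : clH Dd V' = MDer Dd (clv hv 0) := cl_deriv (hv 0) _
  have e5 : clH Dd W' = MDer Dd (wrA (MDer Dd) (clv hu)) := by
    rw [← cl_wr hu (wr_mero hu)]
    exact cl_deriv (wr_mero hu) _
  have e6 : clH Dd Y' = MDer Dd (wrA (MDer Dd) (clv hv)) := by
    rw [← cl_wr hv (wr_mero hv)]
    exact cl_deriv (wr_mero hv) _
  rw [e1, e2, e3, e4, e5, e6]
  rfl

end Pool.Agent.K9h12.GP
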