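import Pool.Agent.K9h12.GP.Cong
import Pool.Agent.K9h12.GP.Mer

/-!
The orders of the auxiliary form.
-/

set_option autoImplicit false

open FF Polynomial

namespace Pool.Agent.K9h12.GP

open Pool.Agent.W603.LV Pool.Agent.W602.GT Pool.Agent.K9h12.SH Pool.Agent.K9h12.SG

variable {L : Type} [Field L] [Algebra ℂ L] {P : Place ℂ L} {D : Derivation ℂ L L}

/-- the orders in one variable -/
theorem loc_coord (h : Nice P D) {A : Dat} (hsep : A.P.Separable) (hdeg : A.P.natDegree = A.p + 1)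
    {u : Fin 2 → L} {x : L} (hu : u 0 ≠ 0)
    (hx : u 1 = u 0 * x) (h0 : Ge P 0 (u 0)) (h1 : Ge P 0 (u 1))
    (hp : P.ord (u 0) = 0 ∨ P.ord (u 1) = 0) (hD : D x ≠ 0) :
    ∃ e ρ s : ℤ, Cd P D A u x e ρ s := by
  have hc := const_of_eq hD
  have hP0 : A.P ≠ 0 := by
    intro h0
    rw [h0] at hdeg
    simp at hdeg
  have hx0 : x ≠ 0 := fun h0 => hc 0 (by rw [h0, map_zero])
  have hu1 : u 1 ≠ 0 := by rw [hx]; exact mul_ne_zero hu hx0
  have ha := ord_poly P hc hP0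
  have hF : A.F u = u 0 ^ (A.p + 1) * aeval x A.P := hm_eq hdeg.le hx
  have hFne : A.F u ≠ 0 := by rw [hF]; exact mul_ne_zero (pow_ne_zero _ hu) ha.1
  have hoF : P.ord (A.F u) = (A.p + 1 : ℤ) * P.ord (u 0) + P.ord (aeval x A.P) := by
    rw [hF, P.ord_mul (pow_ne_zero _ hu) ha.1, P.ord_pow]
    push_cast
    ring
  have hw := wrA_eq D hx
  have hwne : wrA D u ≠ 0 := by rw [hw]; exact mul_ne_zero (pow_ne_zero _ hu) hD
  have how : P.ord (wrA D u) = 2 * P.ord (u 0) + P.ord (D x) := by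
    rw [hw, P.ord_mul (pow_ne_zero _ hu) hD, P.ord_pow]
    push_cast
    ring
  have hou1 : P.ord (u 1) = P.ord (u 0) + P.ord x := by rw [hx, P.ord_mul hu hx0]
  have h0' := h0.resolve_left hu
  have h1' := h1.resolve_left hu1
  -- the orders
  have key : 0 ≤ P.ord (A.F u) ∧ 0 ≤ P.ord (wrA D u) ∧ P.ord (A.F u) - 1 ≤ P.ord (wrA D u) ∧
      (0 < P.ord (A.F u) → P.ord (u 0) = 0) ∧ (P.ord (u 0) = 0 → Ge P 0 x ∧
        P.ord (aeval x A.P) = P.ord (A.F u)) := by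
    rcases h0'.eq_or_lt with hs | hs
    · -- finite points
      have hxr : Ge P 0 x := Or.inr (by omega)
      have hP1 : 0 ≤ P.ord (aeval x A.P) := (ge_poly hxr _).resolve_left ha.1
      have hDx := (h.reg x hxr).resolve_left hD
      rw [hoF, how, ← hs]
      refine ⟨by omega, by omega, ?_, fun _ => rfl, fun _ => ⟨hxr, by omega⟩⟩
      by_cases he : 0 < P.ord (aeval x A.P)
      · have h2 := der_unit hsep hxr he
        have h3 := (h.ord_der ha.1 (by omega)).2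
        rw [der_poly, P.ord_mul h2.1 hD, h2.2] at h3
        omega
      · omega
    · -- poles
      have h2 : P.ord x = -P.ord (u 0) := by omega
      have h3 := ord_poly_inf P hc hP0 h2 hs
      rw [hdeg] at h3
      push_cast at h3
      have h4 : P.ord (A.F u) = 0 := by rw [hoF, h3]; ring
      have h5 := (h.ord_der hx0 (by omega)).2
      refine ⟨by omega, by omega, by omega, fun h6 => by omega, fun h6 => by omega⟩
  obtain ⟨k1, k2, k3, k4, k5⟩ := key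
  have gF : Ge P (P.ord (A.F u)) (A.F u) := ge_ord P _
  have gw : Ge P (P.ord (wrA D u)) (wrA D u) := ge_ord P _
  have gu : Ge P (P.ord (u 0)) (u 0) := ge_ord P _
  have gK : Ge P 0 (hm (A.d + 1) A.K u) := ge_hm _ _ h0 h1
  have gN : Ge P 0 (hm A.d A.N u) := ge_hm _ _ h0 h1
  have gP : Ge P 0 (hm A.p (derivative A.P) u) := ge_hm _ _ h0 h1
  have gF0 : Ge P 0 (A.F u) := gF.mono k1
  have gw0 : Ge P 0 (wrA D u) := gw.mono k2
  have gDw := h.ge_der gw
  have gDw0 := h.reg _ gw0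
  have gDu := h.reg _ h0
  have g2 : Ge P 0 (2 : L) := by
    have := Ge.const (P := P) (2 : ℂ)
    rwa [map_ofNat] at this
  have e1 : A.phi u (D (u 0)) (wrA D u) (D (wrA D u)) =
      u 0 * hm (A.d + 1) A.K u * A.F u * D (wrA D u) -
      2 * D (u 0) * hm (A.d + 1) A.K u * A.F u * wrA D u +
      (hm A.d A.N u * A.F u - 2 * hm (A.d + 1) A.K u * hm A.p (derivative A.P) u) *
        wrA D u ^ 2 := rfl
  have t3 : Ge P 0 (hm A.d A.N u * A.F u -
      2 * hm (A.d + 1) A.K u * hm A.p (derivative A.P) u) :=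
    ((gN.mul gF0).mono (by omega)).sub (((g2.mul gK).mul gP).mono (by omega))
  refine ⟨_, _, _, hFne, rfl, rfl, rfl, k1, k2, h0', k3, k4, k5, ?_, ?_, ?_⟩
  · have e1 : A.chi u (wrA D u) = u 0 * hm (A.d + 1) A.K u * A.F u * wrA D u := rfl
    rw [e1]
    exact (((gu.mul gK).mul gF).mul gw).mono (by omega)
  · rw [e1]
    have t1 : Ge P 0 (u 0 * hm (A.d + 1) A.K u * A.F u * D (wrA D u)) :=
      (((h0.mul gK).mul gF0).mul gDw0).mono (by omega)
    have t2 : Ge P 0 (2 * D (u 0) * hm (A.d + 1) A.K u * A.F u * wrA D u) :=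
      ((((g2.mul gDu).mul gK).mul gF0).mul gw0).mono (by omega)
    have t4 : Ge P 0 ((hm A.d A.N u * A.F u -
        2 * hm (A.d + 1) A.K u * hm A.p (derivative A.P) u) * wrA D u ^ 2) :=
      (t3.mul (gw0.pow 2)).mono (by simp)
    exact (t1.sub t2).add t4
  · rw [e1]
    have t1 : Ge P (P.ord (A.F u) + P.ord (wrA D u) - 1)
        (u 0 * hm (A.d + 1) A.K u * A.F u * D (wrA D u)) :=
      (((h0.mul gK).mul gF).mul gDw).mono (by omega)
    have t2 : Ge P (P.ord (A.F u) + P.ord (wrA D u) - 1)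
        (2 * D (u 0) * hm (A.d + 1) A.K u * A.F u * wrA D u) :=
      ((((g2.mul gDu).mul gK).mul gF).mul gw).mono (by omega)
    have t4 : Ge P (P.ord (A.F u) + P.ord (wrA D u) - 1) ((hm A.d A.N u * A.F u -
        2 * hm (A.d + 1) A.K u * hm A.p (derivative A.P) u) * wrA D u ^ 2) :=
      (t3.mul (gw.pow 2)).mono (by push_cast; omega)
    exact (t1.sub t2).add t4

theorem ge_hb (C E : ℕ) (G : MvPolynomial (Fin 2) ℂ) {u v : Fin 2 → L} (hu : ∀ j, Ge P 0 (u j))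
    (hv : ∀ j, Ge P 0 (v j)) : Ge P 0 (hb C E G u v) := by
  unfold hb
  refine Ge.sum _ _ fun m _ => ?_
  exact ((Ge.const _).mul ((((hu 1).pow _).mul ((hu 0).pow _)).mul
    (((hv 1).pow _).mul ((hv 0).pow _)))).mono (by simp)

/-- the jet differential of a family of coefficients -/
noncomputable def FtA (A B : Dat) (C E M : ℕ) (f : ℕ × ℕ → MvPolynomial (Fin 2) ℂ)
    (D : Derivation ℂ L L) (u v : Fin 2 → L) : L :=
  Ft A B C E M f u v (D (u 0)) (D (v 0)) (wrA D u) (wrA D v) (D (wrA D u)) (D (wrA D v))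

/-- the jet differential of a family of coefficients in a pair of functions -/
noncomputable def Ft1 (A B : Dat) (C E M : ℕ) (f : ℕ × ℕ → MvPolynomial (Fin 2) ℂ)
    (D : Derivation ℂ L L) (x y : L) : L :=
  Ft A B C E M f ![1, x] ![1, y] 0 0 (D x) (D y) (D (D x)) (D (D y))

theorem FtA_eq {A B : Dat} (hA : A.d = 0) (hB : B.d = 0) {C E M : ℕ}
    {f : ℕ × ℕ → MvPolynomial (Fin 2) ℂ} (hf : Fm C E M f) (D : Derivation ℂ L L)
    {u v : Fin 2 → L} {x y : L} (hx : u 1 = u 0 * x) (hy : v 1 = v 0 * y) :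
    FtA A B C E M f D u v = u 0 ^ (C + (A.p + 5) * M) * v 0 ^ (E + (B.p + 5) * M) *
      Ft1 A B C E M f D x y := by
  obtain ⟨s1, s2, s3, s4⟩ := scaleA D hx
  obtain ⟨t1, t2, t3, t4⟩ := scaleA D hy
  exact Ft_scale hA hB hf s1 t1 s2 t2 s3 s4 t3 t4

theorem AxA_eq {A B : Dat} (hA : A.d = 0) (hB : B.d = 0) {C E M : ℕ} (n : ℕ)
    {f : ℕ × ℕ → MvPolynomial (Fin 2) ℂ} (hf : Fm C E M f) (D : Derivation ℂ L L)
    {u v : Fin 2 → L} {x y : L} (hx : u 1 = u 0 * x) (hy : v 1 = v 0 * y) :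
    AxA A B C E M n f D u v = u 0 ^ (n * (C + (A.p + 5) * M + 5)) *
      v 0 ^ (n * (E + (B.p + 5) * M + 5)) * (Ft1 A B C E M f D x y ^ n * (D x * D y) ^ (2 * n)) := by
  obtain ⟨s1, s2, s3, s4⟩ := scaleA D hx
  obtain ⟨t1, t2, t3, t4⟩ := scaleA D hy
  rw [show AxA A B C E M n f D u v = _ from Ax_scale hA hB n hf s1 t1 s2 t2 s3 s4 t3 t4]
  unfold Ax Ft1
  simp

/-- the jet differential in terms of the second order part -/
theorem Jet_dat (A B : ℂ[X]) (D : Derivation ℂ L L) {x y : L} (hx : D x ≠ 0)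
    (hy : D y ≠ 0) (hA0 : aeval x A ≠ 0) (hB0 : aeval y B ≠ 0) (hA : 1 ≤ A.natDegree)
    (hB : 1 ≤ B.natDegree) :
    Jet (dat A) (dat B) ![1, x] ![1, y] 0 0 (D x) (D y) (D (D x)) (D (D y)) =
      aeval x A * aeval y B * (D x * D y) * B0 A B D x y := by
  have h1 : ∀ {F : ℂ[X]}, 1 ≤ F.natDegree → F.natDegree ≤ (dat F).p + 1 := by
    intro F hF
    change F.natDegree ≤ F.natDegree - 1 + 1
    omega
  unfold Jet Dat.chi Dat.phi Chi Phi
  have e1 : ∀ {F : ℂ[X]} (z : L), hm ((dat F).d + 1) (dat F).K ![1, z] = 1 := by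
    intro F z
    rw [hm_one (by simp [dat]) z]
    simp [dat]
  have e2 : ∀ {F : ℂ[X]} (z : L), 1 ≤ F.natDegree → hm ((dat F).p + 1) (dat F).P ![1, z] =
      aeval z F := fun {F} z hF => hm_one (h1 hF) z
  have e3 : ∀ {F : ℂ[X]} (z : L), hm (dat F).p (derivative (dat F).P) ![1, z] =
      aeval z (derivative F) := fun {F} z => hm_one (natDegree_derivative_le F) z
  have e4 : ∀ {F : ℂ[X]} (z : L), hm (dat F).d (dat F).N ![1, z] = 0 := by
    intro F z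
    simp [hm, dat]
  rw [e1, e1, e2 x hA, e2 y hB, e3, e3, e4, e4]
  unfold B0
  simp only [Matrix.cons_val_zero]
  field_simp
  ring

theorem Ft1_eq {A B : ℂ[X]} (hA : 1 ≤ A.natDegree) (hB : 1 ≤ B.natDegree) {C E M : ℕ}
    {f : ℕ × ℕ → MvPolynomial (Fin 2) ℂ} (hf : Fm C E M f) (D : Derivation ℂ L L) {x y : L}
    (hx : D x ≠ 0) (hy : D y ≠ 0) (hA0 : aeval x A ≠ 0) (hB0 : aeval y B ≠ 0) :
    Ft1 (dat A) (dat B) C E M f D x y = (aeval x A * aeval y B * (D x * D y)) ^ M *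
      (D x ^ M * Ev M f x y (D y / D x) (B0 A B D x y / D x)) := by
  have h1 : ∀ {F : ℂ[X]}, 1 ≤ F.natDegree → F.natDegree ≤ (dat F).p + 1 := by
    intro F hF
    change F.natDegree ≤ F.natDegree - 1 + 1
    omega
  unfold Ft1 Ft
  rw [Ev_eq hf, Finset.mul_sum, Finset.mul_sum]
  refine Finset.sum_congr rfl fun k hk => ?_
  rw [Jet_dat A B D hx hy hA0 hB0 hA hB, hb_one]
  have e2 : ∀ {F : ℂ[X]} (z : L), 1 ≤ F.natDegree → (dat F).F ![1, z] = aeval z F :=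
    fun {F} z hF => hm_one (h1 hF) z
  rw [e2 x hA, e2 y hB]
  obtain ⟨j, hj⟩ : ∃ j, M = k.1 + k.2 + j := ⟨M - (k.1 + k.2), by have := mem_trn.1 hk; omega⟩
  rw [show M - k.1 - k.2 = j by omega, show M - k.2 = k.1 + j by omega,
    show (aeval x A * aeval y B * (D x * D y)) ^ M =
      (aeval x A * aeval y B * (D x * D y)) ^ (k.2 + (k.1 + j)) by congr 1; omega,
    show D x ^ M = D x ^ (k.1 + k.2 + j) by congr 1]
  simp only [Matrix.cons_val_zero, one_pow, mul_one, div_pow, mul_pow, pow_add]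
  field_simp

theorem dat_p {A : ℂ[X]} (hA : 1 ≤ A.natDegree) : (dat A).P.natDegree = (dat A).p + 1 := by
  change A.natDegree = A.natDegree - 1 + 1
  omega

/-- **The order of the form.** -/
theorem loc_ft (h : Nice P D) {p q : ℕ} {A B : ℂ[X]} {α : Fin p → ℂ} {β : Fin q → ℂ}
    (hA : Rts A α) (hB : Rts B β) (hp : 1 ≤ A.natDegree) (hq : 1 ≤ B.natDegree) {C E M : ℕ}
    {f : ℕ × ℕ → MvPolynomial (Fin 2) ℂ} (hf : FmL C E M α β (fv β) f) {u v : Fin 2 → L}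
    {x y : L} (hux : u 1 = u 0 * x) (hvy : v 1 = v 0 * y) (hD : D x ≠ 0) (hD' : D y ≠ 0)
    (hu : ∀ j, Ge P 0 (u j)) (hv : ∀ j, Ge P 0 (v j))
    {e ρ s e' ρ' s' : ℤ} (h1 : Cd P D (dat A) u x e ρ s) (h2 : Cd P D (dat B) v y e' ρ' s') :
    Ge P 0 (FtA (dat A) (dat B) C E M f D u v) ∧
    Ge P (M * (e + ρ + (e' + ρ') - 1)) (FtA (dat A) (dat B) C E M f D u v) ∧
    (1 ≤ s + e + ρ → 1 ≤ s' + e' + ρ' → 1 ≤ e + ρ + (e' + ρ') →
      Ge P M (FtA (dat A) (dat B) C E M f D u v)) ∧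
    (e = 1 → e' = 1 → Ge P (2 * M + 1) (FtA (dat A) (dat B) C E M f D u v)) := by
  have s1 := h1.s0
  have s2 := h2.s0
  have p1 := h1.e0
  have p2 := h2.e0
  have q1 := h1.ρ0
  have q2 := h2.ρ0
  have c0 : Ge P 0 ((dat A).chi u (wrA D u)) := h1.chi.mono (by omega)
  have c0' : Ge P 0 ((dat B).chi v (wrA D v)) := h2.chi.mono (by omega)
  -- the order of the jet differential
  have j0 : Ge P 0 (JetA (dat A) (dat B) D u v) :=
    ((c0'.mul h1.phi).mono (by omega)).sub ((c0.mul h2.phi).mono (by omega))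
  have j1 : Ge P (e + ρ + (e' + ρ') - 1) (JetA (dat A) (dat B) D u v) :=
    ((h2.chi.mul h1.phi').mono (by omega)).sub ((h1.chi.mul h2.phi').mono (by omega))
  have j2 : ∀ n, n ≤ s + e + ρ → n ≤ s' + e' + ρ' → Ge P n (JetA (dat A) (dat B) D u v) :=
    fun n hn hn' => ((h2.chi.mul h1.phi).mono (by omega)).sub
      ((h1.chi.mul h2.phi).mono (by omega))
  have gw : Ge P 0 (wrA D u) := (ge_ord P _).mono (by rw [h1.ow]; omega)
  have gw' : Ge P 0 (wrA D v) := (ge_ord P _).mono (by rw [h2.ow]; omega)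
  have gt1 : Ge P 0 (wrA D u * v 0 ^ 2) := (gw.mul ((hv 0).pow 2)).mono (by simp)
  have gt2 : Ge P 0 (wrA D v * u 0 ^ 2) := (gw'.mul ((hu 0).pow 2)).mono (by simp)
  have gΦ : Ge P (e + ρ + (e' + ρ')) ((dat A).F u * (dat B).F v * (wrA D u * wrA D v)) := by
    have a1 : Ge P e ((dat A).F u) := Or.inr h1.oF.ge
    have a2 : Ge P e' ((dat B).F v) := Or.inr h2.oF.ge
    have a3 : Ge P ρ (wrA D u) := Or.inr h1.ow.ge
    have a4 : Ge P ρ' (wrA D v) := Or.inr h2.ow.ge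
    exact ((a1.mul a2).mul (a3.mul a4)).mono (by omega)
  -- the order of a term
  have term : ∀ (a b : ℤ), Ge P a (JetA (dat A) (dat B) D u v) →
      Ge P b ((dat A).F u * (dat B).F v * (wrA D u * wrA D v)) → ∀ m : ℤ,
      (∀ l : ℕ, l ≤ M → m ≤ l * a + (M - l : ℕ) * b) →
      Ge P m (FtA (dat A) (dat B) C E M f D u v) := by
    intro a b ha hb' m hm
    unfold FtA Ft
    refine Ge.sum _ _ fun k hk => ?_
    have hkM := mem_trn.1 hk
    have g1 : Ge P a (Jet (dat A) (dat B) u v (D (u 0)) (D (v 0)) (wrA D u) (wrA D v)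
      (D (wrA D u)) (D (wrA D v))) := ha
    have g2 := (ge_hb C E (f k) hu hv).mul ((((gt1.pow (M - k.1 - k.2)).mul (gt2.pow k.1))).mul
      ((g1.pow k.2).mul (hb'.pow (M - k.2))))
    refine g2.mono ?_
    have := hm k.2 (by omega)
    simpa using this
  refine ⟨?_, ?_, fun hs hs' hσ => ?_, fun he he' => ?_⟩
  · refine term 0 0 j0 (gΦ.mono (by omega)) 0 fun l hl => by simp
  · refine term _ _ j1 (gΦ.mono (by omega : e + ρ + (e' + ρ') - 1 ≤ _)) _ fun l hl => ?_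
    rw [← add_mul]
    apply le_of_eq
    congr 1
    push_cast [Nat.cast_sub hl]
    ring
  · refine term 1 1 (j2 1 hs hs') (gΦ.mono hσ) _ fun l hl => ?_
    push_cast [Nat.cast_sub hl]
    linarith
  · have z1 := h1.es (by omega)
    have z2 := h2.es (by omega)
    obtain ⟨r1, o1⟩ := h1.reg z1
    obtain ⟨r2, o2⟩ := h2.reg z2
    have hA0 : A ≠ 0 := by
      rintro rfl
      simp at hp
    have hB0 : B ≠ 0 := by
      rintro rfl
      simp at hq
    have n1 := (ord_poly P (const_of_eq hD) hA0).1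
    have n2 := (ord_poly P (const_of_eq hD') hB0).1
    have o1' : P.ord (aeval x A) = 1 := by
      have : P.ord (aeval x A) = e := o1
      omega
    have o2' : P.ord (aeval y B) = 1 := by
      have : P.ord (aeval y B) = e' := o2
      omega
    have h3 := ev_one h hA hB hf r1 r2 n1 n2 o1' o2'
    rw [FtA_eq rfl rfl hf.fam D hux hvy, Ft1_eq hp hq hf.fam D hD hD' n1 n2]
    have gA : Ge P 1 (aeval x A) := Or.inr o1'.ge
    have gB : Ge P 1 (aeval y B) := Or.inr o2'.ge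
    have gX := h.reg x r1
    have gY := h.reg y r2
    exact ((((hu 0).pow _).mul ((hv 0).pow _)).mul ((((gA.mul gB).mul (gX.mul gY)).pow M).mul
      ((gX.pow M).mul h3))).mono (by push_cast; simp; linarith)

/-- the numerical estimate -/
theorem num_est {M n a a' e e' ρ ρ' s s' t : ℤ} (hM : 0 ≤ M) (hn : 0 ≤ n) (ha : 0 ≤ a)
    (ha' : 0 ≤ a') (haa : a + a' ≤ n) (e0 : 0 ≤ e) (e0' : 0 ≤ e') (ρ0 : 0 ≤ ρ) (ρ0' : 0 ≤ ρ')
    (s0 : 0 ≤ s) (s0' : 0 ≤ s') (ρe : e - 1 ≤ ρ) (ρe' : e' - 1 ≤ ρ') (es : 0 < e → s = 0)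
    (es' : 0 < e' → s' = 0) (t0 : 0 ≤ t) (t1 : M * (e + ρ + (e' + ρ') - 1) ≤ t)
    (t2 : 1 ≤ s + e + ρ → 1 ≤ s' + e' + ρ' → 1 ≤ e + ρ + (e' + ρ') → M ≤ t)
    (t3 : e = 1 → e' = 1 → 2 * M + 1 ≤ t) :
    (n * M + a) * e + (n * M + a') * e' - n * (M + 1) ≤ n * (t + 2 * (ρ + ρ') + (s + s')) ∧
    (¬ (s = 0 ∧ s' = 0 ∧ e + e' = 1) →
      (n * M + a) * e + (n * M + a') * e' ≤ n * (t + 2 * (ρ + ρ') + (s + s'))) := by
  have hMn : 0 ≤ n * (M + 1) := mul_nonneg hn (by omega)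
  -- it suffices to estimate the difference
  have key : ∀ S : ℤ, S ≤ t + 2 * (ρ + ρ') + (s + s') - M * (e + e') → a * e + a' * e' ≤ n * S →
      (n * M + a) * e + (n * M + a') * e' ≤ n * (t + 2 * (ρ + ρ') + (s + s')) := by
    intro S hS h
    have := mul_le_mul_of_nonneg_left hS hn
    linarith
  have strong : ¬ (s = 0 ∧ s' = 0 ∧ e + e' = 1) →
      (n * M + a) * e + (n * M + a') * e' ≤ n * (t + 2 * (ρ + ρ') + (s + s')) := by
    intro hbad
    rcases (by omega : e = 0 ∧ e' = 0 ∨ e = 0 ∧ e' = 1 ∨ e = 0 ∧ 2 ≤ e' ∨ e = 1 ∧ e' = 0 ∨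
      2 ≤ e ∧ e' = 0 ∨ e = 1 ∧ e' = 1 ∨ 1 ≤ e ∧ 1 ≤ e' ∧ 3 ≤ e + e') with
      ⟨h3, h4⟩ | ⟨h3, h4⟩ | ⟨h3, h4⟩ | ⟨h3, h4⟩ | ⟨h3, h4⟩ | ⟨h3, h4⟩ | ⟨h3, h4, h5⟩
    · refine key 0 ?_ ?_
      · rw [h3, h4]; simp; omega
      · rw [h3, h4]; simp
    · have h6 := t2 (by omega) (by omega) (by omega)
      refine key 1 ?_ ?_
      · rw [h3, h4]; omega
      · rw [h3, h4]; omega
    · refine key e' ?_ ?_
      · have h7 : 0 ≤ M * (ρ + ρ' - 1) := mul_nonneg hM (by omega)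
        rw [h3] at t1 ⊢
        have h8 : M * (0 + ρ + (e' + ρ') - 1) = M * (ρ + ρ' - 1) + M * (0 + e') := by ring
        omega
      · rw [h3, mul_zero, zero_add]
        exact mul_le_mul_of_nonneg_right (by omega) e0'
    · have h6 := t2 (by omega) (by omega) (by omega)
      refine key 1 ?_ ?_
      · rw [h3, h4]; omega
      · rw [h3, h4]; omega
    · refine key e ?_ ?_
      · have h7 : 0 ≤ M * (ρ + ρ' - 1) := mul_nonneg hM (by omega)
        rw [h4] at t1 ⊢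
        have h8 : M * (e + ρ + (0 + ρ') - 1) = M * (ρ + ρ' - 1) + M * (e + 0) := by ring
        omega
      · rw [h4, mul_zero, add_zero]
        exact mul_le_mul_of_nonneg_right (by omega) e0
    · have h6 := t3 h3 h4
      refine key 1 ?_ ?_
      · rw [h3, h4]; omega
      · rw [h3, h4]; omega
    · refine key (e + e' - 1) ?_ ?_
      · have h7 : 0 ≤ M * (ρ + ρ' - 1) := mul_nonneg hM (by omega)
        have h8 : M * (e + ρ + (e' + ρ') - 1) = M * (ρ + ρ' - 1) + M * (e + e') := by ring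
        omega
      · have h9 : a * e ≤ a * (e + e' - 1) := mul_le_mul_of_nonneg_left (by omega) ha
        have h10 : a' * e' ≤ a' * (e + e' - 1) := mul_le_mul_of_nonneg_left (by omega) ha'
        have h11 : (a + a') * (e + e' - 1) ≤ n * (e + e' - 1) :=
          mul_le_mul_of_nonneg_right haa (by omega)
        linarith
  refine ⟨?_, strong⟩
  by_cases hbad : s = 0 ∧ s' = 0 ∧ e + e' = 1
  · have h5 : 0 ≤ n * (t + 2 * (ρ + ρ') + (s + s')) := mul_nonneg hn (by omega)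
    rcases (by omega : e = 1 ∧ e' = 0 ∨ e = 0 ∧ e' = 1) with ⟨h3, h4⟩ | ⟨h3, h4⟩
    · rw [h3, h4]
      linarith
    · rw [h3, h4]
      linarith
  · have := strong hbad
    linarith

/-- the numerical conditions on the weights -/
structure Wg (A B : Dat) (C E M n a a' κ κ' : ℕ) : Prop where
  sum : a + a' ≤ n
  hκ : (n * M + a) * (A.p + 1) = n * (C + (A.p + 5) * M + 5) + κ
  hκ' : (n * M + a') * (B.p + 1) = n * (E + (B.p + 5) * M + 5) + κ'
  κ0 : 0 < κ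
  κ0' : 0 < κ'
  n0 : 0 < n

/-- **The order of the auxiliary form.** -/
theorem loc_ax (h : Nice P D) {p q : ℕ} {A B : ℂ[X]} {α : Fin p → ℂ} {β : Fin q → ℂ}
    (hA : Rts A α) (hB : Rts B β) (hp : 1 ≤ A.natDegree) (hq : 1 ≤ B.natDegree) {C E M : ℕ}
    {f : ℕ × ℕ → MvPolynomial (Fin 2) ℂ} (hf : FmL C E M α β (fv β) f) {u v : Fin 2 → L}
    {x y : L} (hu0 : u 0 ≠ 0) (hv0 : v 0 ≠ 0) (hux : u 1 = u 0 * x) (hvy : v 1 = v 0 * y)
    (hD : D x ≠ 0) (hD' : D y ≠ 0)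
    (hu : ∀ j, Ge P 0 (u j)) (hv : ∀ j, Ge P 0 (v j))
    (hJ : Ft1 (dat A) (dat B) C E M f D x y ≠ 0)
    {e ρ s e' ρ' s' : ℤ} (h1 : Cd P D (dat A) u x e ρ s) (h2 : Cd P D (dat B) v y e' ρ' s')
    {n a a' : ℕ} (haa : a + a' ≤ n) :
    AxA (dat A) (dat B) C E M n f D u v ≠ 0 ∧
    (n * M + a : ℕ) * e + (n * M + a' : ℕ) * e' - n * (M + 1) ≤
      P.ord (AxA (dat A) (dat B) C E M n f D u v) ∧
    ((Ge P 0 x → Ge P 0 y → P.ord (aeval x A) + P.ord (aeval y B) ≠ 1) →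
      (n * M + a : ℕ) * e + (n * M + a' : ℕ) * e' ≤
        P.ord (AxA (dat A) (dat B) C E M n f D u v)) := by
  obtain ⟨j0, j1, j2, j3⟩ := loc_ft h hA hB hp hq hf hux hvy hD hD' hu hv h1 h2
  set T := FtA (dat A) (dat B) C E M f D u v with hT
  have hTne : T ≠ 0 := by
    rw [hT, FtA_eq rfl rfl hf.fam D hux hvy]
    exact mul_ne_zero (mul_ne_zero (pow_ne_zero _ hu0) (pow_ne_zero _ hv0)) hJ
  have hw1 : wrA D u ≠ 0 := by
    rw [wrA_eq D hux]; exact mul_ne_zero (pow_ne_zero _ hu0) hD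
  have hw2 : wrA D v ≠ 0 := by
    rw [wrA_eq D hvy]; exact mul_ne_zero (pow_ne_zero _ hv0) hD'
  have hA1 : AxA (dat A) (dat B) C E M n f D u v = T ^ n * (wrA D u * wrA D v) ^ (2 * n) *
      (u 0 * v 0) ^ n := rfl
  have n1 : T ^ n ≠ 0 := pow_ne_zero _ hTne
  have n2 : (wrA D u * wrA D v) ^ (2 * n) ≠ 0 := pow_ne_zero _ (mul_ne_zero hw1 hw2)
  have n3 : (u 0 * v 0) ^ n ≠ 0 := pow_ne_zero _ (mul_ne_zero hu0 hv0)
  have hord : P.ord (AxA (dat A) (dat B) C E M n f D u v) = n * (P.ord T + 2 * (ρ + ρ') +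
      (s + s')) := by
    rw [hA1, P.ord_mul (mul_ne_zero n1 n2) n3, P.ord_mul n1 n2, P.ord_pow, P.ord_pow, P.ord_pow,
      P.ord_mul hw1 hw2, P.ord_mul hu0 hv0, h1.ow, h2.ow, h1.os, h2.os]
    push_cast
    ring
  have hest := num_est (M := M) (n := n) (a := a) (a' := a') (t := P.ord T)
    (Int.natCast_nonneg _) (Int.natCast_nonneg _) (Int.natCast_nonneg _) (Int.natCast_nonneg _)
    (by exact_mod_cast haa) h1.e0 h2.e0 h1.ρ0 h2.ρ0 h1.s0 h2.s0 h1.ρe h2.ρe h1.es h2.es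
    (j0.resolve_left hTne) (j1.resolve_left hTne)
    (fun a1 a2 a3 => (j2 a1 a2 a3).resolve_left hTne)
    (fun a1 a2 => (j3 a1 a2).resolve_left hTne)
  refine ⟨by rw [hA1]; exact mul_ne_zero (mul_ne_zero n1 n2) n3, ?_, fun hst => ?_⟩
  · rw [hord]
    push_cast
    exact hest.1
  · rw [hord]
    push_cast
    refine hest.2 ?_
    rintro ⟨z1, z2, z3⟩
    have r1 := h1.reg z1
    have r2 := h2.reg z2
    refine hst r1.1 r2.1 ?_
    have e1 : P.ord (aeval x A) = e := r1.2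
    have e2 : P.ord (aeval y B) = e' := r2.2
    rw [e1, e2]
    exact z3

end Pool.Agent.K9h12.GP
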