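import Pool.Agent.K9h12.GP.Fld
import Pool.Agent.K9h12.SH.Ord

/-!
Vector fields moving the roots of a polynomial, acting on the coefficients of forms.
-/

set_option autoImplicit false

open Polynomial

namespace Pool.Agent.K9h12.GP

open Pool.Agent.K9h12.SH

variable {p : ℕ}

/-- the variables: the roots and the two coordinates -/
abbrev VV (p : ℕ) : Type := Fin p ⊕ Fin 2

/-- the polynomials in the roots and the two coordinates -/
abbrev TT (p : ℕ) : Type := MvPolynomial (VV p) ℂ

/-- the rational functions in the roots and the two coordinates -/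
abbrev QQ (p : ℕ) : Type := KK (VV p)

/-- the roots -/
noncomputable def tt (i : Fin p) : QQ p := vr (Sum.inl i)

/-- the first coordinate -/
noncomputable def xx : QQ p := vr (Sum.inr 0)

/-- the second coordinate -/
noncomputable def yy : QQ p := vr (Sum.inr 1)

theorem qq_ext {D D' : Derivation ℂ (QQ p) (QQ p)} (h1 : ∀ i, D (tt i) = D' (tt i))
    (h2 : D xx = D' xx) (h3 : D yy = D' yy) : D = D' := by
  refine kk_ext fun v => ?_
  rcases v with i | j
  · exact h1 i
  · fin_cases j
    · exact h2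
    · exact h3

theorem vr_inj : Function.Injective (vr : VV p → QQ p) := kk_basis.1.injective

theorem xt (i : Fin p) : (xx : QQ p) - tt i ≠ 0 := by
  intro h
  have h1 := vr_inj (sub_eq_zero.1 h)
  cases h1

theorem tt_ne {i j : Fin p} (h : i ≠ j) : tt i - tt j ≠ 0 := by
  intro h1
  have h2 := vr_inj (sub_eq_zero.1 h1)
  exact h (Sum.inl.inj h2)

/-- the vector field on the roots and the first coordinate -/
noncomputable def Dl (Θ : (QQ p)[X]) : Derivation ℂ (QQ p) (QQ p) :=
  (kk_der (Sum.elim (fun i => eval (tt i) Θ) fun j => if j = 0 then eval xx Θ else 0)).choose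

theorem Dl_t (Θ : (QQ p)[X]) (i : Fin p) : Dl Θ (tt i) = eval (tt i) Θ :=
  (kk_der (Sum.elim (fun i => eval (tt i) Θ) fun j =>
    if j = 0 then eval xx Θ else 0)).choose_spec (Sum.inl i)

theorem Dl_x (Θ : (QQ p)[X]) : Dl Θ xx = eval xx Θ :=
  (kk_der (Sum.elim (fun i => eval (tt i) Θ) fun j =>
    if j = 0 then eval xx Θ else 0)).choose_spec (Sum.inr 0)

theorem Dl_y (Θ : (QQ p)[X]) : Dl Θ yy = 0 :=
  (kk_der (Sum.elim (fun i => eval (tt i) Θ) fun j =>
    if j = 0 then eval xx Θ else 0)).choose_spec (Sum.inr 1)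

theorem Dl_add (Θ H : (QQ p)[X]) : Dl (Θ + H) = Dl Θ + Dl H := by
  refine qq_ext (fun i => ?_) ?_ ?_
  · simp only [Derivation.add_apply, Dl_t, eval_add]
  · simp only [Derivation.add_apply, Dl_x, eval_add]
  · simp only [Derivation.add_apply, Dl_y, add_zero]

theorem Dl_smul (a : QQ p) (Θ : (QQ p)[X]) : Dl (C a * Θ) = a • Dl Θ := by
  refine qq_ext (fun i => ?_) ?_ ?_
  · simp only [Derivation.smul_apply, Dl_t, eval_mul, eval_C, smul_eq_mul]
  · simp only [Derivation.smul_apply, Dl_x, eval_mul, eval_C, smul_eq_mul]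
  · simp only [Derivation.smul_apply, Dl_y, smul_zero]

theorem Dl_zero {Θ : (QQ p)[X]} (h1 : ∀ i, eval (tt i) Θ = 0) (h2 : eval xx Θ = 0) :
    Dl Θ = 0 := by
  refine qq_ext (fun i => ?_) ?_ ?_
  · rw [Dl_t, h1]; rfl
  · rw [Dl_x, h2]; rfl
  · rw [Dl_y]; rfl

/-- constant coefficients -/
noncomputable def cc (θ : ℂ[X]) : (QQ p)[X] := θ.map (algebraMap ℂ (QQ p))

theorem ev_cc (z : QQ p) (θ : ℂ[X]) : eval z (cc θ) = aeval z θ := eval_map_algebraMap _ _

theorem der_cc (θ : ℂ[X]) : derivative (cc θ : (QQ p)[X]) = cc (derivative θ) :=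
  derivative_map _ _

/-- the bracket of vector fields -/
theorem Dl_comm (θ η : ℂ[X]) (a : QQ p) : Dl (cc θ) (Dl (cc η) a) - Dl (cc η) (Dl (cc θ) a) =
    Dl (cc (θ * derivative η - derivative θ * η)) a := by
  have h : ⁅Dl (cc θ : (QQ p)[X]), Dl (cc η : (QQ p)[X])⁆ =
      Dl (cc (θ * derivative η - derivative θ * η)) := by
    refine qq_ext (fun i => ?_) ?_ ?_
    · rw [Derivation.commutator_apply, Dl_t, Dl_t, Dl_t, ev_cc, ev_cc, ev_cc, der_poly, der_poly,
        Dl_t, Dl_t, ev_cc, ev_cc, map_sub, map_mul, map_mul]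
      ring
    · rw [Derivation.commutator_apply, Dl_x, Dl_x, Dl_x, ev_cc, ev_cc, ev_cc, der_poly, der_poly,
        Dl_x, Dl_x, ev_cc, ev_cc, map_sub, map_mul, map_mul]
      ring
    · rw [Derivation.commutator_apply, Dl_y, Dl_y, Dl_y, map_zero, map_zero, sub_zero]
  rw [← h, Derivation.commutator_apply]

theorem der_div {K : Type} [Field K] [Algebra ℂ K] (D : Derivation ℂ K K) (a : K) {u : K}
    (hu : u ≠ 0) : D (a / u) = D a / u - a * D u / u ^ 2 := by
  have h1 : D (a / u * u) = a / u * D u + u * D (a / u) := by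
    rw [D.leibniz, smul_eq_mul, smul_eq_mul]
  rw [div_mul_cancel₀ _ hu] at h1
  field_simp
  field_simp at h1
  linear_combination (-1) * h1

/-- the second order part of the vector field -/
noncomputable def Rf (Θ : (QQ p)[X]) : QQ p :=
  eval xx (derivative (derivative Θ)) + 2 * ∑ i : Fin p, ((eval xx Θ - eval (tt i) Θ) /
    (xx - tt i) ^ 2 - eval xx (derivative Θ) / (xx - tt i))

theorem Rf_add (Θ H : (QQ p)[X]) : Rf (Θ + H) = Rf Θ + Rf H := by
  unfold Rf
  simp only [derivative_add, eval_add]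
  have h : ∀ i : Fin p, (eval xx Θ + eval xx H - (eval (tt i) Θ + eval (tt i) H)) /
      (xx - tt i) ^ 2 - (eval xx (derivative Θ) + eval xx (derivative H)) / (xx - tt i) =
      ((eval xx Θ - eval (tt i) Θ) / (xx - tt i) ^ 2 - eval xx (derivative Θ) / (xx - tt i)) +
      ((eval xx H - eval (tt i) H) / (xx - tt i) ^ 2 - eval xx (derivative H) / (xx - tt i)) := by
    intro i
    ring
  rw [Finset.sum_congr rfl fun i _ => h i, Finset.sum_add_distrib]
  ring

theorem Rf_smul (a : QQ p) (Θ : (QQ p)[X]) : Rf (C a * Θ) = a * Rf Θ := by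
  unfold Rf
  simp only [derivative_C_mul, eval_mul, eval_C]
  have h : ∀ i : Fin p, (a * eval xx Θ - a * eval (tt i) Θ) /
      (xx - tt i) ^ 2 - a * eval xx (derivative Θ) / (xx - tt i) =
      a * ((eval xx Θ - eval (tt i) Θ) / (xx - tt i) ^ 2 -
        eval xx (derivative Θ) / (xx - tt i)) := by
    intro i
    ring
  rw [Finset.sum_congr rfl fun i _ => h i, ← Finset.mul_sum]
  ring

theorem der_Rf (θ η : ℂ[X]) : Dl (cc θ : (QQ p)[X]) (Rf (cc η)) =
    aeval xx (derivative (derivative (derivative η))) * aeval xx θ +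
    2 * ∑ i : Fin p, (((aeval xx (derivative η) * aeval xx θ -
      aeval (tt i) (derivative η) * aeval (tt i) θ) / (xx - tt i) ^ 2 -
      2 * (aeval xx η - aeval (tt i) η) * (aeval xx θ - aeval (tt i) θ) / (xx - tt i) ^ 3) -
      (aeval xx (derivative (derivative η)) * aeval xx θ / (xx - tt i) -
        aeval xx (derivative η) * (aeval xx θ - aeval (tt i) θ) / (xx - tt i) ^ 2)) := by
  unfold Rf
  simp only [der_cc, ev_cc]
  rw [map_add, der_poly, Dl_x, ev_cc]
  congr 1
  rw [show (2 : QQ p) = algebraMap ℂ (QQ p) 2 from (map_ofNat _ 2).symm, ← Algebra.smul_def,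
    ← Algebra.smul_def, Derivation.map_smul, map_sum]
  congr 1
  refine Finset.sum_congr rfl fun i _ => ?_
  rw [map_sub, der_div _ _ (pow_ne_zero 2 (xt i)), der_div _ _ (xt i), map_sub, map_sub,
    Derivation.leibniz_pow, map_sub, der_poly, der_poly, der_poly, Dl_x, Dl_t, ev_cc, ev_cc,
    map_ofNat]
  simp only [nsmul_eq_mul, smul_eq_mul]
  have h := xt i
  field_simp
  push_cast
  ring

theorem Rf_comm (θ η : ℂ[X]) : Dl (cc θ : (QQ p)[X]) (Rf (cc η)) - Dl (cc η) (Rf (cc θ)) +
    aeval xx (derivative θ) * Rf (cc η) - aeval xx (derivative η) * Rf (cc θ) =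
    Rf (cc (θ * derivative η - derivative θ * η)) := by
  rw [der_Rf, der_Rf]
  have e0 : Rf (cc (θ * derivative η - derivative θ * η) : (QQ p)[X]) =
      aeval xx (derivative θ) * aeval xx (derivative (derivative η)) +
      aeval xx θ * aeval xx (derivative (derivative (derivative η))) -
      (aeval xx (derivative (derivative (derivative θ))) * aeval xx η +
      aeval xx (derivative (derivative θ)) * aeval xx (derivative η)) +
      2 * ∑ i : Fin p, ((aeval xx θ * aeval xx (derivative η) - aeval xx (derivative θ) *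
        aeval xx η - (aeval (tt i) θ * aeval (tt i) (derivative η) -
        aeval (tt i) (derivative θ) * aeval (tt i) η)) / (xx - tt i) ^ 2 -
        (aeval xx θ * aeval xx (derivative (derivative η)) -
          aeval xx (derivative (derivative θ)) * aeval xx η) / (xx - tt i)) := by
    unfold Rf
    simp only [der_cc, ev_cc, map_sub, derivative_mul, map_mul, map_add]
    congr 1
    · ring
    · congr 1
      refine Finset.sum_congr rfl fun i _ => ?_
      ring
  have e1 : ∀ η : ℂ[X], Rf (cc η : (QQ p)[X]) = aeval xx (derivative (derivative η)) +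
      2 * ∑ i : Fin p, ((aeval xx η - aeval (tt i) η) / (xx - tt i) ^ 2 -
        aeval xx (derivative η) / (xx - tt i)) := by
    intro η
    unfold Rf
    simp only [der_cc, ev_cc]
  rw [e0, e1 η, e1 θ]
  have hs : ∑ i : Fin p, ((aeval xx θ * aeval xx (derivative η) - aeval xx (derivative θ) *
        aeval xx η - (aeval (tt i) θ * aeval (tt i) (derivative η) -
        aeval (tt i) (derivative θ) * aeval (tt i) η)) / (xx - tt i) ^ 2 -
        (aeval xx θ * aeval xx (derivative (derivative η)) -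
          aeval xx (derivative (derivative θ)) * aeval xx η) / (xx - tt i)) =
      ∑ i : Fin p, (((aeval xx (derivative η) * aeval xx θ -
      aeval (tt i) (derivative η) * aeval (tt i) θ) / (xx - tt i) ^ 2 -
      2 * (aeval xx η - aeval (tt i) η) * (aeval xx θ - aeval (tt i) θ) / (xx - tt i) ^ 3) -
      (aeval xx (derivative (derivative η)) * aeval xx θ / (xx - tt i) -
        aeval xx (derivative η) * (aeval xx θ - aeval (tt i) θ) / (xx - tt i) ^ 2)) -
      ∑ i : Fin p, (((aeval xx (derivative θ) * aeval xx η -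
      aeval (tt i) (derivative θ) * aeval (tt i) η) / (xx - tt i) ^ 2 -
      2 * (aeval xx θ - aeval (tt i) θ) * (aeval xx η - aeval (tt i) η) / (xx - tt i) ^ 3) -
      (aeval xx (derivative (derivative θ)) * aeval xx η / (xx - tt i) -
        aeval xx (derivative θ) * (aeval xx η - aeval (tt i) η) / (xx - tt i) ^ 2)) +
      aeval xx (derivative θ) * ∑ i : Fin p, ((aeval xx η - aeval (tt i) η) / (xx - tt i) ^ 2 -
        aeval xx (derivative η) / (xx - tt i)) -
      aeval xx (derivative η) * ∑ i : Fin p, ((aeval xx θ - aeval (tt i) θ) / (xx - tt i) ^ 2 -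
        aeval xx (derivative θ) / (xx - tt i)) := by
    rw [Finset.mul_sum, Finset.mul_sum, ← Finset.sum_sub_distrib, ← Finset.sum_add_distrib,
      ← Finset.sum_sub_distrib]
    refine Finset.sum_congr rfl fun i _ => ?_
    have h := xt i
    field_simp
    ring
  linear_combination (-2) * hs

/-- the vector field on the families of coefficients -/
noncomputable def Op (Θ : (QQ p)[X]) (g : ℕ × ℕ → QQ p) (k : ℕ × ℕ) : QQ p :=
  Dl Θ (g k) - eval xx (derivative Θ) * ((k.1 + k.2 : ℕ) : QQ p) * g k +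
    Rf Θ * ((k.2 + 1 : ℕ) : QQ p) * g (k.1, k.2 + 1)

theorem Op_add (Θ H : (QQ p)[X]) (g : ℕ × ℕ → QQ p) : Op (Θ + H) g = Op Θ g + Op H g := by
  funext k
  simp only [Op, Pi.add_apply, Dl_add, Rf_add, Derivation.add_apply, derivative_add, eval_add]
  ring

theorem Op_smul (a : QQ p) (Θ : (QQ p)[X]) (g : ℕ × ℕ → QQ p) : Op (C a * Θ) g = a • Op Θ g := by
  funext k
  simp only [Op, Pi.smul_apply, Dl_smul, Rf_smul, Derivation.smul_apply, derivative_C_mul,
    eval_mul, eval_C, smul_eq_mul]
  ring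

theorem Op_comm (θ η : ℂ[X]) (g : ℕ × ℕ → QQ p) : Op (cc θ) (Op (cc η) g) -
    Op (cc η) (Op (cc θ) g) = Op (cc (θ * derivative η - derivative θ * η)) g := by
  funext k
  have h1 := Rf_comm (p := p) θ η
  have h2 := Dl_comm (p := p) θ η (g k)
  have h3 : ∀ (θ η : ℂ[X]) (n : ℕ) (a : QQ p), Dl (cc θ) (aeval xx (derivative η) *
      (n : QQ p) * a) = aeval xx (derivative (derivative η)) * aeval xx θ * (n : QQ p) * a +
      aeval xx (derivative η) * (n : QQ p) * Dl (cc θ) a := by
    intro θ η n a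
    rw [Derivation.leibniz, Derivation.leibniz, der_poly, Dl_x, ev_cc, Derivation.map_natCast]
    simp only [smul_eq_mul]
    ring
  have h4 : ∀ (θ η : ℂ[X]) (n : ℕ) (a : QQ p), Dl (cc θ) (Rf (cc η) *
      (n : QQ p) * a) = Dl (cc θ) (Rf (cc η)) * (n : QQ p) * a +
      Rf (cc η) * (n : QQ p) * Dl (cc θ) a := by
    intro θ η n a
    rw [Derivation.leibniz, Derivation.leibniz, Derivation.map_natCast]
    simp only [smul_eq_mul]
    ring
  simp only [Op, Pi.sub_apply, der_cc, ev_cc, map_sub, map_add, h3, h4, derivative_mul,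
    map_mul]
  push_cast
  linear_combination h2 + (((k.2 : QQ p) + 1) * g (k.1, k.2 + 1)) * h1

end Pool.Agent.K9h12.GP
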