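import Pool.Agent.K9h12.GP.Chain

/-!
Specialisation of the roots.
-/

set_option autoImplicit false

open MvPolynomial

namespace Pool.Agent.K9h12.GP

variable {p q : ℕ}

/-- the quotient of the second and the first derivative at a root -/
noncomputable def fv {K : Type} [Field K] (τ : Fin p → K) (i : Fin p) : K :=
  ∑ l ∈ Finset.univ.erase i, 2 / (τ i - τ l)

theorem ff_eq (i : Fin p) : ff i = fv tt i := rfl

/-- the denominator of the slope -/
noncomputable def Dn (i : Fin p) : TT p :=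
  ∏ l ∈ Finset.univ.erase i, (X (Sum.inl i) - X (Sum.inl l))

/-- the numerator of the slope -/
noncomputable def Nn (i : Fin p) : TT p :=
  ∑ l ∈ Finset.univ.erase i, 2 * ∏ m ∈ (Finset.univ.erase i).erase l,
    (X (Sum.inl i) - X (Sum.inl m))

/-- the restriction to a point of the grid, with values in the polynomials -/
noncomputable def sp' (i : Fin p) (b : ℂ) : TT p →ₐ[ℂ] TT p :=
  aeval (Sum.elim (fun l => X (Sum.inl l)) fun j => if j = 0 then X (Sum.inl i) else
    algebraMap ℂ (TT p) b)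

/-- the cleared condition on a line -/
noncomputable def Gt (M : ℕ) (i : Fin p) (b g : ℂ) (f : ℕ × ℕ → TT p) : TT p :=
  ∑ k ∈ Finset.range (M + 1), ∑ l ∈ Finset.range (M + 1), sp' i b (f (k, l)) *
    (X (Sum.inr 0) ^ k * ((algebraMap ℂ (TT p) g * X (Sum.inr 0) * Dn i - Nn i) ^ l *
      Dn i ^ (M - l)))

section

variable {K : Type} [Field K] [Algebra ℂ K] (v : VV p → K)

theorem Dn_eval (i : Fin p) : aeval v (Dn i) =
    ∏ l ∈ Finset.univ.erase i, (v (Sum.inl i) - v (Sum.inl l)) := by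
  unfold Dn
  rw [map_prod]
  simp only [map_sub, aeval_X]

theorem Nn_eval {i : Fin p} (h : ∀ l, l ≠ i → v (Sum.inl i) - v (Sum.inl l) ≠ 0) :
    aeval v (Nn i) = aeval v (Dn i) * fv (fun l => v (Sum.inl l)) i := by
  classical
  rw [Dn_eval]
  unfold Nn fv
  rw [map_sum, Finset.mul_sum]
  refine Finset.sum_congr rfl fun l hl => ?_
  rw [map_mul, map_prod, map_ofNat, ← Finset.mul_prod_erase _ _ hl]
  simp only [map_sub, aeval_X]
  have := h l (Finset.ne_of_mem_erase hl)
  field_simp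

theorem Gt_eval {M : ℕ} {i : Fin p} (h : ∀ l, l ≠ i → v (Sum.inl i) - v (Sum.inl l) ≠ 0)
    (b g : ℂ) (f : ℕ × ℕ → TT p) : aeval v (Gt M i b g f) = aeval v (Dn i) ^ M *
      ∑ k ∈ Finset.range (M + 1), ∑ l ∈ Finset.range (M + 1),
        aeval (Sum.elim (fun l => v (Sum.inl l)) fun j => if j = 0 then v (Sum.inl i) else
          algebraMap ℂ K b) (f (k, l)) * (v (Sum.inr 0) ^ k *
          (algebraMap ℂ K g * v (Sum.inr 0) - fv (fun l => v (Sum.inl l)) i) ^ l) := by
  unfold Gt
  rw [map_sum, Finset.mul_sum]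
  refine Finset.sum_congr rfl fun k _ => ?_
  rw [map_sum, Finset.mul_sum]
  refine Finset.sum_congr rfl fun l hl => ?_
  have hl' : l ≤ M := Nat.lt_succ_iff.1 (Finset.mem_range.1 hl)
  have h1 : aeval v (sp' i b (f (k, l))) = aeval (Sum.elim (fun l => v (Sum.inl l)) fun j =>
      if j = 0 then v (Sum.inl i) else algebraMap ℂ K b) (f (k, l)) := by
    unfold sp'
    rw [← AlgHom.comp_apply, comp_aeval]
    congr 2
    funext w
    rcases w with l | j
    · simp
    · fin_cases j
      · simp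
      · simp
  rw [map_mul, h1, map_mul, map_mul, map_pow, map_pow, map_pow, map_sub, map_mul, map_mul,
    Nn_eval v h, aeval_X, AlgHom.commutes]
  have h2 : algebraMap ℂ K g * v (Sum.inr 0) * aeval v (Dn i) -
      aeval v (Dn i) * fv (fun l => v (Sum.inl l)) i = aeval v (Dn i) *
      (algebraMap ℂ K g * v (Sum.inr 0) - fv (fun l => v (Sum.inl l)) i) := by ring
  rw [h2, mul_pow, show aeval v (Dn i) ^ M = aeval v (Dn i) ^ l * aeval v (Dn i) ^ (M - l) by
    rw [← pow_add, Nat.add_sub_cancel' hl']]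
  ring

end

theorem Gt_zero {M : ℕ} {i : Fin p} {b g : ℂ} {f : ℕ × ℕ → TT p} :
    LineC M i b g f ↔ Gt M i b g f = 0 := by
  have hne : ∀ l, l ≠ i → (vr (Sum.inl i) : QQ p) - vr (Sum.inl l) ≠ 0 := fun l hl =>
    tt_ne hl.symm
  have h1 := Gt_eval (M := M) (vr : VV p → QQ p) hne b g f
  have h2 : aeval (vr : VV p → QQ p) (Dn i) ≠ 0 := by
    rw [Dn_eval]
    exact Finset.prod_ne_zero_iff.2 fun l hl => hne l (Finset.ne_of_mem_erase hl)
  rw [aeval_vr (Gt M i b g f)] at h1
  have h3 : io (Gt M i b g f) = aeval (vr : VV p → QQ p) (Dn i) ^ M *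
      ∑ k ∈ Finset.range (M + 1), ∑ l ∈ Finset.range (M + 1), sg i b (f (k, l)) *
    (xx ^ k * (algebraMap ℂ (QQ p) g * xx - ff i) ^ l) := h1
  constructor
  · intro h
    apply io_inj
    rw [h3, h, mul_zero, map_zero]
  · intro h
    rw [h, map_zero] at h3
    exact (mul_eq_zero.1 h3.symm).resolve_left (pow_ne_zero _ h2)

/-- **The conditions on the lines at special roots.** -/
theorem line_spec {M : ℕ} {i : Fin p} {b g : ℂ} {f : ℕ × ℕ → TT p} (h : LineC M i b g f)
    {K : Type} [Field K] [Algebra ℂ K] {τ : Fin p → K} (hτ : Function.Injective τ) (Z : K) :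
    ∑ k ∈ Finset.range (M + 1), ∑ l ∈ Finset.range (M + 1),
      aeval (Sum.elim τ fun j => if j = 0 then τ i else algebraMap ℂ K b) (f (k, l)) *
        (Z ^ k * (algebraMap ℂ K g * Z - fv τ i) ^ l) = 0 := by
  have hne : ∀ l, l ≠ i → τ i - τ l ≠ 0 := fun l hl h => hl (hτ (sub_eq_zero.1 h)).symm
  have h1 := Gt_eval (M := M) (Sum.elim τ fun _ => Z) (i := i) (by simpa using hne) b g f
  rw [Gt_zero.1 h, map_zero] at h1
  have h2 : aeval (Sum.elim τ fun _ => Z) (Dn i) ≠ 0 := by
    rw [Dn_eval]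
    refine Finset.prod_ne_zero_iff.2 fun l hl => ?_
    simpa using hne l (Finset.ne_of_mem_erase hl)
  have h3 := (mul_eq_zero.1 h1.symm).resolve_left (pow_ne_zero _ h2)
  simpa using h3

/-- the specialisation of the roots -/
noncomputable def sp (α : Fin p → ℂ) : TT p →ₐ[ℂ] MvPolynomial (Fin 2) ℂ :=
  aeval (Sum.elim (fun l => C (α l)) X)

theorem sp_eval (α : Fin p → ℂ) {K : Type} [Field K] [Algebra ℂ K] (z : Fin 2 → K) (f : TT p) :
    aeval z (sp α f) = aeval (Sum.elim (fun l => algebraMap ℂ K (α l)) z) f := by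
  unfold sp
  rw [← AlgHom.comp_apply, comp_aeval]
  congr 2
  funext w
  rcases w with l | j
  · simp
  · simp

/-- the families of coefficients -/
structure Fm (C D M : ℕ) (f : ℕ × ℕ → MvPolynomial (Fin 2) ℂ) : Prop where
  dg : ∀ k, ∀ m ∈ (f k).support, m 0 ≤ C ∧ m 1 ≤ D
  tri : ∀ k : ℕ × ℕ, M < k.1 + k.2 → f k = 0

/-- the value of a family -/
noncomputable def Ev (M : ℕ) (f : ℕ × ℕ → MvPolynomial (Fin 2) ℂ) {K : Type} [Field K]
    [Algebra ℂ K] (x y ζ b : K) : K :=
  ∑ k ∈ Finset.range (M + 1), ∑ l ∈ Finset.range (M + 1),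
    aeval ![x, y] (f (k, l)) * (ζ ^ k * b ^ l)

theorem sp_dg (α : Fin p → ℂ) {C D : ℕ} {f : TT p} (hf : DegLe C D f) :
    ∀ m ∈ (sp α f).support, m 0 ≤ C ∧ m 1 ≤ D := by
  classical
  intro m hm
  rw [f.as_sum, map_sum] at hm
  obtain ⟨w, hw, hmw⟩ := Finset.mem_biUnion.1 (MvPolynomial.support_sum hm)
  have h1 : sp α (monomial w (coeff w f)) = monomial (Finsupp.single 0 (w (Sum.inr 0)) +
      Finsupp.single 1 (w (Sum.inr 1))) (coeff w f * ∏ l, α l ^ w (Sum.inl l)) := by
    unfold sp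
    rw [aeval_monomial, Finsupp.prod_fintype _ _ (fun _ => pow_zero _), Fintype.prod_sum_type]
    simp only [Sum.elim_inl, Sum.elim_inr, Fin.prod_univ_two]
    rw [monomial_eq, map_mul, map_prod]
    simp only [map_pow]
    rw [Finsupp.prod_fintype _ _ (fun _ => pow_zero _), Fin.prod_univ_two]
    have h2 : (Finsupp.single (0 : Fin 2) (w (Sum.inr 0)) + Finsupp.single 1 (w (Sum.inr 1)) :
        Fin 2 →₀ ℕ) 0 = w (Sum.inr 0) := by simp
    have h3 : (Finsupp.single (0 : Fin 2) (w (Sum.inr 0)) + Finsupp.single 1 (w (Sum.inr 1)) :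
        Fin 2 →₀ ℕ) 1 = w (Sum.inr 1) := by simp
    rw [h2, h3, MvPolynomial.algebraMap_eq]
    ring
  rw [h1] at hmw
  have h2 := MvPolynomial.support_monomial_subset hmw
  rw [Finset.mem_singleton] at h2
  obtain ⟨a1, a2⟩ := hf w hw
  rw [h2]
  simp only [Finsupp.add_apply]
  constructor
  · simpa using a1
  · simpa using a2

/-- the families of forms which vanish on the lines of the grid -/
structure FmL (C D M : ℕ) (α : Fin p → ℂ) (β γ : Fin q → ℂ)
    (f : ℕ × ℕ → MvPolynomial (Fin 2) ℂ) : Prop where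
  fam : Fm C D M f
  line : ∀ (i : Fin p) (j : Fin q) {K : Type} [Field K] [Algebra ℂ K] (Z : K),
    Ev M f (algebraMap ℂ K (α i)) (algebraMap ℂ K (β j)) Z
      (algebraMap ℂ K (γ j) * Z - algebraMap ℂ K (fv α i)) = 0

theorem fv_map {K : Type} [Field K] [Algebra ℂ K] (α : Fin p → ℂ) (i : Fin p) :
    fv (fun l => algebraMap ℂ K (α l)) i = algebraMap ℂ K (fv α i) := by
  unfold fv
  rw [map_sum]
  refine Finset.sum_congr rfl fun l _ => ?_
  rw [map_div₀, map_sub, map_ofNat]

theorem spec_fam {C D M : ℕ} {β γ : Fin q → ℂ} {f : ℕ × ℕ → TT p} (hf : FamL C D M β γ f)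
    {α : Fin p → ℂ} (hα : Function.Injective α) :
    FmL C D M α β γ fun k => sp α (f k) := by
  refine ⟨⟨fun k => sp_dg α (hf.fam.dg k), fun k hk => ?_⟩, fun i j K _ _ Z => ?_⟩
  · simp only [hf.fam.tri k hk, map_zero]
  · have hinj : Function.Injective fun l => algebraMap ℂ K (α l) :=
      (algebraMap ℂ K).injective.comp hα
    have h1 := line_spec (hf.line i j) hinj Z
    rw [fv_map] at h1
    rw [← h1]
    unfold Ev
    refine Finset.sum_congr rfl fun k _ => Finset.sum_congr rfl fun l _ => ?_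
    rw [sp_eval]
    congr 2
    congr 1
    funext w
    rcases w with l | j'
    · rfl
    · fin_cases j'
      · rfl
      · rfl

/-- **Forms for generic roots without common zeros.** -/
theorem exists_forms {C D M : ℕ} {β γ : Fin q → ℂ} (h0 : EE p C D M β γ ≠ ⊥) :
    ∃ Ψ : MvPolynomial (Fin p) ℂ, Ψ ≠ 0 ∧ ∀ α : Fin p → ℂ, MvPolynomial.eval α Ψ ≠ 0 →
      Function.Injective α ∧ ∃ H : MvPolynomial (Fin 2) ℂ, H ≠ 0 ∧
      ∃ (n : ℕ) (F : Fin n → ℕ × ℕ → MvPolynomial (Fin 2) ℂ),
        (∀ s, FmL (C + 2 * (trn M).card) D M α β γ (F s)) ∧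
        ∀ (K : Type) [Field K] [Algebra ℂ K] (x y ζ b : K), aeval ![x, y] H ≠ 0 → ζ ≠ 0 →
          ∃ s, Ev M (F s) x y ζ b ≠ 0 := by
  classical
  obtain ⟨a, n, F, φ, b, ha, hb, hF, hcomb⟩ := exists_comb h0
  -- a point where the denominator does not vanish
  obtain ⟨w, hw⟩ : ∃ w : VV p → ℂ, MvPolynomial.eval w b ≠ 0 := by
    by_contra hcon
    push Not at hcon
    exact hb (MvPolynomial.funext fun w => by rw [hcon w, map_zero])
  let Ψ1 : MvPolynomial (Fin p) ℂ :=
    aeval (Sum.elim X fun j => MvPolynomial.C (w (Sum.inr j))) b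
  let Ψ2 : MvPolynomial (Fin p) ℂ := ∏ i : Fin p, ∏ l ∈ Finset.univ.erase i, (X i - X l)
  have hΨ1 : ∀ α : Fin p → ℂ, MvPolynomial.eval α Ψ1 =
      MvPolynomial.eval (Sum.elim α fun j => w (Sum.inr j)) b := by
    intro α
    have h1 : (aeval α : MvPolynomial (Fin p) ℂ →ₐ[ℂ] ℂ) Ψ1 =
        aeval (Sum.elim α fun j => w (Sum.inr j)) b := by
      simp only [Ψ1]
      rw [← AlgHom.comp_apply, comp_aeval]
      congr 2
      funext v
      rcases v with l | j
      · simp
      · simp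
    rwa [MvPolynomial.aeval_eq_eval, MvPolynomial.aeval_eq_eval] at h1
  refine ⟨Ψ1 * Ψ2, mul_ne_zero ?_ ?_, ?_⟩
  · intro h1
    have h2 := hΨ1 fun l => w (Sum.inl l)
    rw [h1, map_zero] at h2
    apply hw
    rw [h2]
    congr 2
    funext v
    rcases v with l | j <;> rfl
  · refine Finset.prod_ne_zero_iff.2 fun i _ => Finset.prod_ne_zero_iff.2 fun l hl => ?_
    rw [sub_ne_zero]
    intro h
    exact (Finset.ne_of_mem_erase hl) (MvPolynomial.X_injective h).symm
  intro α hα
  rw [map_mul] at hα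
  have hα1 := left_ne_zero_of_mul hα
  have hα2 := right_ne_zero_of_mul hα
  have hinj : Function.Injective α := by
    intro i l hil
    by_contra hne
    apply hα2
    simp only [Ψ2]
    rw [map_prod]
    refine Finset.prod_eq_zero (Finset.mem_univ i) ?_
    rw [map_prod]
    refine Finset.prod_eq_zero (Finset.mem_erase.2 ⟨fun h => hne h.symm, Finset.mem_univ l⟩) ?_
    rw [map_sub, MvPolynomial.eval_X, MvPolynomial.eval_X, hil, sub_self]
  refine ⟨hinj, sp α b, ?_, n, fun s k => sp α (F s k), fun s => spec_fam (hF s) hinj, ?_⟩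
  · intro h1
    apply hα1
    rw [hΨ1]
    have h2 := sp_eval α (K := ℂ) (fun j => w (Sum.inr j)) b
    rw [h1, map_zero] at h2
    have h3 : (aeval (Sum.elim (fun l => algebraMap ℂ ℂ (α l)) fun j => w (Sum.inr j)) :
      TT p →ₐ[ℂ] ℂ) b = MvPolynomial.eval (Sum.elim α fun j => w (Sum.inr j)) b := by
      rw [MvPolynomial.aeval_eq_eval]
      rfl
    rw [← h3, ← h2]
  · intro K _ _ x y ζ b' hH hζ
    by_contra hcon
    push Not at hcon
    have h1 : ∑ s, aeval ![x, y] (sp α (φ s)) * Ev M (fun k => sp α (F s k)) x y ζ b' =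
        aeval ![x, y] (sp α b) * ζ ^ a := by
      have h2 : ∀ k : ℕ × ℕ, ∑ s, aeval ![x, y] (sp α (φ s)) * aeval ![x, y] (sp α (F s k)) =
          if k = (a, 0) then aeval ![x, y] (sp α b) else 0 := by
        intro k
        have h3 := congrArg (fun P => aeval ![x, y] (sp α P)) (hcomb k)
        simp only [map_sum, map_mul] at h3
        rw [h3]
        split_ifs <;> simp
      have h3 : ∑ s, aeval ![x, y] (sp α (φ s)) * Ev M (fun k => sp α (F s k)) x y ζ b' =
          ∑ k ∈ Finset.range (M + 1), ∑ l ∈ Finset.range (M + 1),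
            (∑ s, aeval ![x, y] (sp α (φ s)) * aeval ![x, y] (sp α (F s (k, l)))) *
              (ζ ^ k * b' ^ l) := by
        unfold Ev
        simp only [Finset.mul_sum, Finset.sum_mul]
        rw [Finset.sum_comm]
        refine Finset.sum_congr rfl fun k _ => ?_
        rw [Finset.sum_comm]
        refine Finset.sum_congr rfl fun l _ => ?_
        refine Finset.sum_congr rfl fun s _ => ?_
        ring
      rw [h3]
      simp only [h2]
      rw [Finset.sum_eq_single a]
      · rw [Finset.sum_eq_single 0]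
        · simp
        · intro l _ hl
          rw [if_neg (fun h => hl (congrArg Prod.snd h)), zero_mul]
        · intro h
          exact absurd (Finset.mem_range.2 (Nat.succ_pos M)) h
      · intro k _ hk
        refine Finset.sum_eq_zero fun l _ => ?_
        rw [if_neg (fun h => hk (congrArg Prod.fst h)), zero_mul]
      · intro h
        exact absurd (Finset.mem_range.2 (Nat.lt_succ_of_le ha)) h
    rw [Finset.sum_eq_zero fun s _ => by rw [hcon s, mul_zero]] at h1
    exact mul_ne_zero hH (pow_ne_zero _ hζ) h1.symm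

end Pool.Agent.K9h12.GP
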