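import Pool.Agent.K9h12.GP.Op

/-!
Spaces of coefficients stable under the vector fields.
-/

set_option autoImplicit false

open Polynomial

namespace Pool.Agent.K9h12.GP

variable {p : ℕ}

/-- stability under a vector field -/
def Stab (E : Submodule (QQ p) (ℕ × ℕ → QQ p)) (Θ : (QQ p)[X]) : Prop := ∀ g ∈ E, Op Θ g ∈ E

variable {E : Submodule (QQ p) (ℕ × ℕ → QQ p)}

theorem Stab.add {Θ H : (QQ p)[X]} (h1 : Stab E Θ) (h2 : Stab E H) : Stab E (Θ + H) :=
  fun g hg => by rw [Op_add]; exact E.add_mem (h1 g hg) (h2 g hg)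

theorem Stab.smul {Θ : (QQ p)[X]} (h : Stab E Θ) (a : QQ p) : Stab E (C a * Θ) :=
  fun g hg => by rw [Op_smul]; exact E.smul_mem _ (h g hg)

theorem Stab.comm {θ η : ℂ[X]} (h1 : Stab E (cc θ)) (h2 : Stab E (cc η)) :
    Stab E (cc (θ * derivative η - derivative θ * η)) :=
  fun g hg => by
    rw [← Op_comm]
    exact E.sub_mem (h1 _ (h2 g hg)) (h2 _ (h1 g hg))

theorem stab_pow (h : ∀ e ≤ 3, Stab E (cc (X ^ e))) (e : ℕ) : Stab E (cc (X ^ e)) := by
  induction e using Nat.strong_induction_on with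
  | _ e ih =>
    by_cases he : e ≤ 3
    · exact h e he
    · obtain ⟨n, rfl⟩ : ∃ n, e = n + 4 := ⟨e - 4, by omega⟩
      have h1 := Stab.comm (h 2 (by omega)) (ih (n + 3) (by omega))
      have h2 : (X ^ 2 * derivative (X ^ (n + 3)) - derivative (X ^ 2) * X ^ (n + 3) : ℂ[X]) =
          C ((n : ℂ) + 1) * X ^ (n + 4) := by
        rw [derivative_X_pow, derivative_X_pow]
        simp only [Nat.add_one_sub_one, map_add, map_natCast, map_one, Nat.cast_ofNat,
          map_ofNat, pow_one]
        push_cast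
        ring
      rw [h2] at h1
      have h3 := h1.smul ((algebraMap ℂ (QQ p) ((n : ℂ) + 1))⁻¹)
      have h4 : (algebraMap ℂ (QQ p) ((n : ℂ) + 1)) ≠ 0 := by
        rw [Ne, map_eq_zero]
        exact Nat.cast_add_one_ne_zero n
      have h5 : C ((algebraMap ℂ (QQ p) ((n : ℂ) + 1))⁻¹) *
          (cc (C ((n : ℂ) + 1) * X ^ (n + 4)) : (QQ p)[X]) = cc (X ^ (n + 4)) := by
        unfold cc
        rw [Polynomial.map_mul, Polynomial.map_C, ← mul_assoc, ← C_mul, inv_mul_cancel₀ h4, C_1,
          one_mul]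
      rwa [h5] at h3

theorem stab_all (h : ∀ e ≤ 3, Stab E (cc (X ^ e))) (Θ : (QQ p)[X]) : Stab E Θ := by
  induction Θ using Polynomial.induction_on' with
  | add a b ha hb => exact ha.add hb
  | monomial n a =>
    rw [← C_mul_X_pow_eq_monomial]
    have h1 := (stab_pow h n).smul a
    unfold cc at h1
    rwa [Polynomial.map_pow, Polynomial.map_X] at h1

/-- the derivative with respect to the last variable -/
def par {K : Type} [Field K] (g : ℕ × ℕ → K) (k : ℕ × ℕ) : K :=
  ((k.2 + 1 : ℕ) : K) * g (k.1, k.2 + 1)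

/-- the operator of the degree -/
def deg {K : Type} [Field K] (g : ℕ × ℕ → K) (k : ℕ × ℕ) : K := ((k.1 + k.2 : ℕ) : K) * g k

theorem stab_par (h : ∀ Θ, Stab E Θ) : ∀ g ∈ E, par g ∈ E := by
  intro g hg
  set S : (QQ p)[X] := ∏ i : Fin p, (X - C (tt i)) with hS
  have hSt : ∀ i, eval (tt i) S = 0 := by
    intro i
    rw [hS, eval_prod]
    refine Finset.prod_eq_zero (Finset.mem_univ i) ?_
    simp
  have hSx : eval xx S ≠ 0 := by
    rw [hS, eval_prod]
    refine Finset.prod_ne_zero_iff.2 fun i _ => ?_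
    simp only [eval_sub, eval_X, eval_C]
    exact xt i
  set Θ : (QQ p)[X] := S * (X - C xx) ^ 2 with hΘ
  have e1 : ∀ i, eval (tt i) Θ = 0 := fun i => by rw [hΘ, eval_mul, hSt, zero_mul]
  have e2 : eval xx Θ = 0 := by rw [hΘ]; simp
  have e3 : eval xx (derivative Θ) = 0 := by
    rw [hΘ, derivative_mul, derivative_X_sub_C_pow]
    simp
  have e4 : eval xx (derivative (derivative Θ)) = 2 * eval xx S := by
    rw [hΘ, derivative_mul, derivative_X_sub_C_pow]
    simp only [derivative_add, derivative_mul, derivative_X_sub_C_pow, Nat.add_one_sub_one,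
      pow_one, derivative_X_sub_C]
    simp
    ring
  have h1 := h Θ g hg
  have h2 : Op Θ g = (2 * eval xx S) • par g := by
    funext k
    have h3 : Rf Θ = 2 * eval xx S := by
      unfold Rf
      rw [e2, e3, e4]
      simp [e1]
    simp only [Op, par, Pi.smul_apply, smul_eq_mul, Dl_zero e1 e2, h3, e3]
    simp
    ring
  rw [h2] at h1
  have h3 : (2 * eval xx S) ≠ 0 := mul_ne_zero two_ne_zero hSx
  have h4 := E.smul_mem (2 * eval xx S)⁻¹ h1
  rwa [smul_smul, inv_mul_cancel₀ h3, one_smul] at h4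

theorem stab_deg (h : ∀ Θ, Stab E Θ) : ∀ g ∈ E, deg g ∈ E := by
  intro g hg
  set S : (QQ p)[X] := ∏ i : Fin p, (X - C (tt i)) with hS
  have hSt : ∀ i, eval (tt i) S = 0 := by
    intro i
    rw [hS, eval_prod]
    refine Finset.prod_eq_zero (Finset.mem_univ i) ?_
    simp
  have hSx : eval xx S ≠ 0 := by
    rw [hS, eval_prod]
    refine Finset.prod_ne_zero_iff.2 fun i _ => ?_
    simp only [eval_sub, eval_X, eval_C]
    exact xt i
  set Θ : (QQ p)[X] := S * (X - C xx) with hΘ
  have e1 : ∀ i, eval (tt i) Θ = 0 := fun i => by rw [hΘ, eval_mul, hSt, zero_mul]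
  have e2 : eval xx Θ = 0 := by rw [hΘ]; simp
  have e3 : eval xx (derivative Θ) = eval xx S := by
    rw [hΘ, derivative_mul, derivative_X_sub_C]
    simp
  have h1 := h Θ g hg
  have h2 : Op Θ g = (-eval xx S) • deg g + Rf Θ • par g := by
    funext k
    simp only [Op, par, deg, Pi.add_apply, Pi.smul_apply, smul_eq_mul, Dl_zero e1 e2, e3]
    simp
    ring
  rw [h2] at h1
  have h5 := E.sub_mem h1 (E.smul_mem (Rf Θ) (stab_par h g hg))
  rw [add_sub_cancel_right] at h5
  have h3 : (-eval xx S) ≠ 0 := neg_ne_zero.2 hSx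
  have h4 := E.smul_mem (-eval xx S)⁻¹ h5
  rwa [smul_smul, inv_mul_cancel₀ h3, one_smul] at h4

/-- the homogeneous parts -/
theorem mem_homog (hdeg : ∀ g ∈ E, deg g ∈ E) {M : ℕ}
    (hM : ∀ g ∈ E, ∀ k : ℕ × ℕ, M < k.1 + k.2 → g k = 0) (n : ℕ) :
    ∀ g ∈ E, (fun k => if k.1 + k.2 = n then g k else 0) ∈ E := by
  classical
  intro g hg
  have h1 : ∀ s : Finset ℕ, (fun k : ℕ × ℕ => (∏ j ∈ s, (((k.1 + k.2 : ℕ) : QQ p) - (j : QQ p))) *
      g k) ∈ E := by
    intro s
    induction s using Finset.induction_on with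
    | empty => simpa using hg
    | insert j s hj ih =>
      have h2 := E.sub_mem (hdeg _ ih) (E.smul_mem (j : QQ p) ih)
      convert h2 using 1
      funext k
      simp only [Finset.prod_insert hj, deg, Pi.sub_apply, Pi.smul_apply, smul_eq_mul]
      ring
  by_cases hn : n ≤ M
  · have h2 := h1 ((Finset.range (M + 1)).erase n)
    set c : QQ p := ∏ j ∈ (Finset.range (M + 1)).erase n, ((n : QQ p) - (j : QQ p)) with hc
    have hc0 : c ≠ 0 := by
      rw [hc]
      refine Finset.prod_ne_zero_iff.2 fun j hj => ?_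
      rw [sub_ne_zero]
      exact_mod_cast (Finset.ne_of_mem_erase hj).symm
    have h3 := E.smul_mem c⁻¹ h2
    convert h3 using 1
    funext k
    simp only [Pi.smul_apply, smul_eq_mul]
    split_ifs with hk
    · rw [hk, ← hc, ← mul_assoc, inv_mul_cancel₀ hc0, one_mul]
    · by_cases hkM : M < k.1 + k.2
      · rw [hM g hg k hkM, mul_zero, mul_zero]
      · rw [Finset.prod_eq_zero (i := k.1 + k.2)
          (Finset.mem_erase.2 ⟨hk, Finset.mem_range.2 (by omega)⟩) (sub_self _)]
        simp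
  · have h2 : (fun k : ℕ × ℕ => if k.1 + k.2 = n then g k else 0) = 0 := by
      funext k
      simp only [Pi.zero_apply, ite_eq_right_iff]
      intro hk
      exact hM g hg k (by omega)
    rw [h2]
    exact E.zero_mem

/-- **A stable space contains a monomial.** -/
theorem exists_mono (h : ∀ e ≤ 3, Stab E (cc (X ^ e))) {M : ℕ}
    (hM : ∀ g ∈ E, ∀ k : ℕ × ℕ, M < k.1 + k.2 → g k = 0) (hE : E ≠ ⊥) :
    ∃ a ≤ M, (Pi.single (a, 0) 1 : ℕ × ℕ → QQ p) ∈ E := by
  classical
  have hall := stab_all h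
  have hpar := stab_par hall
  have hdeg := stab_deg hall
  obtain ⟨g, hg, hg0⟩ := (Submodule.ne_bot_iff _).1 hE
  obtain ⟨k0, hk0⟩ := Function.ne_iff.1 hg0
  have key : ∀ l0 n : ℕ, ∀ g ∈ E, (∀ k, g k ≠ 0 → k.1 + k.2 = n ∧ k.2 ≤ l0) →
      (∃ k, g k ≠ 0) → ∃ a ≤ M, (Pi.single (a, 0) 1 : ℕ × ℕ → QQ p) ∈ E := by
    intro l0
    induction l0 with
    | zero =>
      intro n g hg h1 ⟨k, hk⟩
      have h2 := h1 k hk
      have h3 : k = (n, 0) := by
        ext
        · have := h2.1; have := h2.2; simp only; omega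
        · have := h2.2; simp only; omega
      have hnM : n ≤ M := by
        by_contra hcon
        exact hk (hM g hg k (by rw [h2.1]; omega))
      refine ⟨n, hnM, ?_⟩
      have h4 : g = g (n, 0) • Pi.single (n, 0) 1 := by
        funext k'
        simp only [Pi.smul_apply, smul_eq_mul]
        by_cases hk' : k' = (n, 0)
        · rw [hk']; simp
        · rw [Pi.single_eq_of_ne hk', mul_zero]
          by_contra hcon
          have h5 := h1 k' hcon
          apply hk'
          ext
          · have := h5.1; have := h5.2; simp only; omega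
          · have := h5.2; simp only; omega
      have h5 : g (n, 0) ≠ 0 := by rw [← h3]; exact hk
      have h6 := E.smul_mem (g (n, 0))⁻¹ hg
      rw [h4] at h6
      simp only [Pi.smul_apply, smul_eq_mul, Pi.single_eq_same, mul_one, smul_smul,
        inv_mul_cancel₀ h5, one_smul] at h6
      exact h6
    | succ l0 ih =>
      intro n g hg h1 ⟨k, hk⟩
      by_cases hall0 : ∀ k, g k ≠ 0 → k.2 ≤ l0
      · exact ih n g hg (fun k hk => ⟨(h1 k hk).1, hall0 k hk⟩) ⟨k, hk⟩
      · push Not at hall0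
        obtain ⟨k', hk', hk2⟩ := hall0
        have h2 := h1 k' hk'
        have h3 : k'.2 = l0 + 1 := by omega
        refine ih (n - 1) (par g) (hpar g hg) ?_ ⟨(k'.1, l0), ?_⟩
        · intro m hm
          have h4 : g (m.1, m.2 + 1) ≠ 0 := fun h0 => hm (by simp [par, h0])
          have h5 := h1 _ h4
          simp only at h5
          omega
        · simp only [par]
          refine mul_ne_zero (Nat.cast_ne_zero.2 (Nat.succ_ne_zero _)) ?_
          rw [← h3]
          exact hk'
  refine key (k0.1 + k0.2) (k0.1 + k0.2) _ (mem_homog hdeg hM (k0.1 + k0.2) g hg) ?_ ⟨k0, ?_⟩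
  · intro k hk
    simp only [ne_eq, ite_eq_right_iff, Classical.not_imp] at hk
    exact ⟨hk.1, by omega⟩
  · simpa using hk0

end Pool.Agent.K9h12.GP
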